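import Pool.Agent.NHB.ToN
import Pool.Agent.KNH.RevQ
import Pool.Agent.COR.Frm

/-!
# NHB/RvA: reversal of all three coordinates of a thick torus; the symmetry `t → -t` of `N × Circle`

`rev_all`: a `TwinP` for `κ`, `n`, `j` gives one for `κ (-l, conj v, -t)`, `n`, `j`: `A' = A`, `Q' z = Q (conj (c1 z), conj (c2 z), - ht z)`.
`flip_iff`: the product `prd κ` carries the same manifolds for `n, j` and for `-n, 1 - j`.
-/

open scoped Manifold ContDiff Topology
open Set Filter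
open Complex (I)
open Pool.Agent.RSG (E3 E4 S4 ex c1 c2 ht fh Thick IsRollGluck)
open Pool.Agent.RBM (ThickT TwinP OnT)
open Pool.Agent.RBN (IN circ prd pb circ_add circ_zero circ_int circ_eq circ_per circ_ld circ_smooth circ_surj dic)

namespace Pool.Agent.NHB

universe u

section
variable {EP : Type*} [NormedAddCommGroup EP] [NormedSpace ℝ EP] {HP : Type*} [TopologicalSpace HP]
  {IP : ModelWithCorners ℝ EP HP} {P : Type*} [TopologicalSpace P] [ChartedSpace HP P]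
  {κ : ℝ × ℂ × ℝ → P} {X : Type u} [TopologicalSpace X] [ChartedSpace E4 X] {n j : ℤ}

/-- the conjugation of the twin -/
noncomputable def RvA_sw (z : S4) : S4 :=
  Pool.Agent.RSG.pS4 ((starRingEnd ℂ) (c1 z)) ((starRingEnd ℂ) (c2 z)) (-ht z)

theorem RvA_coord (z : S4) : c1 (RvA_sw z) = (starRingEnd ℂ) (c1 z) ∧
    c2 (RvA_sw z) = (starRingEnd ℂ) (c2 z) ∧ ht (RvA_sw z) = -ht z := by
  refine Pool.Agent.RSG.pS4_c ?_
  rw [RCLike.norm_conj, RCLike.norm_conj, neg_sq]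
  have h1 := Pool.Agent.RSG.S4_sq z
  linarith

theorem RvA_fh (z : S4) : fh (RvA_sw z) = (starRingEnd ℂ) (fh z) := by
  obtain ⟨h1, h2, h3⟩ := RvA_coord z
  unfold fh
  rw [h1, h2, h3, RCLike.norm_conj, RCLike.norm_conj]
  apply Complex.ext
  · simp
  · simp

theorem RvA_inv (z : S4) : RvA_sw (RvA_sw z) = z := by
  obtain ⟨h1, h2, h3⟩ := RvA_coord z
  obtain ⟨h4, h5, h6⟩ := RvA_coord (RvA_sw z)
  refine Pool.Agent.RSG.S4_ext ?_ ?_ ?_
  · rw [h4, h1, Complex.conj_conj]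
  · rw [h5, h2, Complex.conj_conj]
  · rw [h6, h3, neg_neg]

theorem RvA_smooth (z : S4) : ContMDiffAt (𝓡 4) (𝓡 4) ∞ RvA_sw z := by
  have hc : ContMDiff 𝓘(ℝ, ℂ) 𝓘(ℝ, ℂ) ∞ (fun w : ℂ => (starRingEnd ℂ) w) :=
    contMDiff_iff_contDiff.2 Complex.conjCLE.contDiff
  have hn : ContMDiff 𝓘(ℝ, ℝ) 𝓘(ℝ, ℝ) ∞ (fun w : ℝ => -w) :=
    contMDiff_iff_contDiff.2 contDiff_neg
  refine Pool.Agent.RSG.pS4_smooth (hc.contMDiffAt.comp z (Pool.Agent.RSG.c1_smooth z))
    (hc.contMDiffAt.comp z (Pool.Agent.RSG.c2_smooth z))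
    (hn.contMDiffAt.comp z (Pool.Agent.RSG.ht_smooth z)) ?_
  rw [RCLike.norm_conj, RCLike.norm_conj, neg_sq]
  have h1 := Pool.Agent.RSG.S4_sq z
  linarith

theorem RvA_ld (z : S4) : IsLocalDiffeomorphAt (𝓡 4) (𝓡 4) ∞ RvA_sw z :=
  Pool.Agent.RSG.ld_two (g := RvA_sw) (Eventually.of_forall RvA_smooth)
    (Eventually.of_forall RvA_smooth) (Eventually.of_forall RvA_inv)
    (Eventually.of_forall RvA_inv)

omit [TopologicalSpace P] in
theorem RvA_on (κ : ℝ × ℂ × ℝ → P) (p : P) :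
    OnT (fun q => κ (-q.1, (starRingEnd ℂ) q.2.1, -q.2.2)) p ↔ OnT κ p := by
  unfold OnT
  constructor
  · rintro ⟨l, t, h⟩
    refine ⟨-l, -t, ?_⟩
    rw [h]
    simp
  · rintro ⟨l, t, h⟩
    refine ⟨-l, -t, ?_⟩
    rw [h]
    simp

theorem rev_all (D : TwinP IP κ n j X) :
    Nonempty (TwinP IP (fun q => κ (-q.1, (starRingEnd ℂ) q.2.1, -q.2.2)) n j X) := by
  have hf6 : ∀ {z : S4}, fh z ≠ 0 → fh (RvA_sw z) ≠ 0 := by
    intro z hz
    rw [RvA_fh]
    exact (map_ne_zero _).2 hz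
  refine ⟨{ A := D.A
            Q := fun z => D.Q (RvA_sw z)
            A_loc := ?_
            A_inj := ?_
            Q_loc := ?_
            Q_inj := ?_
            glue := ?_
            disj := ?_
            cover := ?_ }⟩
  · intro p hp
    exact D.A_loc p (fun h => hp ((RvA_on κ p).2 h))
  · intro p p' hp hp' he
    exact D.A_inj p p' (fun h => hp ((RvA_on κ p).2 h)) (fun h => hp' ((RvA_on κ p').2 h)) he
  · intro z hz
    exact IsLocalDiffeomorphAt.comp (hf := RvA_ld z) (g := D.Q) (hg := D.Q_loc _ (hf6 hz))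
  · intro z z' hz hz' he
    have h1 := D.Q_inj _ _ (hf6 hz) (hf6 hz') he
    rw [← RvA_inv z, h1, RvA_inv]
  · intro z l m t hf h1 h2 e1 e2 e3
    obtain ⟨b1, b2, b3⟩ := RvA_coord z
    have key := D.glue (RvA_sw z) (-l) (-m) (-t) (hf6 hf)
      (by rw [b1]; exact (map_ne_zero _).2 h1) (by rw [b2]; exact (map_ne_zero _).2 h2)
      (by
        rw [b1, RCLike.norm_conj, Pool.Agent.RSG.MirM_conj_ex e1]
        congr 2
        push_cast
        ring)
      (by
        rw [b2, RCLike.norm_conj, Pool.Agent.RSG.MirM_conj_ex e2]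
        congr 2
        push_cast
        ring)
      (by
        rw [RvA_fh, RCLike.norm_conj, Pool.Agent.RSG.MirM_conj_ex e3]
        congr 2
        push_cast
        ring)
    rw [key, b1, b2, RCLike.norm_conj, RCLike.norm_conj]
    show _ = D.A (κ (-l, (starRingEnd ℂ) (((2 * ‖c1 z‖ * ‖c2 z‖ : ℝ) : ℂ) * ex m), -t))
    rw [map_mul, Complex.conj_ofReal, RBM.Cjm_ex_conj]
  · intro z p hf hz hp
    obtain ⟨b1, b2, b3⟩ := RvA_coord z
    refine D.disj _ p (hf6 hf) ?_ (fun h => hp ((RvA_on κ p).2 h))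
    rw [b1, b2]
    exact hz.imp (fun h => by rw [h, map_zero]) (fun h => by rw [h, map_zero])
  · intro q
    rcases D.cover q with ⟨p, h1, h2⟩ | ⟨z, h1, h2⟩
    · exact Or.inl ⟨p, fun h => h1 ((RvA_on κ p).1 h), h2⟩
    · refine Or.inr ⟨RvA_sw z, hf6 h1, ?_⟩
      rw [RvA_inv]
      exact h2

end

section
variable {N : Type*} [TopologicalSpace N] [ChartedSpace E3 N]

/-- the inverse of the circle factor -/
noncomputable def cinv {N : Type*} : Equiv.Perm (N × Circle) where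
  toFun p := (p.1, p.2⁻¹)
  invFun p := (p.1, p.2⁻¹)
  left_inv p := by simp
  right_inv p := by simp

theorem cinv_ld (p : N × Circle) : IsLocalDiffeomorphAt IN IN ∞ (cinv : N × Circle → N × Circle) p := by
  have h : ∀ p : N × Circle, ContMDiffAt IN IN ∞ (fun p : N × Circle => ((p.1, p.2⁻¹) : N × Circle)) p := fun p =>
    contMDiffAt_fst.prodMk ((contMDiff_inv (𝓡 1) ∞).contMDiffAt.comp p contMDiffAt_snd)
  exact RSG.ld_two (g := (cinv : N × Circle → N × Circle)) (Eventually.of_forall h) (Eventually.of_forall h)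
    (Eventually.of_forall fun x => (cinv : Equiv.Perm (N × Circle)).left_inv x)
    (Eventually.of_forall fun x => (cinv : Equiv.Perm (N × Circle)).left_inv x)

theorem circ_neg (t : ℝ) : circ (-t) = (circ t)⁻¹ := by
  rw [eq_inv_iff_mul_eq_one, ← circ_add, neg_add_cancel, circ_zero]

/-- reversal of the direction of a knot -/
theorem rev_knot {κ : ℝ × ℂ → N} {n j : ℤ} {X : Type u} [TopologicalSpace X] [ChartedSpace E4 X]
    (h : Nonempty (TwinP IN (prd κ) n j X)) :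
    Nonempty (TwinP IN (prd fun q => κ (-q.1, (starRingEnd ℂ) q.2)) n j X) := by
  obtain ⟨D⟩ := h
  obtain ⟨D'⟩ := rev_all D
  have h1 := COR.TwinP_diffeo (cinv : Equiv.Perm (N × Circle)) cinv_ld D'
  have h2 : (fun q : ℝ × ℂ × ℝ => (cinv : Equiv.Perm (N × Circle))
      ((fun q : ℝ × ℂ × ℝ => prd κ (-q.1, (starRingEnd ℂ) q.2.1, -q.2.2)) q)) =
      prd fun q => κ (-q.1, (starRingEnd ℂ) q.2) := by
    funext q
    show ((κ (-q.1, (starRingEnd ℂ) q.2.1), (circ (-q.2.2))⁻¹) : N × Circle) =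
      (κ (-q.1, (starRingEnd ℂ) q.2.1), circ q.2.2)
    rw [circ_neg, inv_inv]
  rwa [h2] at h1

/-- the symmetry of the circle factor -/
theorem flip_twin [T2Space N] {κ : ℝ × ℂ → N} (hκ : Thick κ) {n j : ℤ} {X : Type u} [TopologicalSpace X] [ChartedSpace E4 X]
    (h : Nonempty (TwinP IN (prd κ) n j X)) : Nonempty (TwinP IN (prd κ) (-n) (1 - j) X) := by
  obtain ⟨D⟩ := h
  have hT := RBN.prd_thick hκ
  obtain ⟨D1⟩ := KNH.rev_twin D
  obtain ⟨D2⟩ := COR.mirror0 (KNH.rev_thick hT) D1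
  obtain ⟨D3⟩ := rev_all D2
  have h1 := COR.TwinP_diffeo (cinv : Equiv.Perm (N × Circle)) cinv_ld D3
  have h2 : (fun q : ℝ × ℂ × ℝ => (cinv : Equiv.Perm (N × Circle))
      ((fun q : ℝ × ℂ × ℝ => (fun q : ℝ × ℂ × ℝ => (fun q : ℝ × ℂ × ℝ => prd κ (-q.1, q.2)) (q.1, (starRingEnd ℂ) q.2.1, q.2.2))
        (-q.1, (starRingEnd ℂ) q.2.1, -q.2.2)) q)) = prd κ := by
    funext q
    show ((κ (- -q.1, (starRingEnd ℂ) ((starRingEnd ℂ) q.2.1)), (circ (-q.2.2))⁻¹) : N × Circle) =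
      (κ (q.1, q.2.1), circ q.2.2)
    rw [circ_neg, inv_inv, neg_neg, Complex.conj_conj]
  rwa [h2] at h1

theorem flip_iff [T2Space N] {κ : ℝ × ℂ → N} (hκ : Thick κ) {n j : ℤ} {X : Type u} [TopologicalSpace X] [ChartedSpace E4 X] :
    IsRollGluck κ n j X ↔ IsRollGluck κ (-n) (1 - j) X := by
  constructor
  · intro h
    exact dic.1 (flip_twin hκ (dic.2 h))
  · intro h
    have h1 := dic.1 (flip_twin hκ (dic.2 h))
    rwa [neg_neg, sub_sub_cancel] at h1

end

end Pool.Agent.NHB
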