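import Pool.Agent.NHB.Top
import Pool.Agent.NHB.RvA
import Pool.Agent.KNH.RepC
import Pool.Agent.KNH.RevQ
import Pool.Agent.COR.CorB

/-!
# NHB/RepN: thick knots of `N` with the same image of the core (the proofs of KNH/RepC with `N` instead of the 3-sphere)

`carry_image`: if `κ₁`, `κ₂` are thick knots with the same core set then every manifold carried by `κ₁`, `n`, `j` is carried by `κ₂`, `n`,
`j'` for some `j'`.
-/

open scoped Manifold ContDiff Topology
open Set Filter
open Complex (I)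
open Pool.Agent.CSG (stp)
open Pool.Agent.RSG (E3 E4 S4 ex cj Thick OnKnot IsRollGluck)
open Pool.Agent.RBM (ThickT TwinP OnT Box Bundle frc)
open Pool.Agent.COR (Equi EquiB)
open Pool.Agent.KNH (StrM_inv RepC_int)
open Pool.Agent.RBN (IN circ prd pb circ_add circ_zero circ_int circ_eq circ_per circ_ld circ_smooth circ_surj Cir_arg dic)
open Pool.Agent.NHP (E core LEqN)

namespace Pool.Agent.NHB

universe v

section
variable {N : Type*} [TopologicalSpace N] [ChartedSpace E3 N] [T2Space N]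

/-- the lift of a closed curve is smooth -/
theorem RepN_smooth {κ κ' : ℝ × ℂ × ℝ → N × Circle} (hκ : ThickT IN κ) (hκ' : ThickT IN κ') {c c' : ℝ → N}
    (hc : ∀ l, κ (l, 0, 0) = (c l, 1)) (hc' : ∀ l, κ' (l, 0, 0) = (c' l, 1)) {f : ℝ → ℝ}
    (hf : Continuous f) (h : ∀ u, c (f u) = c' u) : ContDiff ℝ ∞ f := by
  rw [contDiff_iff_contDiffAt]
  intro u₀
  obtain ⟨g, hg1, hg2⟩ := StrM_inv (hκ.loc (f u₀) 0 0 (by simp))
  have e1 : ContMDiffAt 𝓘(ℝ, ℝ) IN ∞ (fun u : ℝ => ((c' u, 1) : N × Circle)) u₀ :=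
    (StrN_csmooth hκ' hc' u₀).prodMk contMDiffAt_const
  have e0 : κ (f u₀, 0, 0) = ((c' u₀, 1) : N × Circle) := by rw [hc, h]
  rw [e0] at hg1
  have e2 : ContMDiffAt 𝓘(ℝ, ℝ) 𝓘(ℝ, ℝ × ℂ × ℝ) ∞ (fun u : ℝ => g ((c' u, 1) : N × Circle)) u₀ :=
    ContMDiffAt.comp (g := g) (f := fun u : ℝ => ((c' u, 1) : N × Circle)) u₀ hg1 e1
  have e3 : ContDiffAt ℝ ∞ (fun u : ℝ => (g ((c' u, 1) : N × Circle)).1) u₀ :=
    (contMDiffAt_iff_contDiffAt.1 e2).fst
  refine e3.congr_of_eventuallyEq ?_
  have e4 : Continuous fun u : ℝ => ((f u, 0, 0) : ℝ × ℂ × ℝ) :=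
    hf.prodMk continuous_const
  filter_upwards [e4.continuousAt.eventually hg2] with u hu
  rw [← h, ← hc, hu]

theorem RepN_per {κ : ℝ × ℂ × ℝ → N × Circle} (hκ : ThickT IN κ) {c : ℝ → N}
    (hc : ∀ l, κ (l, 0, 0) = (c l, 1)) : ∀ l, c (l + 1) = c l := by
  intro l
  have h1 := hκ.perl l 0 0
  rw [hc, hc] at h1
  exact (Prod.ext_iff.1 h1).1

theorem RepN_inj {κ : ℝ × ℂ × ℝ → N × Circle} (hκ : ThickT IN κ) {c : ℝ → N}
    (hc : ∀ l, κ (l, 0, 0) = (c l, 1)) : ∀ l l', c l = c l' → ∃ m : ℤ, l' = l + m := by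
  intro l l' h1
  have h2 : κ (l, 0, 0) = κ (l', 0, 0) := by rw [hc, hc, h1]
  exact (hκ.inj l 0 0 l' 0 0 (by simp) (by simp) h2).2.1

/-- closed curves with the same image -/
theorem same_image {κ κ' : ℝ × ℂ × ℝ → N × Circle} (hκ : ThickT IN κ) (hκ' : ThickT IN κ') {c c' : ℝ → N}
    (hc : ∀ l, κ (l, 0, 0) = (c l, 1)) (hc' : ∀ l, κ' (l, 0, 0) = (c' l, 1))
    (hr : range c = range c') :
    ∃ (g : ℝ → ℝ) (ε : ℝ), (ε = 1 ∨ ε = -1) ∧ ContDiff ℝ ∞ g ∧ (∀ l, g (l + 1) = g l + 1) ∧
      (∀ l, 0 < deriv g l) ∧ ∀ l, c' l = c (ε * g l) := by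
  have hcc : Continuous c := (StrN_csmooth hκ hc).continuous
  have hcc' : Continuous c' := (StrN_csmooth hκ' hc').continuous
  have hp := RepN_per hκ hc
  have hp' := RepN_per hκ' hc'
  have hi := RepN_inj hκ hc
  have hi' := RepN_inj hκ' hc'
  obtain ⟨f, hf, hfe⟩ := StrN_lift hcc hcc' hp hi (fun u => by
    have : c' u ∈ range c := hr ▸ mem_range_self u
    exact this)
  obtain ⟨f', hf', hfe'⟩ := StrN_lift hcc' hcc hp' hi' (fun u => by
    have : c u ∈ range c' := hr ▸ mem_range_self u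
    exact this)
  have hs := RepN_smooth hκ hκ' hc hc' hf hfe
  have hs' := RepN_smooth hκ' hκ hc' hc hf' hfe'
  -- the compositions
  obtain ⟨a, ha⟩ := RepC_int (f := fun u => f (f' u) - u) ((hf.comp hf').sub continuous_id) (fun u => by
    obtain ⟨m, hm⟩ := hi u (f (f' u)) (by rw [hfe, hfe'])
    exact ⟨m, by rw [hm]; ring⟩)
  obtain ⟨b, hb⟩ := RepC_int (f := fun u => f' (f u) - u) ((hf'.comp hf).sub continuous_id) (fun u => by
    obtain ⟨m, hm⟩ := hi' u (f' (f u)) (by rw [hfe', hfe])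
    exact ⟨m, by rw [hm]; ring⟩)
  have ha' : ∀ u, f (f' u) = u + a := fun u => by linarith [ha u]
  have hb' : ∀ u, f' (f u) = u + b := fun u => by linarith [hb u]
  -- the degrees
  obtain ⟨d, hd⟩ := RepC_int (f := fun u => f (u + 1) - f u)
    ((hf.comp (continuous_id.add continuous_const)).sub hf) (fun u => by
    obtain ⟨m, hm⟩ := hi (f u) (f (u + 1)) (by rw [hfe, hfe, hp'])
    exact ⟨m, by rw [hm]; ring⟩)
  obtain ⟨d', hd'⟩ := RepC_int (f := fun u => f' (u + 1) - f' u)
    ((hf'.comp (continuous_id.add continuous_const)).sub hf') (fun u => by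
    obtain ⟨m, hm⟩ := hi' (f' u) (f' (u + 1)) (by rw [hfe', hfe', hp])
    exact ⟨m, by rw [hm]; ring⟩)
  have hd1 : ∀ u, f (u + 1) = f u + d := fun u => by linarith [hd u]
  have hd1' : ∀ u, f' (u + 1) = f' u + d' := fun u => by linarith [hd' u]
  have hdm : ∀ (m : ℤ) u, f (u + m) = f u + d * m := by
    intro m
    induction m using Int.induction_on with
    | zero => intro u; simp
    | succ m ih =>
      intro u
      have h1 := hd1 (u + m)
      have h2 := ih u
      push_cast at h2 ⊢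
      rw [show u + ((m : ℝ) + 1) = u + m + 1 by ring, h1, h2]
      ring
    | pred m ih =>
      intro u
      have h1 := hd1 (u + (-m - 1))
      have h2 := ih u
      push_cast at h2 ⊢
      rw [show u + (-(m : ℝ) - 1) + 1 = u + -m by ring, h2] at h1
      linarith
  have hdd : d * d' = 1 := by
    have h1 := ha' (0 + 1)
    rw [hd1', hdm, ha'] at h1
    have h2 : (d : ℝ) * d' = 1 := by linarith
    exact_mod_cast h2
  have hinj : Function.Injective f := by
    intro x y hxy
    have h1 := hb' x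
    have h2 := hb' y
    rw [hxy, h2] at h1
    linarith
  -- the derivative
  have hder : ∀ l, deriv f l ≠ 0 := by
    intro l h0
    have h1 : HasDerivAt f (deriv f l) l := (hs.differentiable (by simp) l).hasDerivAt
    have h2 : HasDerivAt f' (deriv f' (f l)) (f l) := (hs'.differentiable (by simp) _).hasDerivAt
    have h3 := h2.comp l h1
    rw [h0, mul_zero] at h3
    have h4 : f' ∘ f = fun u : ℝ => u + (b : ℝ) := funext hb'
    rw [h4] at h3
    have h5 : HasDerivAt (fun u : ℝ => u + (b : ℝ)) 1 l := (hasDerivAt_id l).add_const _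
    exact zero_ne_one (h3.unique h5)
  have hd1 : d = 1 ∨ d = -1 := by
    have := Int.isUnit_iff.1 (IsUnit.of_mul_eq_one (b := d') hdd)
    exact this
  rcases hf.strictMono_of_inj hinj with hm | hm
  · have hpos : (0 : ℝ) < d := by
      have h1 := hm (show (0 : ℝ) < 0 + 1 by norm_num)
      have h2 := hd 0
      linarith
    have hdo : d = 1 := by
      rcases hd1 with h | h
      · exact h
      · rw [h] at hpos
        norm_num at hpos
    refine ⟨f, 1, Or.inl rfl, hs, fun l => ?_, fun l => ?_, fun l => ?_⟩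
    · have h2 := hd l
      rw [hdo] at h2
      push_cast at h2
      linarith
    · exact lt_of_le_of_ne (hm.monotone.deriv_nonneg) (hder l).symm
    · rw [one_mul, hfe]
  · have hneg : (d : ℝ) < 0 := by
      have h1 := hm (show (0 : ℝ) < 0 + 1 by norm_num)
      have h2 := hd 0
      linarith
    have hdo : d = -1 := by
      rcases hd1 with h | h
      · rw [h] at hneg
        norm_num at hneg
      · exact h
    refine ⟨fun l => -f l, -1, Or.inr rfl, hs.neg, fun l => ?_, fun l => ?_, fun l => ?_⟩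
    · have h2 := hd l
      rw [hdo] at h2
      push_cast at h2
      simp only at h2 ⊢
      linarith
    · have h1 : HasDerivAt f (deriv f l) l := (hs.differentiable (by simp) l).hasDerivAt
      have h2 : HasDerivAt (fun l => -f l) (-deriv f l) l := h1.neg
      have hm' : StrictMono fun u : ℝ => -f u := fun x y hxy => neg_lt_neg (hm hxy)
      refine lt_of_le_of_ne (hm'.monotone.deriv_nonneg) ?_
      rw [h2.deriv]
      intro h3
      exact hder l (by linarith)
    · rw [show (-1 : ℝ) * -f l = f l by ring, hfe]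

/-- **If the cores of two thick knots have the same image then they carry the same manifolds, up to a change of `j`.** -/
theorem carry_image {κ κ' : ℝ × ℂ → N} (hκ : Thick κ) (hκ' : Thick κ') (hr : core κ = core κ')
    {X : Type v} [TopologicalSpace X] [ChartedSpace E4 X] {n j : ℤ} (h : IsRollGluck κ n j X) :
    ∃ j' : ℤ, IsRollGluck κ' n j' X := by
  have hT := RBN.prd_thick hκ
  have hT' := RBN.prd_thick hκ'
  obtain ⟨g, ε, hε, hg, hg1, hg', hcg⟩ := same_image hT hT' (c := fun l => κ (l, 0)) (c' := fun l => κ' (l, 0))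
    (fun l => prd_core l) (fun l => prd_core l) hr
  have key : ∀ (κ₁ : ℝ × ℂ → N) (m i : ℤ), ThickT IN (prd κ₁) → (∀ l, κ' (l, 0) = κ₁ (g l, 0)) →
      Nonempty (TwinP IN (prd κ₁) m i X) → ∃ j' : ℤ, IsRollGluck κ' m j' X := by
    rintro κ₁ m i h3 h2 ⟨D⟩
    have h4 : PTH.Carries IN rot m (fun l => ((κ' (l, 0), 1) : N × Circle)) X := by
      refine ⟨fun q => prd κ₁ (g q.1, q.2), i, COR.thick_rep h3 hg hg1 hg', ?_, ?_, COR.rep h3 hg hg1 hg' D⟩
      · intro l v t
        exact prd_equi κ₁ (g l) v t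
      · intro l
        show ((κ₁ (g l, 0), circ 0) : N × Circle) = (κ' (l, 0), 1)
        rw [circ_zero, h2]
    obtain ⟨j', hj'⟩ := COR.carries_core rot_act h4 hT' (prd_equi κ') fun l => prd_core l
    exact ⟨j', dic.1 hj'⟩
  rcases hε with rfl | rfl
  · exact key κ n j hT (fun l => by
      have := hcg l
      rwa [one_mul] at this) (dic.2 h)
  · have h1 : ThickT IN (prd fun q => κ (-q.1, q.2)) := KNH.rev_thick hT
    obtain ⟨D⟩ := dic.2 h
    obtain ⟨j', hj'⟩ := key (fun q => κ (-q.1, q.2)) (-n) j h1 (fun l => by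
      have := hcg l
      rw [neg_one_mul] at this
      exact this) (KNH.rev_twin D)
    refine ⟨1 - j', ?_⟩
    have h2 := (flip_iff hκ').1 hj'
    rwa [neg_neg] at h2

/-- the bridge for two thick knots, up to a change of `j` -/
theorem bridge_two [IsManifold (𝓡 3) ∞ N] (hO : ∃ o : (E → N) → E → ℝ, Orn o) {κ κ' : ℝ × ℂ → N}
    (hκ : Thick κ) (hκ' : Thick κ') (h : LEqN (core κ) (core κ')) {X : Type v} [TopologicalSpace X] [ChartedSpace E4 X]
    [T2Space X] {n j : ℤ} (hX : IsRollGluck κ n j X) : ∃ j' : ℤ, IsRollGluck κ' n j' X := by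
  obtain ⟨κ₁, h1, h2, h3⟩ := bridge.{v} hO hκ h
  exact carry_image h1 hκ' h2 ((h3 X n j).1 hX)

end

end Pool.Agent.NHB
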