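import Pool.Agent.NHB.Oex
import Pool.Agent.NHB.RepN

/-!
# NHB/Oez: orientability from the hypothesis on homomorphisms to `ZMod 2`; the bridge in this form
-/

open scoped Manifold ContDiff Topology
open Set Filter
open Pool.Agent.RSG (E3 E4 Thick IsRollGluck)
open Pool.Agent.NHP (E LEqN core)

namespace Pool.Agent.NHB

/-- `ℤˣ` is the group of order two -/
def uz : ℤˣ →* Multiplicative (ZMod 2) :=
  MonoidHom.mk' (fun u => if u = 1 then 1 else Multiplicative.ofAdd 1) (by decide)

theorem uz_inj : Function.Injective uz := by
  unfold uz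
  decide

section
variable {N : Type*} [TopologicalSpace N] [ChartedSpace E3 N]

theorem path_connected [ConnectedSpace N] : PathConnectedSpace N := by
  have : LocallyPathConnectedSpace N := ChartedSpace.locallyPathConnectedSpace E3 N
  exact pathConnectedSpace_iff_connectedSpace.mpr inferInstance

/-- orientability from the hypothesis on the homomorphisms to the group of order two -/
theorem exists_orn_two [IsManifold (𝓡 3) ∞ N] [ConnectedSpace N] {κ : ℝ × ℂ → N} (hκ : Thick κ)
    (h : ∀ f : FundamentalGroup N (κ (0, 0)) →* Multiplicative (ZMod 2),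
      f (FundamentalGroup.fromPath (Path.Homotopic.Quotient.mk (coreLoop hκ))) = 1 → f = 1) :
    ∃ o : (E → N) → E → ℝ, Orn o := by
  have : PathConnectedSpace N := path_connected
  refine exists_orn hκ fun g hg => ?_
  have h1 := h (uz.comp g) (by
    rw [MonoidHom.comp_apply, hg, map_one])
  ext γ
  have h2 := congrArg (fun f => f γ) h1
  have h3 : uz (g γ) = uz 1 := by
    rw [map_one]; exact h2
  rw [uz_inj h3]; rfl

/-- the bridge for two thick knots, up to a change of `j`, from the hypothesis on the homomorphisms to the group of order two -/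
theorem bridge_full [T2Space N] [IsManifold (𝓡 3) ∞ N] [ConnectedSpace N] {κ κ' : ℝ × ℂ → N} (hκ : Thick κ) (hκ' : Thick κ')
    (h : ∀ f : FundamentalGroup N (κ (0, 0)) →* Multiplicative (ZMod 2),
      f (FundamentalGroup.fromPath (Path.Homotopic.Quotient.mk (coreLoop hκ))) = 1 → f = 1)
    (hL : LEqN (core κ) (core κ')) {X : Type*} [TopologicalSpace X] [ChartedSpace E4 X]
    [T2Space X] {n j : ℤ} (hX : IsRollGluck κ n j X) : ∃ j' : ℤ, IsRollGluck κ' n j' X :=
  bridge_two (exists_orn_two hκ h) hκ hκ' hL hX

end

end Pool.Agent.NHB
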