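import Pool.Agent.NHP.Defs
import Pool.Agent.COR.Defs
import Pool.Agent.KNH.Defs
import Pool.Agent.RBN.Defs

/-!
# NHB/Defs: the 4-dimensional bridge over a 3-manifold `N`, definitions

`P = N × Circle`, `rot t (x, z) = (x, z circ t)`.
* `Orn o`: `o Φ q = ±1` is an orientation of `N`, evaluated on the local parametrisation `Φ` at `q`.  `OrP J`: the same in dimension 4.
* `Same κ κ'`: the thick tori `κ`, `κ'` carry the same 4-manifolds, for all `n, j`.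
* `IsC κ₀ K`: the closed knot `K ⊆ N` is the core of an equivariant thick torus of `N × Circle` which carries the same 4-manifolds
  as `κ₀`.
* `Emb β`: open embedding of `E = ℂ × ℝ`.  `bx b (z, u) = b (Rr z, hr u)`.  `Fam β Y`: family of charts, fixed for `1/8 ≤ |u|`, off `Y`.
-/

open scoped Manifold ContDiff Topology
open Set Filter
open Complex (I)
open Pool.Agent.CSG (stp)
open Pool.Agent.RSG (E3 E4 S4 ex cj Thick OnKnot IsRollGluck)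
open Pool.Agent.RBM (ThickT TwinP OnT Box Bundle frc)
open Pool.Agent.COR (Equi EquiB TwoStrands half)
open Pool.Agent.KNT (Dom Str Str2)
open Pool.Agent.KNH (Rr hr Ss Ss2)
open Pool.Agent.RBN (IN circ prd pb)
open Pool.Agent.NHP (E Cht Push TubesN LEqN core)

namespace Pool.Agent.NHB

universe u v

section
variable {N : Type*} [TopologicalSpace N] [ChartedSpace E3 N]

/-- rotation of the circle factor -/
noncomputable def rot {N : Type*} (t : ℝ) (p : N × Circle) : N × Circle := (p.1, p.2 * circ t)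

/-- an orientation of `N`: the sign `o Φ q` of the local parametrisation `Φ` at the point `q` -/
structure Orn (o : (E → N) → E → ℝ) : Prop where
  val : ∀ Φ q, IsLocalDiffeomorphAt 𝓘(ℝ, ℂ × ℝ) (𝓡 3) ∞ Φ q → o Φ q = 1 ∨ o Φ q = -1
  cst : ∀ Φ q, IsLocalDiffeomorphAt 𝓘(ℝ, ℂ × ℝ) (𝓡 3) ∞ Φ q → ∀ᶠ q' in 𝓝 q, o Φ q' = o Φ q
  cmp : ∀ (Φ Ψ : E → N) (g : E → E) (q : E), IsLocalDiffeomorphAt 𝓘(ℝ, ℂ × ℝ) (𝓡 3) ∞ Φ (g q) →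
    IsLocalDiffeomorphAt 𝓘(ℝ, ℂ × ℝ) 𝓘(ℝ, ℂ × ℝ) ∞ g q → Ψ =ᶠ[𝓝 q] Φ ∘ g →
      0 < o Ψ q * o Φ (g q) * LinearMap.det ((fderiv ℝ g q : E →L[ℝ] E) : E →ₗ[ℝ] E)

/-- open embeddings of `ℂ × ℝ` in `N` -/
structure Emb (β : E → N) : Prop where
  loc : ∀ q, IsLocalDiffeomorphAt 𝓘(ℝ, ℂ × ℝ) (𝓡 3) ∞ β q
  inj : Function.Injective β

/-- chart of the whole space in the ball chart `b` -/
noncomputable def bx {N : Type*} (b : E → N) (q : E) : N := b (Rr q.1, hr q.2)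

/-- contraction in the middle (`|u| ≤ 1/8`), the identity for `1/4 ≤ |u|` -/
noncomputable def thn (w₀ : ℝ) (q : ℂ × ℝ) : ℂ × ℝ := ((RBN.wf w₀ (2 * q.2) : ℂ) * q.1, q.2)

/-- the family in the coordinates of `RBN.TubeHom` -/
noncomputable def bb {N : Type*} (β : ℝ → E → N) (σ : ℝ) (x : ℝ) (q : E) : N := β x (cj σ q.1, q.2 / 2)

/-- a family of charts -/
structure Fam (β : ℝ → E → N) (Y : Set N) : Prop where
  smooth : ∀ l ∈ Icc (0 : ℝ) 1, ∀ q,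
    ContMDiffAt 𝓘(ℝ, ℝ × (ℂ × ℝ)) (𝓡 3) ∞ (fun p : ℝ × (ℂ × ℝ) => β p.1 p.2) (l, q)
  loc : ∀ l ∈ Icc (0 : ℝ) 1, ∀ q, IsLocalDiffeomorphAt 𝓘(ℝ, ℂ × ℝ) (𝓡 3) ∞ (β l) q
  ends : ∀ l ∈ Icc (0 : ℝ) 1, ∀ q, 1 / 8 ≤ |q.2| → β l q = β 0 q
  inj0 : Function.Injective (β 0)
  inj1 : Function.Injective (β 1)
  sep : ∀ l ∈ Icc (0 : ℝ) 1, ∀ q q', |q.2| ≤ 1 / 8 → 1 / 4 ≤ |q'.2| → β l q ≠ β 0 q'
  dis : ∀ l ∈ Icc (0 : ℝ) 1, ∀ q, β l q ∉ Y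

/-- the closed moving part -/
def Mvp {N : Type*} (β : ℝ → E → N) : Set N :=
  {p | ∃ x ∈ Icc (0 : ℝ) 1, ∃ q : E, ‖q.1‖ ≤ 4 ∧ |q.2| ≤ 3 / 16 ∧ p = β x q}

end

section
variable {EP : Type*} [NormedAddCommGroup EP] [NormedSpace ℝ EP] {HP : Type*} [TopologicalSpace HP]
  (IP : ModelWithCorners ℝ EP HP) {P : Type*} [TopologicalSpace P] [ChartedSpace HP P]

/-- orientation of a 4-manifold, evaluated on local parametrisations -/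
structure OrP (J : (ℝ × ℂ × ℝ → P) → ℝ × ℂ × ℝ → ℝ) : Prop where
  val : ∀ Φ q, IsLocalDiffeomorphAt 𝓘(ℝ, ℝ × ℂ × ℝ) IP ∞ Φ q → J Φ q = 1 ∨ J Φ q = -1
  cst : ∀ Φ q, IsLocalDiffeomorphAt 𝓘(ℝ, ℝ × ℂ × ℝ) IP ∞ Φ q → ∀ᶠ q' in 𝓝 q, J Φ q' = J Φ q
  cmp : ∀ (Φ Ψ : ℝ × ℂ × ℝ → P) (g : ℝ × ℂ × ℝ → ℝ × ℂ × ℝ) (q : ℝ × ℂ × ℝ),
    IsLocalDiffeomorphAt 𝓘(ℝ, ℝ × ℂ × ℝ) IP ∞ Φ (g q) →
    IsLocalDiffeomorphAt 𝓘(ℝ, ℝ × ℂ × ℝ) 𝓘(ℝ, ℝ × ℂ × ℝ) ∞ g q → Ψ =ᶠ[𝓝 q] Φ ∘ g →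
      0 < J Ψ q * J Φ (g q) * LinearMap.det ((fderiv ℝ g q : (ℝ × ℂ × ℝ) →L[ℝ] (ℝ × ℂ × ℝ)) :
        (ℝ × ℂ × ℝ) →ₗ[ℝ] (ℝ × ℂ × ℝ))

/-- the thick tori carry the same 4-manifolds -/
def Same (κ κ' : ℝ × ℂ × ℝ → P) : Prop :=
  ∀ (X : Type v) [TopologicalSpace X] [ChartedSpace E4 X] [T2Space X] (n j : ℤ),
    Nonempty (TwinP IP κ n j X) ↔ Nonempty (TwinP IP κ' n j X)

variable {IP}

theorem Same.rfl' (κ : ℝ × ℂ × ℝ → P) : Same.{v} IP κ κ := fun _ _ _ _ _ _ => Iff.rfl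

theorem Same.symm {κ κ' : ℝ × ℂ × ℝ → P} (h : Same.{v} IP κ κ') : Same.{v} IP κ' κ :=
  fun X _ _ _ n j => (h X n j).symm

theorem Same.trans {κ κ' κ'' : ℝ × ℂ × ℝ → P} (h : Same.{v} IP κ κ') (h' : Same.{v} IP κ' κ'') :
    Same.{v} IP κ κ'' := fun X _ _ _ n j => (h X n j).trans (h' X n j)

end

section
variable {N : Type*} [TopologicalSpace N] [ChartedSpace E3 N]

/-- the curve `c` is the core of an equivariant thick torus which carries the same manifolds as `κ₀` -/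
def CarC (κ₀ : ℝ × ℂ × ℝ → N × Circle) (K : ℝ → N × Circle) : Prop :=
  ∃ κ : ℝ × ℂ × ℝ → N × Circle, ThickT IN κ ∧ Equi rot κ ∧ (∀ l, κ (l, 0, 0) = K l) ∧ Same.{v} IN κ₀ κ

/-- the same for the image of the curve -/
def IsC (κ₀ : ℝ × ℂ × ℝ → N × Circle) (K : Set N) : Prop :=
  ∃ c : ℝ → N, range c = K ∧ CarC.{v} κ₀ fun l => (c l, 1)

end

end Pool.Agent.NHB
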