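import Pool.Agent.COR.Coh
import Pool.Agent.NHB.Defs

/-!
# NHB/Coh: the two strands in a box have coherent orientations, in an oriented 4-manifold `P`

The proof of COR/Coh with an orientation `J` of `P` (`OrP`) instead of `COR.sp_orient`.
-/

open scoped Manifold ContDiff Topology
open Set Filter
open Complex (I)
open Pool.Agent.RSG (E4 S3 cj)
open Pool.Agent.RBM (ThickT TwinP OnT Box)
open Pool.Agent.COR

namespace Pool.Agent.NHB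

section
variable {EP : Type*} [NormedAddCommGroup EP] [NormedSpace ℝ EP] {HP : Type*} [TopologicalSpace HP]
  {IP : ModelWithCorners ℝ EP HP} {P : Type*} [TopologicalSpace P] [ChartedSpace HP P]

theorem OrP.cont {J : (ℝ × ℂ × ℝ → P) → ℝ × ℂ × ℝ → ℝ} (hJ : OrP IP J) {Φ : ℝ × ℂ × ℝ → P} {q : ℝ × ℂ × ℝ}
    (h : IsLocalDiffeomorphAt 𝓘(ℝ, ℝ × ℂ × ℝ) IP ∞ Φ q) : ContinuousAt (J Φ) q ∧ J Φ q ≠ 0 := by
  refine ⟨?_, ?_⟩
  · exact (continuousAt_const (y := J Φ q)).congr ((hJ.cst Φ q h).mono fun y hy => hy.symm)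
  · rcases hJ.val Φ q h with h1 | h1 <;> rw [h1] <;> norm_num

theorem posAt_of {J : (ℝ × ℂ × ℝ → P) → ℝ × ℂ × ℝ → ℝ} (hJ : OrP IP J)
    {a : ℝ → P → P} (ha : PTH.Act IP a) {κ B : ℝ × ℂ × ℝ → P}
    (hκ : ThickT IP κ) (heq : Equi a κ) (heqB : Equi a B) {c : ℝ}
    (hBl : IsLocalDiffeomorphAt 𝓘(ℝ, ℝ × ℂ × ℝ) IP ∞ B (c, 0, 0))
    (hc : ∀ᶠ l in 𝓝 c, κ (l, 0, 0) = B (l, 0, 0))
    (hpos : 0 < J κ (c, 0, 0) * J B (c, 0, 0)) : PosAt κ B c := by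
  have hn : (∞ : WithTop ℕ∞) ≠ 0 := by simp
  -- an open interval
  have hev : ∀ᶠ l in 𝓝 c, IsLocalDiffeomorphAt 𝓘(ℝ, ℝ × ℂ × ℝ) IP ∞ B (l, 0, 0) := by
    have hcc : ContinuousAt (fun l : ℝ => ((l, 0, 0) : ℝ × ℂ × ℝ)) c := by fun_prop
    exact hcc.eventually (CSG.ld_eventually hBl)
  obtain ⟨U, hUsub, hU, hcU⟩ := mem_nhds_iff.1 (hev.and hc)
  obtain ⟨g, hg, hg1, hg2⟩ := Lft_local ha hκ heq heqB hU (fun l hl => (hUsub hl).1)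
    (fun l hl => (hUsub hl).2.symm) one_pos le_rfl hcU
  have hgs : ContDiffAt ℝ ∞ g (c, 0, 0) := contMDiffAt_iff_contDiffAt.1 hg.contMDiffAt
  have hgc : g (c, 0, 0) = (c, 0, 0) := hg1.self_of_nhds
  set lam : ℝ × ℂ → ℝ := fun q => (g (q.1, q.2, 0)).1 with hlam
  set om : ℝ × ℂ → ℂ := fun q => (g (q.1, q.2, 0)).2.1 with hom
  set tau : ℝ × ℂ → ℝ := fun q => (g (q.1, q.2, 0)).2.2 with htau
  have hG : ContDiffAt ℝ ∞ (fun q : ℝ × ℂ => g (q.1, q.2, 0)) (c, 0) := by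
    have h5 : ContDiffAt ℝ ∞ (fun q : ℝ × ℂ => ((q.1, q.2, 0) : ℝ × ℂ × ℝ)) (c, 0) := by fun_prop
    exact ContDiffAt.comp (c, (0 : ℂ)) (g := g) (f := fun q : ℝ × ℂ => ((q.1, q.2, 0) : ℝ × ℂ × ℝ)) hgs h5
  have hls : ContDiffAt ℝ ∞ lam (c, 0) := hG.fst
  have hos : ContDiffAt ℝ ∞ om (c, 0) := hG.snd.fst
  have hts : ContDiffAt ℝ ∞ tau (c, 0) := hG.snd.snd
  have hl0 : lam (c, 0) = c := by
    show (g (c, 0, 0)).1 = c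
    rw [hgc]
  have ho0 : om (c, 0) = 0 := by
    show (g (c, 0, 0)).2.1 = 0
    rw [hgc]
  have ht0 : tau (c, 0) = 0 := by
    show (g (c, 0, 0)).2.2 = 0
    rw [hgc]
  have hrep : ∀ᶠ q : ℝ × ℂ in 𝓝 (c, 0), ∀ t, B (q.1, q.2, t) = κ (lam q, om q, t + tau q) := by
    filter_upwards [hg2] with q hq t
    obtain ⟨-, -, -, h6⟩ := hq
    rw [heqB q.1 q.2 t, ← h6, heq _ _ (t + _), ha.add]
    congr 1
    exact heq (lam q) (om q) (tau q)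
  refine ⟨lam, om, tau, hls, hos, hts, hl0, ho0, ht0, hrep, ?_⟩
  -- the extended map
  set gt : ℝ × ℂ × ℝ → ℝ × ℂ × ℝ := fun q => (lam (q.1, q.2.1), om (q.1, q.2.1), q.2.2 + tau (q.1, q.2.1)) with hgt
  have hgt0 : gt (c, 0, 0) = (c, 0, 0) := by
    show (lam (c, 0), om (c, 0), 0 + tau (c, 0)) = ((c, 0, 0) : ℝ × ℂ × ℝ)
    rw [hl0, ho0, ht0, add_zero]
  have hj : HasFDerivAt (fun q : ℝ × ℂ × ℝ => ((q.1, q.2.1) : ℝ × ℂ))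
      ((ContinuousLinearMap.fst ℝ ℝ (ℂ × ℝ)).prod
        ((ContinuousLinearMap.fst ℝ ℂ ℝ).comp (ContinuousLinearMap.snd ℝ ℝ (ℂ × ℝ)))) (c, 0, 0) :=
    hasFDerivAt_fst.prodMk (hasFDerivAt_fst.comp _ hasFDerivAt_snd)
  have hjs : ContDiffAt ℝ ∞ (fun q : ℝ × ℂ × ℝ => ((q.1, q.2.1) : ℝ × ℂ)) (c, 0, 0) := by fun_prop
  have hgts : ContDiffAt ℝ ∞ gt (c, 0, 0) := by
    have e1 : ContDiffAt ℝ ∞ (fun q : ℝ × ℂ × ℝ => lam (q.1, q.2.1)) (c, 0, 0) :=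
      ContDiffAt.comp (c, (0 : ℂ), (0 : ℝ)) (g := lam) (f := fun q : ℝ × ℂ × ℝ => ((q.1, q.2.1) : ℝ × ℂ)) hls hjs
    have e2 : ContDiffAt ℝ ∞ (fun q : ℝ × ℂ × ℝ => om (q.1, q.2.1)) (c, 0, 0) :=
      ContDiffAt.comp (c, (0 : ℂ), (0 : ℝ)) (g := om) (f := fun q : ℝ × ℂ × ℝ => ((q.1, q.2.1) : ℝ × ℂ)) hos hjs
    have e3 : ContDiffAt ℝ ∞ (fun q : ℝ × ℂ × ℝ => tau (q.1, q.2.1)) (c, 0, 0) :=
      ContDiffAt.comp (c, (0 : ℂ), (0 : ℝ)) (g := tau) (f := fun q : ℝ × ℂ × ℝ => ((q.1, q.2.1) : ℝ × ℂ)) hts hjs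
    have e4 : ContDiffAt ℝ ∞ (fun q : ℝ × ℂ × ℝ => q.2.2) (c, 0, 0) := by fun_prop
    exact e1.prodMk (e2.prodMk (e4.add e3))
  have hBg : B =ᶠ[𝓝 (c, 0, 0)] κ ∘ gt := by
    have h7 : ContinuousAt (fun q : ℝ × ℂ × ℝ => ((q.1, q.2.1) : ℝ × ℂ)) (c, 0, 0) := by fun_prop
    filter_upwards [h7.eventually hrep] with q hq
    exact hq q.2.2
  have hκl : IsLocalDiffeomorphAt 𝓘(ℝ, ℝ × ℂ × ℝ) IP ∞ κ (gt (c, 0, 0)) := by
    rw [hgt0]; exact hκ.loc _ _ _ (by simp)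
  have hgtl : IsLocalDiffeomorphAt 𝓘(ℝ, ℝ × ℂ × ℝ) 𝓘(ℝ, ℝ × ℂ × ℝ) ∞ gt (c, 0, 0) :=
    CSG.ld_of_comp_right (CSG.ld_congr hBl hBg.symm) hκl hgts.continuousAt
  have hdet := hJ.cmp κ B gt (c, 0, 0) hκl hgtl hBg
  rw [hgt0] at hdet
  have hdpos : 0 < LinearMap.det ((fderiv ℝ gt (c, 0, 0) : (ℝ × ℂ × ℝ) →L[ℝ] (ℝ × ℂ × ℝ)) :
        (ℝ × ℂ × ℝ) →ₗ[ℝ] (ℝ × ℂ × ℝ)) := by
    rw [mul_comm (J B (c, 0, 0))] at hdet
    exact (mul_pos_iff_of_pos_left hpos).1 hdet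
  -- the derivative
  set Dl := fderiv ℝ lam (c, 0) with hDl
  set Do := fderiv ℝ om (c, 0) with hDo
  set Dt := fderiv ℝ tau (c, 0) with hDt
  have hl' : HasFDerivAt lam Dl (c, 0) := (hls.differentiableAt hn).hasFDerivAt
  have ho' : HasFDerivAt om Do (c, 0) := (hos.differentiableAt hn).hasFDerivAt
  have ht' : HasFDerivAt tau Dt (c, 0) := (hts.differentiableAt hn).hasFDerivAt
  have hcore : Dl (1, 0) = 1 ∧ Do (1, 0) = 0 ∧ Dt (1, 0) = 0 := by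
    have hi : HasFDerivAt (fun l : ℝ => ((l, 0) : ℝ × ℂ)) (ContinuousLinearMap.inl ℝ ℝ ℂ) c :=
      hasFDerivAt_prodMk_left c 0
    have hev : ∀ᶠ l in 𝓝 c, g (l, 0, 0) = (l, 0, 0) := by
      have h7 : ContinuousAt (fun l : ℝ => ((l, 0) : ℝ × ℝ)) c := by fun_prop
      exact h7.eventually hg1
    have k1 : HasFDerivAt (fun l : ℝ => lam (l, 0)) (Dl.comp (ContinuousLinearMap.inl ℝ ℝ ℂ)) c :=
      HasFDerivAt.comp c (g := lam) (f := fun l : ℝ => ((l, 0) : ℝ × ℂ)) hl' hi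
    have k2 : HasFDerivAt (fun l : ℝ => om (l, 0)) (Do.comp (ContinuousLinearMap.inl ℝ ℝ ℂ)) c :=
      HasFDerivAt.comp c (g := om) (f := fun l : ℝ => ((l, 0) : ℝ × ℂ)) ho' hi
    have k3 : HasFDerivAt (fun l : ℝ => tau (l, 0)) (Dt.comp (ContinuousLinearMap.inl ℝ ℝ ℂ)) c :=
      HasFDerivAt.comp c (g := tau) (f := fun l : ℝ => ((l, 0) : ℝ × ℂ)) ht' hi
    have m1 : HasFDerivAt (fun l : ℝ => lam (l, 0)) (ContinuousLinearMap.id ℝ ℝ) c := by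
      refine (hasFDerivAt_id c).congr_of_eventuallyEq ?_
      filter_upwards [hev] with l hl
      show (g (l, 0, 0)).1 = l
      rw [hl]
    have m2 : HasFDerivAt (fun l : ℝ => om (l, 0)) (0 : ℝ →L[ℝ] ℂ) c := by
      refine (hasFDerivAt_const (0 : ℂ) c).congr_of_eventuallyEq ?_
      filter_upwards [hev] with l hl
      show (g (l, 0, 0)).2.1 = 0
      rw [hl]
    have m3 : HasFDerivAt (fun l : ℝ => tau (l, 0)) (0 : ℝ →L[ℝ] ℝ) c := by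
      refine (hasFDerivAt_const (0 : ℝ) c).congr_of_eventuallyEq ?_
      filter_upwards [hev] with l hl
      show (g (l, 0, 0)).2.2 = 0
      rw [hl]
    refine ⟨?_, ?_, ?_⟩
    · have := congrArg (fun L : ℝ →L[ℝ] ℝ => L 1) (k1.unique m1)
      simpa using this
    · have := congrArg (fun L : ℝ →L[ℝ] ℂ => L 1) (k2.unique m2)
      simpa using this
    · have := congrArg (fun L : ℝ →L[ℝ] ℝ => L 1) (k3.unique m3)
      simpa using this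
  have hgtd : HasFDerivAt gt ((Dl.comp ((ContinuousLinearMap.fst ℝ ℝ (ℂ × ℝ)).prod
        ((ContinuousLinearMap.fst ℝ ℂ ℝ).comp (ContinuousLinearMap.snd ℝ ℝ (ℂ × ℝ))))).prod
      ((Do.comp ((ContinuousLinearMap.fst ℝ ℝ (ℂ × ℝ)).prod
        ((ContinuousLinearMap.fst ℝ ℂ ℝ).comp (ContinuousLinearMap.snd ℝ ℝ (ℂ × ℝ))))).prod
      (((ContinuousLinearMap.snd ℝ ℂ ℝ).comp (ContinuousLinearMap.snd ℝ ℝ (ℂ × ℝ))) +
        (Dt.comp ((ContinuousLinearMap.fst ℝ ℝ (ℂ × ℝ)).prod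
        ((ContinuousLinearMap.fst ℝ ℂ ℝ).comp (ContinuousLinearMap.snd ℝ ℝ (ℂ × ℝ)))))))) (c, 0, 0) := by
    have e1 := HasFDerivAt.comp ((c, 0, 0) : ℝ × ℂ × ℝ) (g := lam)
      (f := fun q : ℝ × ℂ × ℝ => ((q.1, q.2.1) : ℝ × ℂ)) hl' hj
    have e2 := HasFDerivAt.comp ((c, 0, 0) : ℝ × ℂ × ℝ) (g := om)
      (f := fun q : ℝ × ℂ × ℝ => ((q.1, q.2.1) : ℝ × ℂ)) ho' hj
    have e3 := HasFDerivAt.comp ((c, 0, 0) : ℝ × ℂ × ℝ) (g := tau)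
      (f := fun q : ℝ × ℂ × ℝ => ((q.1, q.2.1) : ℝ × ℂ)) ht' hj
    have e4 : HasFDerivAt (fun q : ℝ × ℂ × ℝ => q.2.2)
      ((ContinuousLinearMap.snd ℝ ℂ ℝ).comp (ContinuousLinearMap.snd ℝ ℝ (ℂ × ℝ))) (c, 0, 0) :=
      hasFDerivAt_snd.comp _ hasFDerivAt_snd
    exact e1.prodMk (e2.prodMk (e4.add e3))
  rw [hgtd.fderiv] at hdpos
  have hdv : dv om c = Do.comp (ContinuousLinearMap.inr ℝ ℝ ℂ) := by
    unfold dv
    have hi : HasFDerivAt (fun v : ℂ => ((c, v) : ℝ × ℂ)) (ContinuousLinearMap.inr ℝ ℝ ℂ) 0 :=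
      hasFDerivAt_prodMk_right c 0
    exact (HasFDerivAt.comp (0 : ℂ) (g := om) (f := fun v : ℂ => ((c, v) : ℝ × ℂ)) ho' hi).fderiv
  rw [hdv]
  refine Coh_det (α := Dl.comp (ContinuousLinearMap.inr ℝ ℝ ℂ)) (β := Dt.comp (ContinuousLinearMap.inr ℝ ℝ ℂ)) ?_ hdpos
  intro x w t
  have split : ((x, w) : ℝ × ℂ) = x • (1, 0) + (0, w) := by ext <;> simp
  have s1 : Dl (x, w) = x + Dl (0, w) := by
    rw [split, map_add, map_smul, hcore.1]; simp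
  have s2 : Do (x, w) = Do (0, w) := by
    rw [split, map_add, map_smul, hcore.2.1]; simp
  have s3 : Dt (x, w) = Dt (0, w) := by
    rw [split, map_add, map_smul, hcore.2.2]; simp
  show (Dl (x, w), Do (x, w), t + Dt (x, w)) = (x + Dl (0, w), Do (0, w), t + Dt (0, w))
  rw [s1, s2, s3]

theorem strand_of {J : (ℝ × ℂ × ℝ → P) → ℝ × ℂ × ℝ → ℝ} (hJ : OrP IP J)
    {b : ℂ × ℝ × ℝ → P} {σ ε δ w c : ℝ} (hσ : σ = 1 ∨ σ = -1) (hε : ε = 1 ∨ ε = -1)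
    (hw : 0 < w)
    (hbt : IsLocalDiffeomorphAt 𝓘(ℝ, ℝ × ℂ × ℝ) IP ∞ (fun q : ℝ × ℂ × ℝ => b (q.2.1, q.1, q.2.2)) (0, (δ : ℂ), 0)) :
    IsLocalDiffeomorphAt 𝓘(ℝ, ℝ × ℂ × ℝ) IP ∞ (strand (refl σ b) ε δ w c) (c, 0, 0) ∧
    0 < J (strand (refl σ b) ε δ w c) (c, 0, 0) *
      (σ * J (fun q : ℝ × ℂ × ℝ => b (q.2.1, q.1, q.2.2)) (0, (δ : ℂ), 0)) := by
  set g : ℝ × ℂ × ℝ → ℝ × ℂ × ℝ := fun q => CohL (ε * w) (σ * ε) (q - (c, 0, 0)) + (0, (δ : ℂ), 0) with hg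
  have hBg : strand (refl σ b) ε δ w c = (fun q : ℝ × ℂ × ℝ => b (q.2.1, q.1, q.2.2)) ∘ g := by
    funext q
    obtain ⟨l, v, t⟩ := q
    have e : g (l, v, t) = (ε * (w * (l - c)), cj σ (δ + cj ε v / 2), t) := by
      show CohL (ε * w) (σ * ε) ((l, v, t) - (c, 0, 0)) + (0, (δ : ℂ), 0) = _
      rw [CohL_apply, Coh_cj]
      refine Prod.ext ?_ (Prod.ext ?_ ?_)
      · simp; ring
      · simp; ring
      · simp
    show b (cj σ (δ + cj ε v / 2), ε * (w * (l - c)), t) = b ((g (l, v, t)).2.1, (g (l, v, t)).1, (g (l, v, t)).2.2)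
    rw [e]
  have hg0 : g (c, 0, 0) = (0, (δ : ℂ), 0) := by
    show CohL (ε * w) (σ * ε) ((c, 0, 0) - (c, 0, 0)) + (0, (δ : ℂ), 0) = _
    rw [sub_self, map_zero, zero_add]
  have hgd : ∀ q, HasFDerivAt g (CohL (ε * w) (σ * ε)) q := by
    intro q
    have h1 : HasFDerivAt (fun q : ℝ × ℂ × ℝ => q - (c, 0, 0)) (ContinuousLinearMap.id ℝ _) q :=
      (hasFDerivAt_id q).sub_const _
    have h2 := (CohL (ε * w) (σ * ε)).hasFDerivAt.comp q h1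
    rw [ContinuousLinearMap.comp_id] at h2
    exact h2.add_const _
  have hgs : ContDiff ℝ ∞ g :=
    ((CohL (ε * w) (σ * ε)).contDiff.comp (contDiff_id.sub contDiff_const)).add contDiff_const
  have hτ : σ * ε = 1 ∨ σ * ε = -1 := by
    rcases hσ with rfl | rfl <;> rcases hε with rfl | rfl <;> norm_num
  have hεw : ε * w ≠ 0 := by
    rcases hε with rfl | rfl
    · simpa using hw.ne'
    · simpa using hw.ne'
  have hgl : IsLocalDiffeomorphAt 𝓘(ℝ, ℝ × ℂ × ℝ) 𝓘(ℝ, ℝ × ℂ × ℝ) ∞ g (c, 0, 0) := by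
    refine CSG.ld_of_fderiv (Eventually.of_forall fun y => hgs.contDiffAt) rfl ?_
    rintro ⟨x, v, t⟩ hv
    rw [(hgd _).fderiv, CohL_apply] at hv
    have k1 : ε * w * x = 0 := congrArg Prod.fst hv
    have k2 : cj (σ * ε) v / 2 = 0 := congrArg (fun p : ℝ × ℂ × ℝ => p.2.1) hv
    have k3 : t = 0 := congrArg (fun p : ℝ × ℂ × ℝ => p.2.2) hv
    have k4 : x = 0 := by
      rcases mul_eq_zero.1 k1 with h | h
      · exact absurd h hεw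
      · exact h
    have k5 : v = 0 := by
      rw [← norm_eq_zero, ← RSG.cj_norm hτ v, norm_eq_zero]
      simpa using k2
    rw [k3, k4, k5]; rfl
  constructor
  · rw [hBg]
    refine IsLocalDiffeomorphAt.comp (hf := hgl) (hg := ?_) ..
    rw [hg0]
    exact hbt
  · have h1 := hJ.cmp (fun q : ℝ × ℂ × ℝ => b (q.2.1, q.1, q.2.2)) (strand (refl σ b) ε δ w c) g (c, 0, 0)
      (by rw [hg0]; exact hbt) hgl (by rw [hBg])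
    rw [(hgd _).fderiv, CohL_det, hg0] at h1
    have h2 : ε * ε = 1 := by rcases hε with rfl | rfl <;> norm_num
    have h3 : ∀ x y : ℝ, x * y * (ε * w * (σ * ε / 4)) = (x * (σ * y)) * (w / 4) := by
      intro x y
      linear_combination (x * y * w * σ / 4) * h2
    rw [h3] at h1
    exact (mul_pos_iff_of_pos_right (by positivity)).1 h1

theorem coherent {J : (ℝ × ℂ × ℝ → P) → ℝ × ℂ × ℝ → ℝ} (hJ : OrP IP J) {a : ℝ → P → P} (ha : PTH.Act IP a) {κ : ℝ × ℂ × ℝ → P}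
    (hκ : ThickT IP κ) (heq : Equi a κ) {b : ℂ × ℝ × ℝ → P} (hb : Box IP b 5)
    (heqb : EquiB a b) {ε₁ ε₂ w c₁ c₂ : ℝ} (h1 : ε₁ = 1 ∨ ε₁ = -1) (h2 : ε₂ = 1 ∨ ε₂ = -1) (hw : 0 < w)
    (hc₁ : ∀ᶠ l in 𝓝 c₁, κ (l, 0, 0) = strand b ε₁ 1 w c₁ (l, 0, 0))
    (hc₂ : ∀ᶠ l in 𝓝 c₂, κ (l, 0, 0) = strand b ε₂ (-1) w c₂ (l, 0, 0)) :
    ∃ σ : ℝ, (σ = 1 ∨ σ = -1) ∧ PosAt κ (strand (refl σ b) ε₁ 1 w c₁) c₁ ∧
      PosAt κ (strand (refl σ b) ε₂ (-1) w c₂) c₂ := by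
  set bt : ℝ × ℂ × ℝ → P := fun q => b (q.2.1, q.1, q.2.2) with hbt
  -- `bt` is a local diffeomorphism
  have hbtl : ∀ x : ℝ, |x| < 5 → IsLocalDiffeomorphAt 𝓘(ℝ, ℝ × ℂ × ℝ) IP ∞ bt (0, (x : ℂ), 0) := by
    intro x hx
    let sw : (ℝ × ℂ × ℝ) ≃ (ℂ × ℝ × ℝ) :=
      ⟨fun q => (q.2.1, q.1, q.2.2), fun q => (q.2.1, q.1, q.2.2), fun q => rfl, fun q => rfl⟩
    have hs1 : ContDiff ℝ ∞ sw := by
      show ContDiff ℝ ∞ fun q : ℝ × ℂ × ℝ => ((q.2.1, q.1, q.2.2) : ℂ × ℝ × ℝ)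
      fun_prop
    have hs2 : ContDiff ℝ ∞ sw.symm := by
      show ContDiff ℝ ∞ fun q : ℂ × ℝ × ℝ => ((q.2.1, q.1, q.2.2) : ℝ × ℂ × ℝ)
      fun_prop
    have hsl := CSG.ld_of_perm hs1 hs2 (0, (x : ℂ), 0)
    have hbl : IsLocalDiffeomorphAt 𝓘(ℝ, ℂ × ℝ × ℝ) IP ∞ b (sw (0, (x : ℂ), 0)) :=
      hb.loc (x : ℂ) 0 0 (by simpa using hx) (by simp)
    exact IsLocalDiffeomorphAt.comp (hf := hsl) (hg := hbl) ..
  have hκc : 0 < J κ (c₁, 0, 0) * J κ (c₂, 0, 0) := by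
    have h3 : ∀ l : ℝ, ContinuousAt (fun l : ℝ => J κ (l, 0, 0)) l ∧ J κ (l, 0, 0) ≠ 0 := by
      intro l
      obtain ⟨h4, h5⟩ := hJ.cont (Φ := κ) (q := (l, 0, 0)) (hκ.loc _ _ _ (by simp))
      refine ⟨?_, h5⟩
      have h6 : ContinuousAt (fun l : ℝ => ((l, 0, 0) : ℝ × ℂ × ℝ)) l := by fun_prop
      exact ContinuousAt.comp (g := J κ) (f := fun l : ℝ => ((l, 0, 0) : ℝ × ℂ × ℝ)) h4 h6
    exact Coh_sign (f := fun l : ℝ => J κ (l, 0, 0)) (fun x _ => (h3 x).1.continuousWithinAt) (fun x _ => (h3 x).2)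
  have hbc : 0 < J bt (0, ((1 : ℝ) : ℂ), 0) * J bt (0, ((-1 : ℝ) : ℂ), 0) := by
    have h3 : ∀ x : ℝ, |x| < 5 → ContinuousAt (fun x : ℝ => J bt (0, (x : ℂ), 0)) x ∧ J bt (0, (x : ℂ), 0) ≠ 0 := by
      intro x hx
      obtain ⟨h4, h5⟩ := hJ.cont (Φ := bt) (q := (0, (x : ℂ), 0)) (hbtl x hx)
      refine ⟨?_, h5⟩
      have h6 : ContinuousAt (fun x : ℝ => ((0, (x : ℂ), 0) : ℝ × ℂ × ℝ)) x := by fun_prop
      exact ContinuousAt.comp (g := J bt) (f := fun x : ℝ => ((0, (x : ℂ), 0) : ℝ × ℂ × ℝ)) h4 h6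
    have h4 : ∀ x ∈ uIcc (1 : ℝ) (-1), |x| < 5 := by
      intro x hx
      rw [uIcc_of_ge (by norm_num)] at hx
      rw [abs_lt]
      constructor <;> linarith [hx.1, hx.2]
    exact Coh_sign (f := fun x : ℝ => J bt (0, (x : ℂ), 0))
      (fun x hx => (h3 x (h4 x hx)).1.continuousWithinAt) (fun x hx => (h3 x (h4 x hx)).2)
  have hσ : ∃ σ : ℝ, (σ = 1 ∨ σ = -1) ∧ 0 < σ * (J κ (c₁, 0, 0) * J bt (0, ((1 : ℝ) : ℂ), 0)) := by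
    have hne : J κ (c₁, 0, 0) * J bt (0, ((1 : ℝ) : ℂ), 0) ≠ 0 := by
      refine mul_ne_zero ?_ ?_
      · exact (hJ.cont (hκ.loc _ _ _ (by simp))).2
      · exact (hJ.cont (hbtl 1 (by norm_num))).2
    rcases lt_or_gt_of_ne hne with h | h
    · exact ⟨-1, Or.inr rfl, by linarith⟩
    · exact ⟨1, Or.inl rfl, by linarith⟩
  obtain ⟨σ, hσ1, hσ2⟩ := hσ
  have hσ3 : 0 < σ * (J κ (c₂, 0, 0) * J bt (0, ((-1 : ℝ) : ℂ), 0)) := by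
    have h3 := mul_pos hκc hbc
    have h4 : 0 < (σ * (J κ (c₂, 0, 0) * J bt (0, ((-1 : ℝ) : ℂ), 0))) *
        (σ * (J κ (c₁, 0, 0) * J bt (0, ((1 : ℝ) : ℂ), 0))) := by
      have h5 : σ * σ = 1 := by rcases hσ1 with rfl | rfl <;> norm_num
      have h6 : (σ * (J κ (c₂, 0, 0) * J bt (0, ((-1 : ℝ) : ℂ), 0))) *
        (σ * (J κ (c₁, 0, 0) * J bt (0, ((1 : ℝ) : ℂ), 0))) =
        (σ * σ) * (J κ (c₁, 0, 0) * J κ (c₂, 0, 0) * (J bt (0, ((1 : ℝ) : ℂ), 0) * J bt (0, ((-1 : ℝ) : ℂ), 0))) := by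
        ring
      rw [h6, h5, one_mul]
      exact h3
    exact (mul_pos_iff_of_pos_right hσ2).1 h4
  have key : ∀ (ε δ c : ℝ), (ε = 1 ∨ ε = -1) → |δ| < 5 →
      (∀ᶠ l in 𝓝 c, κ (l, 0, 0) = strand b ε δ w c (l, 0, 0)) →
      0 < σ * (J κ (c, 0, 0) * J bt (0, (δ : ℂ), 0)) → PosAt κ (strand (refl σ b) ε δ w c) c := by
    intro ε δ c hε hδ hcc hs
    obtain ⟨k1, k2⟩ := strand_of hJ (c := c) hσ1 hε hw (hbtl δ hδ)
    refine posAt_of hJ ha hκ heq ?_ k1 ?_ ?_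
    · intro l v t
      exact heqb _ _ _
    · filter_upwards [hcc] with l hl
      rw [hl]
      show b (δ + cj ε 0 / 2, ε * (w * (l - c)), 0) = b (cj σ (δ + cj ε 0 / 2), ε * (w * (l - c)), 0)
      rw [Coh_cj, RSG.cj_zero, RSG.cj_zero]
    · have hb0 : J bt (0, (δ : ℂ), 0) ≠ 0 := (hJ.cont (hbtl δ hδ)).2
      have h9 := mul_pos hs k2
      have e9 : σ * (J κ (c, 0, 0) * J bt (0, (δ : ℂ), 0)) * (J (strand (refl σ b) ε δ w c) (c, 0, 0) *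
          (σ * J (fun q : ℝ × ℂ × ℝ => b (q.2.1, q.1, q.2.2)) (0, (δ : ℂ), 0))) =
          (J κ (c, 0, 0) * J (strand (refl σ b) ε δ w c) (c, 0, 0)) *
            ((σ * J bt (0, (δ : ℂ), 0)) * (σ * J bt (0, (δ : ℂ), 0))) := by
        simp only [hbt]
        ring
      rw [e9] at h9
      refine (mul_pos_iff_of_pos_right (mul_self_pos.2 (mul_ne_zero ?_ hb0))).1 h9
      rcases hσ1 with rfl | rfl <;> norm_num
  exact ⟨σ, hσ1, key ε₁ 1 c₁ h1 (by norm_num) hc₁ hσ2, key ε₂ (-1) c₂ h2 (by norm_num) hc₂ hσ3⟩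

end

end Pool.Agent.NHB
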