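import Pool.Agent.NHB.Defs
import Pool.Agent.NHB.AdI
import Pool.Agent.RBN.Cir
import Pool.Agent.RBN.CodS

/-!
# NHB/Cen: the circle action on `N × Circle`, product boxes, diffeomorphisms of `N`
-/

open scoped Manifold ContDiff Topology
open Set Filter
open Complex (I)
open Pool.Agent.CSG (stp)
open Pool.Agent.RSG (E3 E4 S4 ex cj Thick OnKnot IsRollGluck)
open Pool.Agent.RBM (ThickT TwinP OnT Box Bundle frc)
open Pool.Agent.COR (Equi EquiB TwoStrands half)
open Pool.Agent.KNT (Dom Str Str2)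
open Pool.Agent.KNH (Rr hr Ss Ss2)
open Pool.Agent.RBN (IN circ prd pb circ_add circ_zero circ_int circ_eq circ_per circ_ld circ_smooth)
open Pool.Agent.NHP (E Cht Push TubesN LEqN core)

namespace Pool.Agent.NHB

universe v

section
variable {N : Type*} [TopologicalSpace N] [ChartedSpace E3 N]

theorem rot_act : PTH.Act IN (rot : ℝ → N × Circle → N × Circle) := by
  refine ⟨?_, ?_, ?_, ?_, ?_⟩
  · intro x
    unfold rot
    rw [circ_zero, mul_one]
  · intro s t x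
    unfold rot
    rw [circ_add, mul_assoc, mul_comm (circ t)]
  · intro x
    have h := circ_int 1
    rw [Int.cast_one] at h
    unfold rot
    rw [h, mul_one]
  · intro t x h
    have h1 : x.2 * circ t = x.2 := congrArg Prod.snd h
    have h2 : circ t = circ 0 := by rw [circ_zero]; exact mul_eq_left.mp h1
    obtain ⟨m, hm⟩ := circ_eq.mp h2
    exact ⟨m, by rw [hm, zero_add]⟩
  · have h1 : ContMDiff ((𝓘(ℝ, ℝ)).prod IN) (𝓡 3) ∞ fun q : ℝ × (N × Circle) => q.2.1 :=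
      contMDiff_fst.comp contMDiff_snd
    have h2 : ContMDiff ((𝓘(ℝ, ℝ)).prod (IN)) (𝓡 1) ∞ fun q : ℝ × (N × Circle) => q.2.2 :=
      contMDiff_snd.comp contMDiff_snd
    have h3 : ContMDiff ((𝓘(ℝ, ℝ)).prod (IN)) (𝓡 1) ∞ fun q : ℝ × (N × Circle) => circ q.1 :=
      circ_smooth.comp contMDiff_fst
    exact h1.prodMk (h2.mul h3)

theorem pb_box {β : E → N} (hβ : Emb β) (r : ℝ) : Box IN (pb β) r where
  per := by
    intro z s t
    change ((β (z, s), circ (t + 1)) : N × Circle) = (β (z, s), circ t)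
    rw [circ_per]
  loc := fun z s t _ _ => RBN.pb_ld (hβ.loc (z, s)) t
  inj := by
    intro z s t z' s' t' _ _ _ _ h
    have h1 : β (z, s) = β (z', s') := congrArg Prod.fst h
    have h2 : circ t = circ t' := congrArg Prod.snd h
    have h3 := Prod.ext_iff.1 (hβ.inj h1)
    exact ⟨h3.1, h3.2, circ_eq.1 h2.symm⟩

omit [TopologicalSpace N] [ChartedSpace E3 N] in
theorem pb_equiv (β : E → N) : EquiB rot (pb β) := by
  intro z s t
  change ((β (z, s), circ t) : N × Circle) = (β (z, s), circ 0 * circ t)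
  rw [circ_zero, one_mul]

omit [TopologicalSpace N] [ChartedSpace E3 N] in
theorem prd_equi (κ : ℝ × ℂ → N) : Equi rot (prd κ) := by
  intro l v t
  change ((κ (l, v), circ t) : N × Circle) = (κ (l, v), circ 0 * circ t)
  rw [circ_zero, one_mul]

omit [TopologicalSpace N] [ChartedSpace E3 N] in
theorem prd_core {κ : ℝ × ℂ → N} (l : ℝ) : prd κ (l, 0, 0) = (κ (l, 0), 1) := by
  show ((κ (l, 0), circ 0) : N × Circle) = _
  rw [circ_zero]

/-- product of a diffeomorphism of `N` and of the identity -/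
noncomputable def tims (F : Equiv.Perm N) : Equiv.Perm (N × Circle) := F.prodCongr (Equiv.refl Circle)

omit [TopologicalSpace N] [ChartedSpace E3 N] in
theorem tims_apply (F : Equiv.Perm N) (p : N × Circle) : tims F p = (F p.1, p.2) := rfl

theorem tims_ld {F : Equiv.Perm N} (hF : ∀ p, IsLocalDiffeomorphAt (𝓡 3) (𝓡 3) ∞ F p) (p : N × Circle) :
    IsLocalDiffeomorphAt IN IN ∞ (tims F) p :=
  RSG.ld_prodMap (hF p.1) (CSG.ld_id p.2)

omit [TopologicalSpace N] [ChartedSpace E3 N] in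
theorem tims_rot (F : Equiv.Perm N) (t : ℝ) (p : N × Circle) : tims F (rot t p) = rot t (tims F p) := rfl

/-- composition with an equivariant diffeomorphism -/
theorem carC_map {κ₀ : ℝ × ℂ × ℝ → N × Circle} {K : ℝ → N × Circle} (Γ : Equiv.Perm (N × Circle))
    (h : ∀ p, IsLocalDiffeomorphAt IN IN ∞ Γ p) (hc : ∀ t p, Γ (rot t p) = rot t (Γ p))
    (hK : CarC.{v} κ₀ K) : CarC.{v} κ₀ fun l => Γ (K l) := by
  obtain ⟨κ, hT, he, hk, hκ⟩ := hK
  refine ⟨fun q => Γ (κ q), COR.ThickT_diffeo Γ h hT, ?_, ?_, ?_⟩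
  · intro l v t
    show Γ (κ (l, v, t)) = rot t (Γ (κ (l, v, 0)))
    rw [he l v t, hc]
  · intro l
    show Γ (κ (l, 0, 0)) = Γ (K l)
    rw [hk]
  · exact hκ.trans (same_diffeo Γ h)

/-- a diffeomorphism of `N` -/
theorem isC_map {κ₀ : ℝ × ℂ × ℝ → N × Circle} {K : Set N} {F : Equiv.Perm N}
    (hF : ∀ p, IsLocalDiffeomorphAt (𝓡 3) (𝓡 3) ∞ F p) (hK : IsC.{v} κ₀ K) : IsC.{v} κ₀ (F '' K) := by
  obtain ⟨c, hr, hc⟩ := hK
  refine ⟨fun l => F (c l), ?_, ?_⟩
  · rw [← hr]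
    exact range_comp F c
  · exact carC_map (tims F) (tims_ld hF) (tims_rot F) hc

theorem isC_map_iff {κ₀ : ℝ × ℂ × ℝ → N × Circle} {K : Set N} {F : Equiv.Perm N}
    (hF : ∀ p, IsLocalDiffeomorphAt (𝓡 3) (𝓡 3) ∞ F p) : IsC.{v} κ₀ K ↔ IsC.{v} κ₀ (F '' K) := by
  refine ⟨isC_map hF, fun h => ?_⟩
  have h1 := isC_map (F := F.symm) (fun p => RBN.ld_symm hF p) h
  rwa [← image_comp, show (F.symm ∘ F : N → N) = id from funext fun x => Equiv.symm_apply_apply F x,
    image_id] at h1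

theorem push_ld {O : Set N} {V : ℝ → Equiv.Perm N} (hV : Push O V) (s : ℝ) (p : N) :
    IsLocalDiffeomorphAt (𝓡 3) (𝓡 3) ∞ (V s) p := by
  have hi : ∀ x : N, ContMDiffAt (𝓡 3) (𝓘(ℝ, ℝ).prod (𝓡 3)) ∞ (fun x : N => ((s, x) : ℝ × N)) x :=
    fun x => contMDiffAt_const.prodMk contMDiffAt_id
  have h1 : ∀ x : N, ContMDiffAt (𝓡 3) (𝓡 3) ∞ (V s) x := fun x =>
    ContMDiffAt.comp (g := fun q : ℝ × N => V q.1 q.2) (f := fun x : N => ((s, x) : ℝ × N)) x
      (hV.smooth (s, x)) (hi x)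
  have h2 : ∀ x : N, ContMDiffAt (𝓡 3) (𝓡 3) ∞ (V s).symm x := fun x =>
    ContMDiffAt.comp (g := fun q : ℝ × N => (V q.1).symm q.2) (f := fun x : N => ((s, x) : ℝ × N)) x
      (hV.smooth_symm (s, x)) (hi x)
  exact RSG.ld_two (g := (V s).symm) (Eventually.of_forall h1) (Eventually.of_forall h2)
    (Eventually.of_forall fun x => Equiv.symm_apply_apply (V s) x)
    (Eventually.of_forall fun x => Equiv.apply_symm_apply (V s) x)

/-- the diffusion of a push -/
theorem isC_push {κ₀ : ℝ × ℂ × ℝ → N × Circle} {K O : Set N} {V : ℝ → Equiv.Perm N} (hV : Push O V) (s : ℝ) :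
    IsC.{v} κ₀ K ↔ IsC.{v} κ₀ (V s '' K) := isC_map_iff (push_ld hV s)

end

end Pool.Agent.NHB
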