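import Pool.Agent.NHB.Rls

/-!
# NHB/Dcv: the orientation double covering of a 3-manifold

`Dc N` is the set of pairs `(x, s)`, `s = ±1` an orientation of `N` at `x` (relative to `par x`).  A set `W` is open if with
`(x, s)` it contains all pairs `(par x q, s rl (par x) q)` for `q` near `0`.
-/

open scoped Manifold ContDiff Topology
open Set Filter
open Pool.Agent.RSG (E3)
open Pool.Agent.NHP (E)

namespace Pool.Agent.NHB

/-- points with an orientation -/
@[ext] structure Dc (N : Type*) where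
  /-- the point -/
  pt : N
  /-- the orientation -/
  sg : ℤˣ

instance {N : Type*} : MulAction ℤˣ (Dc N) where
  smul u p := ⟨p.pt, u * p.sg⟩
  one_smul p := by
    show (⟨p.pt, 1 * p.sg⟩ : Dc N) = p
    rw [one_mul]
  mul_smul u v p := by
    show (⟨p.pt, u * v * p.sg⟩ : Dc N) = ⟨p.pt, u * (v * p.sg)⟩
    rw [mul_assoc]

theorem Dc_smul {N : Type*} (u : ℤˣ) (p : Dc N) : u • p = ⟨p.pt, u * p.sg⟩ := rfl

section
variable {N : Type*} [TopologicalSpace N] [ChartedSpace E3 N] [IsManifold (𝓡 3) ∞ N]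

/-- the section given by a local parametrisation -/
noncomputable def sec (Φ : E → N) (u : ℤˣ) (q : E) : Dc N := ⟨Φ q, u * rl Φ q⟩

instance : TopologicalSpace (Dc N) where
  IsOpen W := ∀ p ∈ W, ∀ᶠ q in 𝓝 (0 : E), sec (par p.pt) p.sg q ∈ W
  isOpen_univ := fun p _ => Filter.Eventually.of_forall fun _ => mem_univ _
  isOpen_inter W W' h h' := fun p hp => by
    filter_upwards [h p hp.1, h' p hp.2] with q h1 h2
    exact ⟨h1, h2⟩
  isOpen_sUnion S h := fun p hp => by
    obtain ⟨W, hW, hp'⟩ := hp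
    filter_upwards [h W hW p hp'] with q hq
    exact ⟨W, hW, hq⟩

theorem Dc_isOpen (W : Set (Dc N)) : IsOpen W ↔ ∀ p ∈ W, ∀ᶠ q in 𝓝 (0 : E), sec (par p.pt) p.sg q ∈ W := Iff.rfl

theorem rl_par (x : N) : rl (par x) 0 = 1 := by
  have h1 : Rl (par x) 0 (par x) 0 (rs 1) := by
    rw [rs_one]; exact Rl_refl _ _
  have h2 := rl_of (par_ld x) (par_ld x) rfl h1
  have h3 : Rl (par x) 0 (par (par x 0)) 0 (rs 1) := by
    rw [par_zero]; exact h1
  exact Rl_unique_u (par_ld (par x 0)) (rl_spec (par_ld x)) h3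

/-- the section is continuous -/
theorem sec_eventually {Φ : E → N} {q : E} (h : Ldn Φ q) (u : ℤˣ) {W : Set (Dc N)} (hW : IsOpen W)
    (hq : sec Φ u q ∈ W) : ∀ᶠ q' in 𝓝 q, sec Φ u q' ∈ W := by
  have h1 := (Dc_isOpen W).mp hW _ hq
  have h2 : Φ q = par (Φ q) 0 := (par_zero _).symm
  filter_upwards [rl_near h (par_ld (Φ q)) h2 h1] with q' hq'
  obtain ⟨b', hb', e1, e2⟩ := hq'
  have h3 : sec Φ u q' = sec (par (Φ q)) (u * rl Φ q) b' := by
    unfold sec
    rw [e2, rl_par, mul_one, ← e1, mul_assoc]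
  rw [h3]
  exact hb'

theorem sec_continuousAt {Φ : E → N} {q : E} (h : Ldn Φ q) (u : ℤˣ) : ContinuousAt (sec Φ u) q := by
  intro S hS
  obtain ⟨W, hW, hWo, hq⟩ := mem_nhds_iff.mp hS
  exact (sec_eventually h u hWo hq).mono fun q' hq' => hW hq'

/-- the image of the section on a small open set is open -/
theorem sec_open {Φ : E → N} {B : Set E} (hB : IsOpen B) (h : ∀ q ∈ B, Ldn Φ q) (u : ℤˣ) : IsOpen (sec Φ u '' B) := by
  rw [Dc_isOpen]
  rintro _ ⟨q, hq, rfl⟩
  have h2 : par (Φ q) 0 = Φ q := par_zero _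
  show ∀ᶠ a' in 𝓝 (0 : E), sec (par (Φ q)) (u * rl Φ q) a' ∈ sec Φ u '' B
  filter_upwards [rl_near (par_ld (Φ q)) (h q hq) h2 (hB.mem_nhds hq)] with a' ha'
  obtain ⟨b', hb', e1, e2⟩ := ha'
  refine ⟨b', hb', ?_⟩
  unfold sec
  rw [e1, e2, rl_par, one_mul]
  congr 1
  rw [← mul_assoc, mul_assoc u, u_sq, mul_one]

theorem pt_isQuotientMap : Topology.IsQuotientMap (Dc.pt : Dc N → N) := by
  refine ⟨.of_isOpen_preimage_iff_isOpen fun U => Iff.symm ?_, fun x => ⟨⟨x, 1⟩, rfl⟩⟩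
  rw [Dc_isOpen]
  constructor
  · intro hU p hp
    have h1 : ∀ᶠ q in 𝓝 (0 : E), par p.pt q ∈ U :=
      (CSG.ld_continuousAt (par_ld p.pt)).eventually (by rw [par_zero]; exact hU.mem_nhds hp)
    exact h1
  · intro hU
    rw [isOpen_iff_mem_nhds]
    intro x hx
    have h1 : {q : E | par x q ∈ U} ∈ 𝓝 (0 : E) := hU ⟨x, 1⟩ hx
    have h2 := CSG.ld_image_nhds (par_ld x) h1
    rw [par_zero] at h2
    refine mem_of_superset h2 ?_
    rintro _ ⟨q, hq, rfl⟩
    exact hq

theorem pt_isQuotientCoveringMap : IsQuotientCoveringMap (Dc.pt : Dc N → N) ℤˣ where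
  toIsQuotientMap := pt_isQuotientMap
  continuous_const_smul u := by
    refine continuous_def.mpr fun W hW => ?_
    rw [Dc_isOpen] at hW ⊢
    intro p hp
    filter_upwards [hW _ hp] with q hq
    show u • sec (par p.pt) p.sg q ∈ W
    have h1 : u • sec (par p.pt) p.sg q = sec (par p.pt) (u * p.sg) q := by
      rw [Dc_smul]
      unfold sec
      rw [mul_assoc]
    rw [h1]
    exact hq
  apply_eq_iff_mem_orbit := by
    intro e₁ e₂
    constructor
    · intro h
      refine ⟨e₁.sg * e₂.sg, ?_⟩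
      show (e₁.sg * e₂.sg) • e₂ = e₁
      rw [Dc_smul, mul_assoc, u_sq, mul_one, ← h]
    · rintro ⟨u, rfl⟩
      rfl
  disjoint := by
    intro e
    obtain ⟨U, hU, hi⟩ := CSG.ld_injOn (par_ld e.pt)
    have h1 := inter_mem hU (CSG.ld_eventually (par_ld e.pt))
    obtain ⟨B, hB, hBo, h0⟩ := mem_nhds_iff.mp h1
    refine ⟨sec (par e.pt) e.sg '' B, (sec_open hBo (fun q hq => (hB hq).2) e.sg).mem_nhds ⟨0, h0, ?_⟩, ?_⟩
    · unfold sec
      rw [par_zero, rl_par, mul_one]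
    · rintro g ⟨p, ⟨p', ⟨q, hq, rfl⟩, rfl⟩, ⟨q', hq', he⟩⟩
      have h3 := congrArg Dc.pt he
      have h4 := congrArg Dc.sg he
      have h5 : q' = q := hi (hB hq').1 (hB hq).1 h3
      subst h5
      have h6 : e.sg * rl (par e.pt) q' = g * (e.sg * rl (par e.pt) q') := h4
      have h7 : g * (e.sg * rl (par e.pt) q') * (e.sg * rl (par e.pt) q') = 1 := by
        rw [← h6, u_sq]
      rw [mul_assoc, u_sq, mul_one] at h7
      exact h7

theorem pt_cover : IsCoveringMap (Dc.pt : Dc N → N) := pt_isQuotientCoveringMap.isCoveringMap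

end

end Pool.Agent.NHB
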