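import Pool.Agent.NHB.Cen
import Pool.Agent.KNH.FamM
import Pool.Agent.RBN.Wfn

/-!
# NHB/FamN: from tubes in `N` to a family of charts

The proofs of KNH/BxM, KNH/FamM with `N` instead of `ℂ × ℝ`.
-/

open scoped Manifold ContDiff Topology
open Set Filter
open Complex (I)
open Pool.Agent.CSG (stp)
open Pool.Agent.RSG (E3 E4 S4 ex cj Thick OnKnot IsRollGluck)
open Pool.Agent.RBM (ThickT TwinP OnT Box Bundle frc)
open Pool.Agent.COR (Equi EquiB TwoStrands half)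
open Pool.Agent.KNT (Dom Str Str2)
open Pool.Agent.KNH (Rr hr Ss Ss2 Rem rh_smooth rh_imm bx_dom Rr_inj hr_inj FamM_rem_dom FamM_rem_abs hr_eighth hr_quarter
  Rr_of_norm hr_lt)
open Pool.Agent.RBN (IN circ prd pb circ_add circ_zero circ_int circ_eq circ_per circ_ld circ_smooth)
open Pool.Agent.NHP (E Cht Push TubesN LEqN core)

namespace Pool.Agent.NHB

theorem FamN_rh (q : ℂ × ℝ) :
    IsLocalDiffeomorphAt 𝓘(ℝ, ℂ × ℝ) 𝓘(ℝ, ℂ × ℝ) ∞ (fun q : ℂ × ℝ => (Rr q.1, hr q.2)) q := by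
  refine CSG.ld_of_fderiv (Eventually.of_forall fun y => rh_smooth.contDiffAt) rfl ?_
  intro v hv
  exact rh_imm q (by rw [hv, map_zero])

section
variable {N : Type*} [TopologicalSpace N] [ChartedSpace E3 N]

theorem bx_loc {b : E → N} {q : E} (h : IsLocalDiffeomorphAt 𝓘(ℝ, ℂ × ℝ) (𝓡 3) ∞ b (Rr q.1, hr q.2)) :
    IsLocalDiffeomorphAt 𝓘(ℝ, ℂ × ℝ) (𝓡 3) ∞ (bx b) q :=
  IsLocalDiffeomorphAt.comp (hf := FamN_rh q) (g := b) (hg := h) ..

omit [TopologicalSpace N] [ChartedSpace E3 N] in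
theorem FamN_inj {b : E → N} (hb : InjOn b Dom) : Function.Injective (bx b) := by
  intro q q' h
  have h1 := hb (bx_dom q) (bx_dom q') h
  rw [Prod.mk.injEq] at h1
  exact Prod.ext (Rr_inj h1.1) (hr_inj h1.2)

theorem bx_emb {b : E → N} (hb : Cht Dom b) : Emb (bx b) :=
  ⟨fun q => bx_loc (hb.loc _ (bx_dom q)), FamN_inj hb.inj⟩

omit [TopologicalSpace N] [ChartedSpace E3 N] in
theorem bx_dis {b : E → N} (hb : InjOn b Dom) {Z : Set N} (hZ : Disjoint Z (b '' Dom)) (q : E) :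
    bx b q ∉ Z ∪ b '' Rem := by
  rintro (h | ⟨q', hq', h⟩)
  · exact Set.disjoint_left.1 hZ h ⟨_, bx_dom q, rfl⟩
  · have h1 := hb (FamM_rem_dom hq') (bx_dom q) h
    apply hq'.2 q.2
    rw [h1]

theorem fam_bx {b : ℝ → E → N} (hb : TubesN b) {Z : Set N}
    (hZ : ∀ l ∈ Icc (0 : ℝ) 1, Disjoint Z (b l '' Dom)) : Fam (fun l => bx (b l)) (Z ∪ b 0 '' Rem) := by
  refine ⟨?_, ?_, ?_, FamN_inj hb.inj0, FamN_inj hb.inj1, ?_, ?_⟩
  · intro l hl q
    have h1 : ContDiffAt ℝ ∞ (fun p : ℝ × (ℂ × ℝ) => (p.1, (Rr p.2.1, hr p.2.2))) (l, q) := by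
      apply ContDiffAt.prodMk contDiffAt_fst
      exact (rh_smooth.contDiffAt (x := q)).comp (l, q) (f := fun p : ℝ × (ℂ × ℝ) => p.2) contDiffAt_snd
    exact ContMDiffAt.comp (g := fun p : ℝ × (ℂ × ℝ) => b p.1 p.2)
      (f := fun p : ℝ × (ℂ × ℝ) => (p.1, (Rr p.2.1, hr p.2.2))) (l, q) (hb.smooth l hl _ (bx_dom q)) h1.contMDiffAt
  · intro l hl q
    exact bx_loc (hb.loc l hl _ (bx_dom q))
  · intro l hl q hq
    exact hb.ends l hl _ (bx_dom q) (hr_eighth hq)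
  · intro l hl q q' hq hq' h
    by_cases hh : |hr q.2| ≤ 1 / 2
    · exact hb.sep l hl _ (bx_dom q) hh _ (bx_dom q') (hr_quarter.2 hq') h
    · push Not at hh
      have h1 := hb.ends l hl _ (bx_dom q) hh.le
      have h2 := hb.inj0 (bx_dom q) (bx_dom q') (h1.symm.trans h)
      rw [Prod.mk.injEq] at h2
      have h3 := hr_inj h2.2
      rw [h3] at hq
      linarith
  · rintro l hl q (h | ⟨q', hq', h⟩)
    · exact Set.disjoint_left.1 (hZ l hl) h ⟨_, bx_dom q, rfl⟩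
    · by_cases hh : |hr q.2| ≤ 1 / 2
      · exact hb.sep l hl _ (bx_dom q) hh _ (FamM_rem_dom hq') (FamM_rem_abs hq') h.symm
      · push Not at hh
        have h1 := hb.ends l hl _ (bx_dom q) hh.le
        have h2 := hb.inj0 (FamM_rem_dom hq') (bx_dom q) (h.trans h1)
        apply hq'.2 q.2
        rw [h2]

omit [TopologicalSpace N] [ChartedSpace E3 N] in
theorem str_eq (Z : Set N) (b : E → N) : Z ∪ b '' Str = (Z ∪ b '' Rem) ∪ bx b '' Ss := by
  have hR : ∀ z : ℂ, z = 1 ∨ z = -1 → Rr z = z := by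
    intro z hz
    apply Rr_of_norm
    rcases hz with h | h <;> rw [h] <;> norm_num
  ext x
  constructor
  · rintro (h | ⟨q, hq, rfl⟩)
    · exact Or.inl (Or.inl h)
    · by_cases h : q ∈ Rem
      · exact Or.inl (Or.inr ⟨q, h, rfl⟩)
      · have h1 : ∃ u, hr u = q.2 := by
          by_contra hc
          push Not at hc
          exact h ⟨hq, hc⟩
        obtain ⟨u, hu⟩ := h1
        refine Or.inr ⟨(q.1, u), hq.1, ?_⟩
        show b (Rr q.1, hr u) = b q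
        rw [hR _ hq.1, hu]
  · rintro ((h | ⟨q, hq, rfl⟩) | ⟨q, hq, rfl⟩)
    · exact Or.inl h
    · exact Or.inr ⟨q, hq.1, rfl⟩
    · refine Or.inr ⟨(Rr q.1, hr q.2), ⟨?_, ?_⟩, rfl⟩
      · show Rr q.1 = 1 ∨ Rr q.1 = -1
        rw [hR _ hq]
        exact hq
      · have := hr_lt q.2
        show |hr q.2| < 1
        linarith

theorem rem_eq {b : ℝ → E → N} (hb : TubesN b) : b 1 '' Rem = b 0 '' Rem := by
  apply Set.image_congr
  intro q hq
  apply hb.ends 1 (by norm_num) q (FamM_rem_dom hq)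
  have := FamM_rem_abs hq
  linarith

theorem fam_emb0 {β : ℝ → E → N} {Y : Set N} (h : Fam β Y) : Emb (β 0) :=
  ⟨h.loc 0 (by norm_num), h.inj0⟩

theorem fam_emb1 {β : ℝ → E → N} {Y : Set N} (h : Fam β Y) : Emb (β 1) :=
  ⟨h.loc 1 (by norm_num), h.inj1⟩

/-- the reversed family -/
theorem fam_rev {β : ℝ → E → N} {Y : Set N} (h : Fam β Y) : Fam (fun l => β (1 - l)) Y := by
  have hI : ∀ l ∈ Icc (0 : ℝ) 1, 1 - l ∈ Icc (0 : ℝ) 1 := fun l hl => ⟨by linarith [hl.2], by linarith [hl.1]⟩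
  refine ⟨?_, fun l hl => h.loc _ (hI l hl), ?_, ?_, ?_, ?_, fun l hl => h.dis _ (hI l hl)⟩
  · intro l hl q
    have h1 : ContDiffAt ℝ ∞ (fun p : ℝ × (ℂ × ℝ) => (1 - p.1, p.2)) (l, q) := by fun_prop
    exact ContMDiffAt.comp (g := fun p : ℝ × (ℂ × ℝ) => β p.1 p.2)
      (f := fun p : ℝ × (ℂ × ℝ) => (1 - p.1, p.2)) (l, q) (h.smooth (1 - l) (hI l hl) q) h1.contMDiffAt
  · intro l hl q hq
    show β (1 - l) q = β (1 - 0) q
    rw [h.ends (1 - l) (hI l hl) q hq, h.ends (1 - 0) (hI 0 (by norm_num)) q hq]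
  · show Function.Injective (β (1 - 0))
    rw [sub_zero]
    exact h.inj1
  · show Function.Injective (β (1 - 1))
    rw [sub_self]
    exact h.inj0
  · intro l hl q q' hq hq'
    show β (1 - l) q ≠ β (1 - 0) q'
    rw [h.ends (1 - 0) (hI 0 (by norm_num)) q' (by linarith)]
    exact h.sep (1 - l) (hI l hl) q q' hq hq'

end

end Pool.Agent.NHB
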