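import Pool.Agent.NHB.Bnd
import Pool.Agent.RBM.Rm
import Pool.Agent.COR.Rmc
import Pool.Agent.RBN.Rib

/-!
# NHB/Fcq: the 4-move for carried curves in an oriented 4-manifold `P`, in both directions

The proof of COR/Rmc (`four_core`), with the relation `Same`.  The inverse: `M ∘ κ` is a bundle in the twisted box
`d' (y, s, t) = d (MsDo o (y, s), s, t)`, and `M⁻¹` is the 4-move with `-o` in this box.
-/

open scoped Manifold ContDiff Topology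
open Set Filter
open Complex (I)
open Pool.Agent.CSG (stp)
open Pool.Agent.RSG (E3 E4 S4 ex cj)
open Pool.Agent.RBM (ThickT TwinP OnT Box Bundle frc MsDo)
open Pool.Agent.COR (Equi EquiB TwoStrands half)

namespace Pool.Agent.NHB

universe v

theorem Fcq_inv (o : ℝ) (y : ℂ) (s : ℝ) : MsDo (-o) (MsDo o (y, s), s) = y := by
  show ex (2 * -o * RBM.gs s * (1 - stp (1849 / 10000) (144 / 625)
    (‖ex (2 * o * RBM.gs s * (1 - stp (1849 / 10000) (144 / 625) (‖y / 8‖ ^ 2))) * y / 8‖ ^ 2))) *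
    (ex (2 * o * RBM.gs s * (1 - stp (1849 / 10000) (144 / 625) (‖y / 8‖ ^ 2))) * y) = y
  rw [RBM.MsDM_norm, ← mul_assoc, ← RSG.ex_add]
  have h : 2 * -o * RBM.gs s * (1 - stp (1849 / 10000) (144 / 625) (‖y / 8‖ ^ 2)) +
      2 * o * RBM.gs s * (1 - stp (1849 / 10000) (144 / 625) (‖y / 8‖ ^ 2)) = 0 := by ring
  rw [h, RSG.ex_zero, one_mul]

theorem Fcq_inv' (o : ℝ) (y : ℂ) (s : ℝ) : MsDo o (MsDo (-o) (y, s), s) = y := by
  have h := Fcq_inv (-o) y s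
  rwa [neg_neg] at h

theorem Fcq_ends {o : ℝ} (ho : o = 1 ∨ o = -1) {y : ℂ} (hy : ‖y‖ ≤ 17 / 5) {s : ℝ} (hs : 1 / 8 ≤ |s|) :
    MsDo o (y, s) = y := by
  rw [RBM.MsDo_low hy]
  rcases le_total 0 s with h | h
  · rw [abs_of_nonneg h] at hs
    have h1 : RBM.gs s = 1 := Pool.Agent.CSG.stp_one (by norm_num) (by linarith)
    rw [h1, mul_one]
    rcases ho with rfl | rfl
    · have h2 := RSG.ex_int 2
      norm_num at h2 ⊢
      rw [h2, one_mul]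
    · have h2 := RSG.ex_int (-2)
      norm_num at h2 ⊢
      rw [h2, one_mul]
  · rw [abs_of_nonpos h] at hs
    have h1 : RBM.gs s = 0 := Pool.Agent.CSG.stp_zero (by norm_num) (by linarith)
    rw [h1, mul_zero, RSG.ex_zero, one_mul]

/-- the twisted box -/
noncomputable def tw {P : Type*} (o : ℝ) (d : ℂ × ℝ × ℝ → P) (q : ℂ × ℝ × ℝ) : P :=
  d (MsDo o (q.1, q.2.1), q.2.1, q.2.2)

section
variable {EP : Type*} [NormedAddCommGroup EP] [NormedSpace ℝ EP] {HP : Type*} [TopologicalSpace HP]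
  {IP : ModelWithCorners ℝ EP HP} {P : Type*} [TopologicalSpace P] [ChartedSpace HP P]

theorem Fcq_bundle [T2Space P] {κ : ℝ × ℂ × ℝ → P} {d : ℂ × ℝ × ℝ → P} {ε₁ ε₂ : ℝ} (h : Bundle IP κ d ε₁ ε₂)
    {o : ℝ} (ho : o = 1 ∨ o = -1) {M : Equiv.Perm P} (hM : RBM.IsM 4 d (MsDo o) M) :
    Bundle IP (fun q => M (κ q)) (tw o d) ε₁ ε₂ := by
  obtain ⟨La, R, hLa, hMs⟩ := RBM.exists_LaDo ho
  have hr : (39 / 10 : ℝ) < 4 := by norm_num
  have hst : ∀ (δ ε l : ℝ) (v : ℂ) (t : ℝ), |δ| = 1 → (ε = 1 ∨ ε = -1) → |l| < 1 / 16 → ‖v‖ < 1 →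
      M (d ((δ : ℂ) + cj ε v / 2, 16 * ε * l, t)) = tw o d ((δ : ℂ) + cj ε v / 2, 16 * ε * l, t) := by
    intro δ ε l v t hδ hε hl hv
    have hy : ‖(δ : ℂ) + cj ε v / 2‖ ≤ 3 / 2 := RBN.Rib_nm hδ hε hv
    have hs : |16 * ε * l| < 1 := RBN.Rib_s hε hl
    by_cases h8 : |16 * ε * l| < 1 / 8
    · exact hM.ball _ _ _ (by linarith) h8
    · rw [RBM.M_high h.box hM t (by linarith) (not_lt.1 h8) hs]
      show _ = d (MsDo o ((δ : ℂ) + cj ε v / 2, 16 * ε * l), 16 * ε * l, t)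
      rw [Fcq_ends ho (by linarith) (not_lt.1 h8)]
  refine ⟨RBM.thick_M h (RBM.pieces_self h) hr hMs hM, ⟨?_, ?_, ?_⟩, h.sign₁, h.sign₂, ?_, ?_, ?_⟩
  · intro z s t
    exact h.box.per _ _ _
  · intro z s t hz hs
    have h1 := RBM.MMb_L hMs (z, s, t)
    have h2 := h.box.loc (MsDo o (z, s)) s t (RBM.Ms_in hr hMs s hz) hs
    exact IsLocalDiffeomorphAt.comp (hf := h1) (hg := h2) ..
  · intro z s t z' s' t' hz hs hz' hs' he
    obtain ⟨h1, h2, h3⟩ := h.box.inj _ _ _ _ _ _ (RBM.Ms_in hr hMs s hz) hs (RBM.Ms_in hr hMs s' hz') hs' he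
    have h1' : MsDo o (z, s) = MsDo o (z', s') := h1
    have h2' : s = s' := h2
    subst h2'
    exact ⟨(hMs.bij s).1 h1', rfl, h3⟩
  · intro l v t hl hv
    show M (κ (1 / 4 + l, v, t)) = _
    rw [h.strand₁ l v t hl hv]
    have := hst 1 ε₁ l v t (by norm_num) h.sign₁ hl hv
    rwa [Complex.ofReal_one] at this
  · intro l v t hl hv
    show M (κ (3 / 4 + l, v, t)) = _
    rw [h.strand₂ l v t hl hv]
    have := hst (-1) ε₂ l v t (by norm_num) h.sign₂ hl hv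
    rwa [Complex.ofReal_neg, Complex.ofReal_one] at this
  · intro l v t hv hl z s t' hz hs he
    have h1 : M (κ (l, v, t)) = κ (l, v, t) := by
      apply hM.out
      intro y s' t'' hy hs'
      exact h.rest l v t hv hl y s' t'' hy (by linarith)
    have he' : M (κ (l, v, t)) = d (MsDo o (z, s), s, t') := he
    rw [h1] at he'
    exact h.rest l v t hv hl _ _ _ (RBM.Ms_in hr hMs s hz) hs he'

omit [TopologicalSpace P] in
theorem Fcq_symm {d : ℂ × ℝ × ℝ → P} {o : ℝ} (ho : o = 1 ∨ o = -1) {M : Equiv.Perm P}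
    (hM : RBM.IsM 4 d (MsDo o) M) : RBM.IsM 4 (tw o d) (MsDo (-o)) M.symm where
  ball := by
    intro y s t hy hs
    show M.symm (d (MsDo o (y, s), s, t)) = d (MsDo o (MsDo (-o) (y, s), s), s, t)
    rw [Fcq_inv', ← hM.ball y s t hy hs, Equiv.symm_apply_apply]
  out := by
    intro p hp
    rw [Equiv.symm_apply_eq]
    symm
    apply hM.out
    intro y s t hy hs he
    have ho' : -o = 1 ∨ -o = -1 := by
      rcases ho with rfl | rfl
      · exact Or.inr rfl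
      · exact Or.inl (neg_neg 1)
    obtain ⟨La, R, hLa, hMs⟩ := RBM.exists_LaDo ho'
    refine hp (MsDo (-o) (y, s)) s t (RBM.Ms_in (r := 4) (by norm_num) hMs s hy) hs ?_
    rw [he]
    show _ = d (MsDo o (MsDo (-o) (y, s), s), s, t)
    rw [Fcq_inv']

/-- the 4-move in a bundle -/
theorem four_same [T2Space P] {κ : ℝ × ℂ × ℝ → P} {d : ℂ × ℝ × ℝ → P} {ε₁ ε₂ : ℝ} (h : Bundle IP κ d ε₁ ε₂)
    {o : ℝ} (ho : o = 1 ∨ o = -1) {M : Equiv.Perm P} (hM : RBM.IsM 4 d (MsDo o) M) :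
    Same.{v} IP κ (fun q => M (κ q)) := by
  intro X _ _ _ n j
  constructor
  · exact RBM.four_twin h ho hM
  · intro D
    have ho' : -o = 1 ∨ -o = -1 := by
      rcases ho with rfl | rfl
      · exact Or.inr rfl
      · exact Or.inl (neg_neg 1)
    have h1 := RBM.four_twin (Fcq_bundle h ho hM) ho' (Fcq_symm ho hM) D
    have h2 : (fun a => M.symm ((fun q => M (κ q)) a)) = κ := by
      funext a
      exact Equiv.symm_apply_apply M (κ a)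
    rwa [h2] at h1

/-- the 4-move for the curve `K` -/
theorem four_coreS [T2Space P] {J : (ℝ × ℂ × ℝ → P) → ℝ × ℂ × ℝ → ℝ} (hJ : OrP IP J) {a : ℝ → P → P}
    (ha : PTH.Act IP a) {K : ℝ → P} {b : ℂ × ℝ × ℝ → P} (hb : Box IP b 5) (heqb : EquiB a b) {f₁ f₂ : ℝ → ℝ}
    {ε₁ ε₂ : ℝ} (hs : TwoStrands b K f₁ f₂ ε₁ ε₂) {o : ℝ} (ho : o = 1 ∨ o = -1) :
    ∃ M : Equiv.Perm P, RBM.IsM 4 (half 1 b) (MsDo o) M ∧
      ∀ κ₀ : ℝ × ℂ × ℝ → P, ThickT IP κ₀ → Equi a κ₀ → (∀ l, κ₀ (l, 0, 0) = K l) →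
        ∃ κ' : ℝ × ℂ × ℝ → P, ThickT IP κ' ∧ Equi a κ' ∧ (∀ l, κ' (l, 0, 0) = M (K l)) ∧
          Same.{v} IP κ₀ κ' := by
  have hbox : Box IP (half 1 b) 4 := COR.Rmc_half hb
  obtain ⟨La, R, hLa, hMs⟩ := RBM.exists_LaDo ho
  obtain ⟨M, hM⟩ := RBM.exists_M hbox (r' := 39 / 10) (by norm_num) hMs
  refine ⟨M, hM, ?_⟩
  intro κ₀ hκ₀ heq₀ hK₀
  obtain ⟨κ, φ, σ, hσ, heqκ, hBu, hφ, hφ1, hφ', hcore, -, -, -, htwin⟩ :=
    exists_bundleS hJ ha hκ₀ heq₀ hK₀ hb heqb hs (Fc := ∅) isClosed_empty (fun l hl t h => h)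
  have heqh : EquiB a (half 1 b) := fun z s t => heqb (cj 1 z) (s / 2) t
  have hrb : COR.refl σ (half 1 b) = half σ b := by
    funext q
    show b (cj 1 (cj σ q.1), q.2.1 / 2, q.2.2) = b (cj σ q.1, q.2.1 / 2, q.2.2)
    rw [COR.Rmc_cj1]
  have hM' : RBM.IsM 4 (half σ b) (MsDo (σ * o)) M := by
    rw [← hrb]
    exact COR.Rmc_refl hσ (fun y s => COR.Rmc_MsDo o hσ y s) hM
  have ho' := COR.Rmc_sign hσ ho
  obtain ⟨La', R', hLa', hMs'⟩ := RBM.exists_LaDo ho'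
  have hth := RBM.thick_M (r' := 39 / 10) hBu (RBM.pieces_self hBu) (by norm_num) hMs' hM'
  obtain ⟨ψ, hψ, hψ1, hψ', hinv⟩ := COR.Rmc_inv hφ hφ1 hφ'
  have hth2 : ThickT IP (fun q : ℝ × ℂ × ℝ => M (κ (ψ q.1, q.2))) := COR.thick_rep hth hψ hψ1 hψ'
  refine ⟨fun q => M (κ (ψ q.1, q.2)), hth2, ?_, ?_, ?_⟩
  · intro l v t
    show M (κ (ψ l, v, t)) = a t (M (κ (ψ l, v, 0)))
    rw [heqκ, COR.Rmc_equi ha heqh hM t]
  · intro l
    show M (κ (ψ l, 0, 0)) = M (K l)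
    rw [hcore, hinv]
  · exact (htwin.trans (four_same hBu ho' hM')).trans (same_rep hth hψ hψ1 hψ')

end

end Pool.Agent.NHB
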