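import Pool.Agent.NHB.StrN
import Pool.Agent.NHB.FamN
import Pool.Agent.NHB.Fcq
import Pool.Agent.KNH.FouSQ
import Pool.Agent.KNH.FouRQ

/-!
# NHB/FouN: the 4-move for knots in `N`

The proofs of KNH/FouSQ, KNH/FouRQ with `N` instead of the 3-sphere.
-/

open scoped Manifold ContDiff Topology
open Set Filter
open Complex (I)
open Pool.Agent.CSG (stp)
open Pool.Agent.RSG (E3 E4 S4 ex cj Thick OnKnot IsRollGluck)
open Pool.Agent.RBM (ThickT TwinP OnT Box Bundle frc)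
open Pool.Agent.COR (Equi EquiB TwoStrands half)
open Pool.Agent.KNT (Dom Str Str2)
open Pool.Agent.KNH (Rr hr Ss Ss2 Rem FouS_cj FouS_gs FouS_norm FouR_gs FouR_th FouR_P FouR_move FouR_unit FouR_val FouR_mul
  FouR_J FouR_JJ FouR_J_smooth FouR_J_dom FouR_J_imm FouR_J_str FouR_J_image hr_surj hr_lt Rr_of_norm)
open Pool.Agent.RBN (IN circ prd pb circ_add circ_zero circ_int circ_eq circ_per circ_ld circ_smooth)
open Pool.Agent.NHP (E Cht Push TubesN LEqN core)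

namespace Pool.Agent.NHB

universe v

section
variable {N : Type*} [TopologicalSpace N] [ChartedSpace E3 N]

omit [TopologicalSpace N] [ChartedSpace E3 N] in
theorem FouN_half (β : E → N) (y : ℂ) (s t : ℝ) :
    half 1 (pb β) (y, s, t) = (β (y, s / 2), circ t) := by
  show (β (cj 1 y, s / 2), circ t) = _
  rw [FouS_cj]

/-- a permutation of the chart, extended -/
theorem exists_ext [T2Space N] {β : E → N} (hβ : Emb β) {Ψ : Equiv.Perm E} (hΨ : ISO.Move ⊥ univ Ψ) :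
    ∃ F : Equiv.Perm N, (∀ p, IsLocalDiffeomorphAt (𝓡 3) (𝓡 3) ∞ F p) ∧ (∀ q, F (β q) = β (Ψ q)) ∧
      ∀ p, p ∉ range β → F p = p := by
  obtain ⟨Γ, h1, h2, h3⟩ := RBN.ext_perm (IP := 𝓡 3) (β := β) isOpen_univ (Λ := ⊥) (fun _ _ _ _ => mem_univ _)
    (fun x _ m hm => by
      have h : m = 0 := hm
      rw [h, add_zero]) (fun x _ => hβ.loc x)
    (fun x _ x' _ h => ⟨0, zero_mem _, by rw [add_zero]; exact (hβ.inj h).symm⟩) hΨ
  refine ⟨Γ, h1, fun q => h2 q (mem_univ _), fun p hp => h3 p ?_⟩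
  rintro ⟨q, -, rfl⟩
  exact hp ⟨q, rfl⟩

theorem four_stepN [T2Space N] {J : (ℝ × ℂ × ℝ → N × Circle) → ℝ × ℂ × ℝ → ℝ} (hJ : OrP IN J)
    {κ₀ : ℝ × ℂ × ℝ → N × Circle} {β : E → N} (hβ : Emb β)
    {Y : Set N} (hY : ∀ q, β q ∉ Y) (h : IsC.{v} κ₀ (Y ∪ β '' Ss)) : IsC.{v} κ₀ (Y ∪ β '' Ss2) := by
  obtain ⟨c, hr, hC⟩ := h
  obtain ⟨κ, hκ, heqκ, hκc, hsame⟩ := hC
  have hS : ∀ q, (∃ l, c l = β q) ↔ q ∈ Ss := by
    intro q
    have h1 : (∃ l, c l = β q) ↔ β q ∈ range c := Iff.rfl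
    rw [h1, hr]
    constructor
    · rintro (hx | ⟨q', hq', h4⟩)
      · exact absurd hx (hY q)
      · rw [← hβ.inj h4]
        exact hq'
    · intro hq
      exact Or.inr ⟨q, hq, rfl⟩
  obtain ⟨f₁, f₂, ε₁, ε₂, hs, -, -, -⟩ := exists_strands hκ hκc hβ hS
  obtain ⟨M, hM, hMC⟩ := four_coreS.{v} hJ rot_act (pb_box hβ 5) (pb_equiv β) hs (o := 1) (Or.inl rfl)
  obtain ⟨κ', hκ', heqκ', hκc', hsame'⟩ := hMC κ hκ heqκ hκc
  -- the value of M
  have hA : ∀ (y : ℂ) (u : ℝ), (y = 1 ∨ y = -1) → |u| < 1 / 16 →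
      M (β (y, u), 1) = (β (ex (2 * RBM.gs (2 * u)) * y, u), 1) := by
    intro y u hy hu
    have h1 := hM.ball y (2 * u) 0 (by rw [FouS_norm hy]; norm_num)
      (by rw [abs_mul, abs_of_pos (by norm_num : (0 : ℝ) < 2)]; linarith)
    rw [FouN_half, FouN_half, RBM.MsDo_low (by rw [FouS_norm hy]; norm_num), circ_zero,
      mul_div_cancel_left₀ u (by norm_num : (2 : ℝ) ≠ 0)] at h1
    rw [h1]
    norm_num
  have hB : ∀ l, (∀ (y : ℂ) (u : ℝ), (y = 1 ∨ y = -1) → |u| < 1 / 16 → c l ≠ β (y, u)) →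
      M (c l, 1) = (c l, 1) := by
    intro l hl
    apply hM.out
    intro y s t hy hs' heq
    rw [FouN_half] at heq
    have h1 : c l = β (y, s / 2) := congrArg Prod.fst heq
    have h2 : (y, s / 2) ∈ Ss := (hS _).1 ⟨l, h1⟩
    refine hl y (s / 2) h2 ?_ h1
    rw [abs_div, abs_of_pos (by norm_num : (0 : ℝ) < 2)]
    linarith
  have hcase : ∀ l, (∃ (y : ℂ) (u : ℝ), (y = 1 ∨ y = -1) ∧ |u| < 1 / 16 ∧ c l = β (y, u)) ∨
      (∀ (y : ℂ) (u : ℝ), (y = 1 ∨ y = -1) → |u| < 1 / 16 → c l ≠ β (y, u)) := by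
    intro l
    by_cases h1 : ∃ (y : ℂ) (u : ℝ), (y = 1 ∨ y = -1) ∧ |u| < 1 / 16 ∧ c l = β (y, u)
    · exact Or.inl h1
    · right
      intro y u hy hu he
      exact h1 ⟨y, u, hy, hu, he⟩
  have hsnd : ∀ l, M (c l, 1) = ((M (c l, 1)).1, 1) := by
    intro l
    rcases hcase l with ⟨y, u, hy, hu, he⟩ | hl
    · rw [he, hA y u hy hu]
    · rw [hB l hl]
  refine ⟨fun l => (M (c l, 1)).1, ?_, κ', hκ', heqκ', ?_, hsame.trans hsame'⟩
  · ext x
    constructor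
    · rintro ⟨l, rfl⟩
      show (M (c l, 1)).1 ∈ _
      rcases hcase l with ⟨y, u, hy, hu, he⟩ | hl
      · rw [he, hA y u hy hu]
        refine Or.inr ⟨_, ?_, rfl⟩
        rcases hy with rfl | rfl
        · left
          show ex (2 * RBM.gs (2 * u)) * 1 = ex (2 * RBM.gs (2 * u))
          rw [mul_one]
        · right
          show ex (2 * RBM.gs (2 * u)) * -1 = -ex (2 * RBM.gs (2 * u))
          rw [mul_neg, mul_one]
      · rw [hB l hl]
        show c l ∈ _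
        have h1 : c l ∈ Y ∪ β '' Ss := by
          rw [← hr]
          exact ⟨l, rfl⟩
        rcases h1 with h1 | ⟨⟨y, u⟩, hq, h1⟩
        · exact Or.inl h1
        · have hq' : y = 1 ∨ y = -1 := hq
          have hu : 1 / 16 ≤ |u| := by
            by_contra hu
            exact hl y u hq' (not_le.1 hu) h1.symm
          refine Or.inr ⟨(y, u), ?_, h1⟩
          show y = ex (2 * RBM.gs (2 * u)) ∨ y = -ex (2 * RBM.gs (2 * u))
          rw [FouS_gs hu]
          exact hq'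
    · have hrc : ∀ x, x ∈ Y ∪ β '' Ss → ∃ l, c l = x := by
        intro x hx
        rw [← hr] at hx
        exact hx
      rintro (hz | ⟨⟨y, u⟩, hq, hx⟩)
      · obtain ⟨l, hl⟩ := hrc x (Or.inl hz)
        refine ⟨l, ?_⟩
        show (M (c l, 1)).1 = x
        rw [hB l (fun y u _ _ he => hY (y, u) (by
          rw [← he, hl]
          exact hz))]
        exact hl
      · have hq' : y = ex (2 * RBM.gs (2 * u)) ∨ y = -ex (2 * RBM.gs (2 * u)) := hq
        by_cases hu : |u| < 1 / 16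
        · rcases hq' with rfl | rfl
          · obtain ⟨l, hl⟩ := (hS (1, u)).2 (Or.inl rfl)
            refine ⟨l, ?_⟩
            show (M (c l, 1)).1 = x
            rw [hl, hA 1 u (Or.inl rfl) hu, mul_one]
            exact hx
          · obtain ⟨l, hl⟩ := (hS (-1, u)).2 (Or.inr rfl)
            refine ⟨l, ?_⟩
            show (M (c l, 1)).1 = x
            rw [hl, hA (-1) u (Or.inr rfl) hu, mul_neg, mul_one]
            exact hx
        · rw [FouS_gs (not_lt.1 hu)] at hq'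
          obtain ⟨l, hl⟩ := (hS (y, u)).2 hq'
          refine ⟨l, ?_⟩
          show (M (c l, 1)).1 = x
          rw [hB l (fun y' u' _ hu' he => hu (by
            have h3 := hβ.inj (hl.symm.trans he)
            rw [show u = u' from congrArg Prod.snd h3]
            exact hu'))]
          exact hl.trans hx
  · intro l
    rw [hκc' l]
    exact hsnd l

theorem FouN_fwd [T2Space N] {J : (ℝ × ℂ × ℝ → N × Circle) → ℝ × ℂ × ℝ → ℝ} (hJ : OrP IN J)
    {κ₀ : ℝ × ℂ × ℝ → N × Circle} {Z : Set N} {b : E → N}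
    (hb : Cht Dom b) (hZ : Disjoint Z (b '' Dom)) (h : IsC.{v} κ₀ (Z ∪ b '' Str)) :
    IsC.{v} κ₀ (Z ∪ b '' KNT.Str2) := by
  rw [str_eq] at h
  have hE := bx_emb hb
  have hY := bx_dis hb.inj hZ
  have h1 := four_stepN hJ hE hY h
  obtain ⟨F, hF, hFb, hFo⟩ := exists_ext hE FouR_move
  have h2 := isC_map hF h1
  have hYF : ∀ x ∈ Z ∪ b '' Rem, F x = x := by
    intro x hx
    apply hFo
    rintro ⟨q, rfl⟩
    exact hY q hx
  have hset : F '' ((Z ∪ b '' Rem) ∪ bx b '' Ss2) = Z ∪ b '' KNT.Str2 := by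
    ext x
    constructor
    · rintro ⟨y, hy, rfl⟩
      rcases hy with hy | ⟨⟨ζ, u⟩, hq, rfl⟩
      · rw [hYF y hy]
        rcases hy with hy | ⟨⟨ζ, s⟩, ⟨⟨hq1, hq2⟩, hq3⟩, rfl⟩
        · exact Or.inl hy
        · refine Or.inr ⟨(ζ, s), ⟨?_, hq2⟩, rfl⟩
          have h3 : 3 / 4 < |s| := by
            by_contra h4
            obtain ⟨u, -, hu⟩ := hr_surj (not_lt.1 h4)
            exact hq3 u hu
          have h5 : ex (2 * KNT.gs s) = 1 := FouR_gs (s := s) (by linarith)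
          show ζ = ex (2 * KNT.gs s) ∨ ζ = -ex (2 * KNT.gs s)
          rw [h5]
          exact hq1
      · have hq' : ζ = ex (2 * RBM.gs (2 * u)) ∨ ζ = -ex (2 * RBM.gs (2 * u)) := hq
        have hn := FouR_unit hq'
        rw [hFb, FouR_val hn]
        have hn2 : ‖ex (FouR_th u) * ζ‖ = 1 := by rw [norm_mul, RSG.ex_norm, hn, one_mul]
        refine Or.inr ⟨(ex (FouR_th u) * ζ, hr u), ⟨?_, ?_⟩, ?_⟩
        · show ex (FouR_th u) * ζ = ex (2 * RBM.gs (hr u)) ∨ ex (FouR_th u) * ζ = -ex (2 * RBM.gs (hr u))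
          rcases hq' with hq' | hq'
          · left
            rw [hq', FouR_mul]
          · right
            rw [hq', mul_neg, FouR_mul]
        · have := hr_lt u
          show |hr u| < 1
          linarith
        · show b (ex (FouR_th u) * ζ, hr u) = b (Rr (ex (FouR_th u) * ζ), hr u)
          rw [Rr_of_norm hn2]
    · rintro (hx | ⟨⟨ζ, s⟩, ⟨hq1, hq2⟩, rfl⟩)
      · exact ⟨x, Or.inl (Or.inl hx), hYF x (Or.inl hx)⟩
      · have hq' : ζ = ex (2 * RBM.gs s) ∨ ζ = -ex (2 * RBM.gs s) := hq1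
        by_cases hu : ∃ u, hr u = s
        · obtain ⟨u, rfl⟩ := hu
          have hn := FouR_unit hq'
          -- the preimage
          have hpre : ∃ ξ : ℂ, (ξ = ex (2 * RBM.gs (2 * u)) ∨ ξ = -ex (2 * RBM.gs (2 * u))) ∧
              ex (FouR_th u) * ξ = ζ := by
            rcases hq' with hq' | hq'
            · exact ⟨_, Or.inl rfl, by rw [FouR_mul, hq']⟩
            · exact ⟨_, Or.inr rfl, by rw [mul_neg, FouR_mul, hq']⟩
          obtain ⟨ξ, hξ, hξζ⟩ := hpre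
          refine ⟨bx b (ξ, u), Or.inr ⟨(ξ, u), hξ, rfl⟩, ?_⟩
          rw [hFb, FouR_val (FouR_unit hξ), hξζ]
          show b (Rr ζ, hr u) = b (ζ, hr u)
          rw [Rr_of_norm hn]
        · have h3 : 3 / 4 < |s| := by
            by_contra h4
            obtain ⟨u, -, hu'⟩ := hr_surj (not_lt.1 h4)
            exact hu ⟨u, hu'⟩
          rw [FouR_gs (by linarith)] at hq'
          have h5 : b (ζ, s) ∈ Z ∪ b '' Rem :=
            Or.inr ⟨(ζ, s), ⟨⟨hq', hq2⟩, fun u hu' => hu ⟨u, hu'⟩⟩, rfl⟩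
          exact ⟨b (ζ, s), Or.inl h5, hYF _ h5⟩
  rwa [hset] at h2

theorem FouN_J_ld (q : ℂ × ℝ) : IsLocalDiffeomorphAt 𝓘(ℝ, ℂ × ℝ) 𝓘(ℝ, ℂ × ℝ) ∞ FouR_J q := by
  refine CSG.ld_of_fderiv (Eventually.of_forall fun y => FouR_J_smooth.contDiffAt) rfl ?_
  intro v hv
  exact FouR_J_imm q (by rw [hv, map_zero])

theorem FouN_cht {b : E → N} (hb : Cht Dom b) : Cht Dom (b ∘ FouR_J) := by
  refine ⟨hb.opn, ?_, ?_⟩
  · intro q hq
    exact IsLocalDiffeomorphAt.comp (hf := FouN_J_ld q) (g := b) (hg := hb.loc _ (FouR_J_dom hq)) ..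
  · intro q hq q' hq' h
    have h1 := hb.inj (FouR_J_dom hq) (FouR_J_dom hq') h
    rw [← FouR_JJ q, h1, FouR_JJ]

theorem isC_four [T2Space N] {J : (ℝ × ℂ × ℝ → N × Circle) → ℝ × ℂ × ℝ → ℝ} (hJ : OrP IN J)
    {κ₀ : ℝ × ℂ × ℝ → N × Circle} {Z : Set N}
    {b : E → N} (hb : Cht Dom b) (hZ : Disjoint Z (b '' Dom)) :
    IsC.{v} κ₀ (Z ∪ b '' Str) ↔ IsC.{v} κ₀ (Z ∪ b '' KNT.Str2) := by
  constructor
  · exact FouN_fwd hJ hb hZ
  · intro h
    have h1 : (b ∘ FouR_J) '' Str = b '' KNT.Str2 := by rw [image_comp, FouR_J_str]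
    have h2 : (b ∘ FouR_J) '' KNT.Str2 = b '' Str := by
      rw [image_comp, ← FouR_J_str, FouR_J_image]
    have h3 : (b ∘ FouR_J) '' Dom ⊆ b '' Dom := by
      rintro _ ⟨q, hq, rfl⟩
      exact ⟨FouR_J q, FouR_J_dom hq, rfl⟩
    have h4 := FouN_fwd hJ (FouN_cht hb) (hZ.mono_right h3) (κ₀ := κ₀)
    rw [h1, h2] at h4
    exact h4 h

end

end Pool.Agent.NHB
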