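import Pool.Agent.NHB.ThnN
import Pool.Agent.KNH.HomM
import Pool.Agent.KNH.CorM
import Pool.Agent.KNH.SwM

/-!
# NHB/HomN: the hypotheses of the ribbon homotopy theorem, in `N × Circle`

The proof of KNH/HomM, with `Mp = Mvp β`, and the core of the new thick torus (KNH/CorM).
-/

open scoped Manifold ContDiff Topology
open Set Filter
open Complex (I)
open Pool.Agent.CSG (stp)
open Pool.Agent.RSG (E3 E4 S4 ex cj Thick OnKnot IsRollGluck)
open Pool.Agent.RBM (ThickT TwinP OnT Box Bundle frc)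
open Pool.Agent.COR (Equi EquiB TwoStrands half)
open Pool.Agent.KNT (Dom Str Str2)
open Pool.Agent.KNH (Rr hr Ss Ss2 Rem swp swp_box swp_out swap_bundle HomM_half CorM_surj)
open Pool.Agent.RBN (IN circ prd pb circ_add circ_zero circ_int circ_eq circ_per circ_ld circ_smooth TubeHom ThinOK Mov)
open Pool.Agent.NHP (E Cht Push TubesN LEqN core)

namespace Pool.Agent.NHB

universe v

section
variable {N : Type*} [TopologicalSpace N] [ChartedSpace E3 N]

theorem rib_homN {β : ℝ → E → N} {Y : Set N} (h : Fam β Y) {w₀ δ : ℝ} {σ ε₁ ε₂ : ℝ} (hσ : σ = 1 ∨ σ = -1)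
    (hw : ThinOK (bb β σ) w₀ δ) {κ : ℝ × ℂ × ℝ → N × Circle}
    (hb : Bundle IN κ (half σ (pb fun q => β 0 (thn w₀ q))) ε₁ ε₂)
    (hr : ∀ (l : ℝ) (v : ℂ) (t : ℝ), ‖v‖ < 1 → RBH.Rest l →
      (κ (l, v, t)).1 ∉ Mvp β ∪ (fun q => β 1 (thn w₀ q)) '' {q | ‖q.1‖ ≤ 5 ∧ |q.2| ≤ 1 / 4} ∨
      ∃ (z : ℂ) (s t' : ℝ), ‖z‖ < 4 ∧ 1 / 2 ≤ |s| ∧ |s| < 1 ∧
        κ (l, v, t) = pb (fun q => β 0 (thn w₀ q)) (z, s, t'))
    {G : Equiv.Perm (N × Circle)} (hG1 : ∀ p, IsLocalDiffeomorphAt IN IN ∞ G p)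
    (hG2 : ∀ p : N × Circle, p.1 ∉ Mvp β → G p = p)
    (hG3 : ∀ (z : ℂ) (s t : ℝ), ‖z‖ ≤ 13 / 4 → |s| < 1 → 1 / 2 - 2 * δ ≤ |frc (t - s / 4)| →
        G (half σ (pb fun q => β 0 (thn w₀ q)) (z, s, t)) = half σ (pb fun q => β 1 (thn w₀ q)) (z, s, t)) :
    RBH.RibHom IN κ
      (swp (half σ (pb fun q => β 0 (thn w₀ q))) (half σ (pb fun q => β 1 (thn w₀ q))) κ)
      (half σ (pb fun q => β 0 (thn w₀ q))) (half σ (pb fun q => β 1 (thn w₀ q))) ε₁ ε₂ (fun s => s / 4) δ G := by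
  have hE1 : Emb fun q => β 1 (thn w₀ q) := thn_emb (fam_emb1 h) hw.w_pos hw.w_le
  have hB' : Box IN (half σ (pb fun q => β 1 (thn w₀ q))) 4 := HomM_half (pb_box hE1 4) hσ
  -- the two charts agree for `1/8 ≤ |u|`
  have hag : ∀ q : ℂ × ℝ, 1 / 8 ≤ |q.2| → β 1 (thn w₀ q) = β 0 (thn w₀ q) := by
    intro q hq
    exact h.ends 1 ⟨zero_le_one, le_rfl⟩ (thn w₀ q) hq
  have hagp : ∀ (z : ℂ) (s t : ℝ), 1 / 8 ≤ |s| →
      pb (fun q => β 1 (thn w₀ q)) (z, s, t) = pb (fun q => β 0 (thn w₀ q)) (z, s, t) := by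
    intro z s t hs
    unfold pb
    simp only
    rw [hag (z, s) hs]
  have habs : ∀ s : ℝ, |s / 2| = |s| / 2 := ThnN_abs
  have hends : ∀ (z : ℂ) (s t : ℝ), ‖z‖ < 4 → 1 / 4 ≤ |s| → |s| < 1 →
      half σ (pb fun q => β 1 (thn w₀ q)) (z, s, t) = half σ (pb fun q => β 0 (thn w₀ q)) (z, s, t) := by
    intro z s t _ hs _
    refine hagp _ _ _ ?_
    rw [habs]
    linarith
  have hrest : ∀ (l : ℝ) (v : ℂ) (t : ℝ), ‖v‖ < 1 → RBH.Rest l → ∀ (z : ℂ) (s t' : ℝ), ‖z‖ < 4 → |s| < 1 →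
      κ (l, v, t) ≠ half σ (pb fun q => β 1 (thn w₀ q)) (z, s, t') := by
    intro l v t hv hl z s t' hz hs he
    have he' : κ (l, v, t) = pb (fun q => β 1 (thn w₀ q)) (cj σ z, s / 2, t') := he
    rcases hr l v t hv hl with h1 | ⟨z₂, s₂, t₂, h2, h3, h4, h5⟩
    · have h6 : 1 / 4 < |s / 2| := by
        by_contra hc
        apply h1
        refine Or.inr ⟨(cj σ z, s / 2), ⟨?_, not_lt.1 hc⟩, ?_⟩
        · show ‖cj σ z‖ ≤ 5
          rw [RSG.cj_norm hσ]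
          linarith
        · rw [he']
          rfl
      refine hb.rest l v t hv hl z s t' hz hs ?_
      rw [he', hagp _ _ _ (by linarith)]
      rfl
    · rw [h5, ← hagp _ _ _ (by linarith)] at he'
      have h6 : β 1 (thn w₀ (z₂, s₂)) = β 1 (thn w₀ (cj σ z, s / 2)) := congrArg Prod.fst he'
      have h7 := hE1.inj h6
      have h8 : s₂ = s / 2 := congrArg Prod.snd h7
      rw [h8, habs] at h3
      linarith
  obtain ⟨hbun', hRest⟩ := swap_bundle hb hB' hends hrest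
  have hfix : ∀ (z : ℂ) (s t : ℝ), 1 / 4 ≤ |s| →
      G (pb (fun q => β 0 (thn w₀ q)) (z, s, t)) = pb (fun q => β 0 (thn w₀ q)) (z, s, t) :=
    fun z s t hs => hG2 _ (mvp_out h (q := thn w₀ (z, s)) hs)
  exact
    { bun := hb
      bun' := hbun'
      tau := contDiff_id.div_const 4
      pos := hw.d_pos
      G_ld := hG1
      G_rest := by
        intro l v t hv hl
        rw [hRest l v t hv hl]
        rcases hr l v t hv hl with h1 | ⟨z₂, s₂, t₂, h2, h3, h4, h5⟩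
        · exact hG2 _ fun hm => h1 (Or.inl hm)
        · rw [h5]
          exact hfix z₂ s₂ t₂ (by linarith)
      G_ends := by
        intro z s t hz hs hs1
        rw [hends z s t hz (by linarith) hs1]
        refine hfix _ _ _ ?_
        rw [habs]
        linarith
      G_hole := hG3 }

omit [TopologicalSpace N] [ChartedSpace E3 N] in
theorem HomN_rot (B : E → N) (σ : ℝ) (z : ℂ) (s t u : ℝ) :
    half σ (pb B) (z, s, t + u) = rot u (half σ (pb B) (z, s, t)) := by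
  show ((B (cj σ z, s / 2), circ (t + u)) : N × Circle) = (B (cj σ z, s / 2), circ t * circ u)
  rw [circ_add]

omit [TopologicalSpace N] [ChartedSpace E3 N] in
theorem HomN_rot_inj {u : ℝ} {p q : N × Circle} (h : rot u p = rot u q) : p = q := by
  have h1 : (rot u p).1 = (rot u q).1 := by rw [h]
  have h2 : (rot u p).2 = (rot u q).2 := by rw [h]
  have h1 : p.1 = q.1 := h1
  have h2 : p.2 * circ u = q.2 * circ u := h2
  exact Prod.ext h1 (mul_right_cancel h2)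

theorem core_swapN {β : ℝ → E → N} {Y : Set N} (h : Fam β Y) {w₀ : ℝ} (hw0 : 0 < w₀) (hw1 : w₀ ≤ 1)
    {σ ε₁ ε₂ : ℝ} (hσ : σ = 1 ∨ σ = -1) {κ : ℝ × ℂ × ℝ → N × Circle}
    (hb : Bundle IN κ (half σ (pb fun q => β 0 (thn w₀ q))) ε₁ ε₂) (heq : Equi rot κ)
    {c : ℝ → N} {φ : ℝ → ℝ} (hφ : Continuous φ) (hφ1 : ∀ l, φ (l + 1) = φ l + 1)
    (hcore : ∀ l, κ (l, 0, 0) = (c (φ l), 1))
    (hc : range c = Y ∪ (fun q => β 0 (thn w₀ q)) '' Ss) :
    Equi rot (swp (half σ (pb fun q => β 0 (thn w₀ q))) (half σ (pb fun q => β 1 (thn w₀ q))) κ) ∧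
    ∃ c' : ℝ → N, range c' = Y ∪ (fun q => β 1 (thn w₀ q)) '' Ss ∧
      ∀ l, swp (half σ (pb fun q => β 0 (thn w₀ q))) (half σ (pb fun q => β 1 (thn w₀ q))) κ (l, 0, 0) =
        (c' l, 1) := by
  set B₀ : E → N := fun q => β 0 (thn w₀ q) with hB₀
  set B₁ : E → N := fun q => β 1 (thn w₀ q) with hB₁
  have hE1 : Emb B₁ := thn_emb (fam_emb1 h) hw0 hw1
  have hi0 : Function.Injective B₀ := (thn_emb (fam_emb0 h) hw0 hw1).inj
  have hbox : Box IN (half σ (pb B₀)) 4 := hb.box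
  have hbox' : Box IN (half σ (pb B₁)) 4 := HomM_half (pb_box hE1 4) hσ
  have hend : ∀ q : ℂ × ℝ, 1 / 8 ≤ |q.2| → B₁ q = B₀ q := fun q hq =>
    h.ends 1 ⟨zero_le_one, le_rfl⟩ (thn w₀ q) hq
  have hY0 : ∀ q, B₀ q ∉ Y := fun q => h.dis 0 ⟨le_rfl, zero_le_one⟩ _
  -- the value in the box
  have hbv : ∀ (B : E → N) (z : ℂ) (s t : ℝ),
      half σ (pb B) (z, s, t) = (B (cj σ z, s / 2), circ t) := fun _ _ _ _ => rfl
  have hin : ∀ q : ℂ × ℝ, ‖q.1‖ = 1 → |q.2| < 1 / 2 → ‖cj σ q.1‖ < 4 ∧ |2 * q.2| < 1 ∧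
      ∀ B : E → N, half σ (pb B) (cj σ q.1, 2 * q.2, 0) = (B q, 1) := by
    intro q h1 h2
    refine ⟨by rw [RSG.cj_norm hσ, h1]; norm_num, by rw [abs_mul, abs_two]; linarith, fun B => ?_⟩
    rw [hbv, RSG.cj_cj hσ, mul_div_cancel_left₀ _ (two_ne_zero' ℝ), circ_zero]
  have hSs : ∀ q ∈ Ss, ‖q.1‖ = 1 := by
    rintro q (h1 | h1) <;> rw [h1] <;> simp
  refine ⟨?_, ?_⟩
  · intro l v t
    by_cases hc1 : ∃ (z : ℂ) (s t' : ℝ), ‖z‖ < 4 ∧ |s| < 1 ∧ κ (l, v, 0) = half σ (pb B₀) (z, s, t')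
    · obtain ⟨z, s, t', hz, hs, he⟩ := hc1
      have he2 : κ (l, v, t) = half σ (pb B₀) (z, s, t' + t) := by
        rw [heq l v t, he, HomN_rot]
      rw [swp_box hbox hbox' hz hs he, swp_box hbox hbox' hz hs he2, HomN_rot]
    · have h0 : ∀ (z : ℂ) (s t' : ℝ), ‖z‖ < 4 → |s| < 1 → κ (l, v, 0) ≠ half σ (pb B₀) (z, s, t') :=
        fun z s t' hz hs he => hc1 ⟨z, s, t', hz, hs, he⟩
      have h1 : ∀ (z : ℂ) (s t' : ℝ), ‖z‖ < 4 → |s| < 1 → κ (l, v, t) ≠ half σ (pb B₀) (z, s, t') := by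
        intro z s t' hz hs he
        apply h0 z s (t' - t) hz hs
        apply HomN_rot_inj (u := t)
        rw [← HomN_rot, sub_add_cancel, ← he, ← heq]
      rw [swp_out h0, swp_out h1]
      exact heq l v t
  · have hcase : ∀ l, (∃ q : ℂ × ℝ, q ∈ Ss ∧ |q.2| < 1 / 2 ∧ c (φ l) = B₀ q ∧
        swp (half σ (pb B₀)) (half σ (pb B₁)) κ (l, 0, 0) = (B₁ q, 1)) ∨
        ((∀ q ∈ Ss, |q.2| < 1 / 2 → c (φ l) ≠ B₀ q) ∧
        swp (half σ (pb B₀)) (half σ (pb B₁)) κ (l, 0, 0) = (c (φ l), 1)) := by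
      intro l
      by_cases hc1 : ∃ (z : ℂ) (s t' : ℝ), ‖z‖ < 4 ∧ |s| < 1 ∧ κ (l, 0, 0) = half σ (pb B₀) (z, s, t')
      · obtain ⟨z, s, t', hz, hs, he⟩ := hc1
        left
        have he2 := he
        rw [hcore, hbv] at he2
        have e1 : c (φ l) = B₀ (cj σ z, s / 2) := congrArg Prod.fst he2
        have e2 : 1 = circ t' := congrArg Prod.snd he2
        refine ⟨(cj σ z, s / 2), ?_, ?_, e1, ?_⟩
        · have h1 : c (φ l) ∈ Y ∪ B₀ '' Ss := by rw [← hc]; exact mem_range_self _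
          rw [e1] at h1
          rcases h1 with hy | ⟨q, hq, hy⟩
          · exact absurd hy (hY0 _)
          · rw [← hi0 hy]
            exact hq
        · show |s / 2| < 1 / 2
          rw [abs_div, abs_two]
          linarith
        · rw [swp_box hbox hbox' hz hs he, hbv, ← e2]
      · right
        have h0 : ∀ (z : ℂ) (s t' : ℝ), ‖z‖ < 4 → |s| < 1 → κ (l, 0, 0) ≠ half σ (pb B₀) (z, s, t') :=
          fun z s t' hz hs he => hc1 ⟨z, s, t', hz, hs, he⟩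
        refine ⟨?_, ?_⟩
        · intro q hq hq2 he
          obtain ⟨a1, a2, a3⟩ := hin q (hSs q hq) hq2
          apply h0 (cj σ q.1) (2 * q.2) 0 a1 a2
          rw [a3, hcore, he]
        · rw [swp_out h0, hcore]
    refine ⟨fun l => (swp (half σ (pb B₀)) (half σ (pb B₁)) κ (l, 0, 0)).1, ?_, ?_⟩
    · apply Subset.antisymm
      · rintro _ ⟨l, rfl⟩
        show (swp (half σ (pb B₀)) (half σ (pb B₁)) κ (l, 0, 0)).1 ∈ _
        rcases hcase l with ⟨q, hq, -, -, e⟩ | ⟨hno, e⟩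
        · rw [e]
          exact Or.inr ⟨q, hq, rfl⟩
        · rw [e]
          show c (φ l) ∈ _
          have h1 : c (φ l) ∈ Y ∪ B₀ '' Ss := by rw [← hc]; exact mem_range_self _
          rcases h1 with hy | ⟨q, hq, hy⟩
          · exact Or.inl hy
          · rcases lt_or_ge |q.2| (1 / 2) with h2 | h2
            · exact absurd hy.symm (hno q hq h2)
            · rw [← hy, ← hend q (by linarith)]
              exact Or.inr ⟨q, hq, rfl⟩
      · intro x hx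
        -- every point of the old knot is a value
        have hval : ∀ y ∈ Y ∪ B₀ '' Ss, ∃ l, c (φ l) = y := by
          intro y hy
          rw [← hc] at hy
          obtain ⟨u, rfl⟩ := hy
          obtain ⟨l, rfl⟩ := CorM_surj hφ hφ1 u
          exact ⟨l, rfl⟩
        rcases hx with hy | ⟨q, hq, hy⟩
        · obtain ⟨l, hl⟩ := hval x (Or.inl hy)
          refine ⟨l, ?_⟩
          show (swp (half σ (pb B₀)) (half σ (pb B₁)) κ (l, 0, 0)).1 = x
          rcases hcase l with ⟨q, -, -, e, -⟩ | ⟨-, e⟩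
          · rw [hl] at e
            exact absurd (e ▸ hy) (hY0 q)
          · rw [e]; exact hl
        · obtain ⟨l, hl⟩ := hval (B₀ q) (Or.inr ⟨q, hq, rfl⟩)
          refine ⟨l, ?_⟩
          show (swp (half σ (pb B₀)) (half σ (pb B₁)) κ (l, 0, 0)).1 = x
          rcases hcase l with ⟨q', -, -, e1, e⟩ | ⟨hno, e⟩
          · rw [hl] at e1
            rw [e, ← hy, hi0 e1]
          · rw [e, ← hy]
            show c (φ l) = B₁ q
            rcases lt_or_ge |q.2| (1 / 2) with h2 | h2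
            · exact absurd hl (hno q hq h2)
            · rw [hend q (by linarith)]
              exact hl
    · intro l
      show swp (half σ (pb B₀)) (half σ (pb B₁)) κ (l, 0, 0) =
        ((swp (half σ (pb B₀)) (half σ (pb B₁)) κ (l, 0, 0)).1, 1)
      rcases hcase l with ⟨q, -, -, -, e⟩ | ⟨-, e⟩ <;> rw [e]

end

end Pool.Agent.NHB
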