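import Pool.Agent.NHB.Dcv

/-!
# NHB/Oex: existence of an orientation

`N` path connected, `x₀` a point.  If every homomorphism from the fundamental group to the group `ℤˣ = {1, -1}` that kills the class of
the core of the thick knot `κ` is trivial, then `N` is orientable.
-/

open scoped Manifold ContDiff Topology
open Set Filter
open Pool.Agent.RSG (E3 Thick)
open Pool.Agent.NHP (E)

namespace Pool.Agent.NHB

section
variable {N : Type*} [TopologicalSpace N] [ChartedSpace E3 N]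

theorem Oex_swap_ld {κ : ℝ × ℂ → N} (hκ : Thick κ) {v : ℂ} (hv : ‖v‖ < 1) (l : ℝ) :
    Ldn (fun q : E => κ (q.2, q.1)) (v, l) := by
  have h1 : IsLocalDiffeomorphAt 𝓘(ℝ, ℂ × ℝ) 𝓘(ℝ, ℝ × ℂ) ∞ (Equiv.prodComm ℂ ℝ) (v, l) := by
    refine CSG.ld_of_perm ?_ ?_ (v, l)
    · exact contDiff_snd.prodMk contDiff_fst
    · exact contDiff_snd.prodMk contDiff_fst
  exact IsLocalDiffeomorphAt.comp (hf := h1) (g := κ) (hg := hκ.loc l v hv) ..

/-- the core of a thick knot, as a loop at `κ (0, 0)` -/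
noncomputable def coreLoop {κ : ℝ × ℂ → N} (hκ : Thick κ) : Path (κ (0, 0)) (κ (0, 0)) where
  toFun t := κ (t, 0)
  continuous_toFun := by
    rw [continuous_iff_continuousAt]
    intro t
    have h1 : ContinuousAt κ ((t : ℝ), 0) := CSG.ld_continuousAt (hκ.loc (t : ℝ) 0 (by simp))
    exact h1.comp (f := fun t : unitInterval => ((t : ℝ), (0 : ℂ))) (by fun_prop)
  source' := by simp
  target' := by
    have := hκ.per 0 0
    simpa using this

variable [IsManifold (𝓡 3) ∞ N]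

theorem mono_path {x y : N} (c : Path x y) {s s' : ℤˣ} (Γ : Path (⟨x, s⟩ : Dc N) ⟨y, s'⟩) (h : ∀ t, (Γ t).pt = c t) :
    pt_cover.monodromy (Path.Homotopic.Quotient.mk c) ⟨⟨x, s⟩, rfl⟩ = ⟨⟨y, s'⟩, rfl⟩ := by
  have h1 := pt_cover.monodromy_map (Path.Homotopic.Quotient.mk Γ)
  have h2 : (Path.Homotopic.Quotient.mk Γ).map ⟨Dc.pt, pt_cover.continuous⟩ = Path.Homotopic.Quotient.mk c := by
    refine congrArg Path.Homotopic.Quotient.mk ?_
    ext t
    exact h t
  rw [h2] at h1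
  exact h1

theorem mono_sec {Φ : E → N} (q : C(unitInterval, E)) (hq : ∀ t, Ldn Φ (q t)) {x y : N} (c : Path x y)
    (hc : ∀ t, c t = Φ (q t)) (s : ℤˣ) :
    pt_cover.monodromy (Path.Homotopic.Quotient.mk c) ⟨⟨x, s⟩, rfl⟩ =
      ⟨⟨y, s * rl Φ (q 0) * rl Φ (q 1)⟩, rfl⟩ := by
  have hx : x = Φ (q 0) := by rw [← hc 0]; simp
  have hy : y = Φ (q 1) := by rw [← hc 1]; simp
  have hcont : Continuous fun t => sec Φ (s * rl Φ (q 0)) (q t) := by
    rw [continuous_iff_continuousAt]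
    intro t
    exact (sec_continuousAt (hq t) _).comp q.continuous.continuousAt
  refine mono_path c (s := s) (s' := s * rl Φ (q 0) * rl Φ (q 1)) ⟨⟨_, hcont⟩, ?_, ?_⟩ ?_
  · show sec Φ (s * rl Φ (q 0)) (q 0) = ⟨x, s⟩
    unfold sec
    rw [← hx, mul_assoc, u_sq, mul_one]
  · show sec Φ (s * rl Φ (q 0)) (q 1) = ⟨y, _⟩
    unfold sec
    rw [← hy]
  · intro t
    exact (hc t).symm

theorem mono_core {κ : ℝ × ℂ → N} (hκ : Thick κ) (s : ℤˣ) :
    pt_cover.monodromy (Path.Homotopic.Quotient.mk (coreLoop hκ)) ⟨⟨κ (0, 0), s⟩, rfl⟩ = ⟨⟨κ (0, 0), s⟩, rfl⟩ := by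
  set Φ : E → N := fun q => κ (q.2, q.1) with hΦ
  have h1 := mono_sec (Φ := Φ) ⟨fun t : unitInterval => ((0 : ℂ), (t : ℝ)), by fun_prop⟩
    (fun t => Oex_swap_ld hκ (by simp) _) (coreLoop hκ) (fun t => rfl) s
  rw [h1]
  have h2 : rl Φ ((0 : ℂ), (0 : ℝ)) = rl Φ ((0 : ℂ), (1 : ℝ)) := by
    have e0 : Φ ((0 : ℂ), (0 : ℝ)) = Φ ((0 : ℂ), (1 : ℝ)) := by
      have := hκ.per 0 0
      simp only [hΦ]
      rw [← this]; norm_num
    have h3 : Rl Φ ((0 : ℂ), (0 : ℝ)) Φ ((0 : ℂ), (1 : ℝ)) (rs 1) := by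
      rw [rs_one]
      have hd : ∀ x : E, HasFDerivAt (fun q : E => (q.1, q.2 + 1)) (ContinuousLinearMap.id ℝ E) x := by
        intro x
        have e1 := (hasFDerivAt_id (𝕜 := ℝ) x).add_const ((0 : ℂ), (1 : ℝ))
        refine e1.congr_of_eventuallyEq (Filter.Eventually.of_forall fun q => ?_)
        show (q.1, q.2 + 1) = q + (0, 1)
        ext <;> simp
      refine ⟨fun q => (q.1, q.2 + 1), by simp, ?_, ?_, ?_⟩
      · refine CSG.ld_of_perm (f := (Equiv.refl ℂ).prodCongr (Equiv.addRight (1 : ℝ))) ?_ ?_ _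
        · exact contDiff_fst.prodMk (contDiff_snd.add contDiff_const)
        · exact contDiff_fst.prodMk (contDiff_snd.add contDiff_const)
      · refine Filter.Eventually.of_forall fun q => ?_
        show κ (q.2, q.1) = κ (q.2 + 1, q.1)
        rw [hκ.per]
      · unfold dd
        rw [(hd _).fderiv]
        simp
    rw [rl_of (Oex_swap_ld hκ (by simp) _) (Oex_swap_ld hκ (by simp) _) e0 h3, one_mul]
  refine Subtype.ext ?_
  show (⟨κ (0, 0), s * rl Φ ((0 : ℂ), ((0 : unitInterval) : ℝ)) * rl Φ ((0 : ℂ), ((1 : unitInterval) : ℝ))⟩ : Dc N) = _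
  congr 1
  simp only [Set.Icc.coe_zero, Set.Icc.coe_one]
  rw [← h2, mul_assoc, u_sq, mul_one]

section
variable (x₀ : N)

/-- the base point of the double covering -/
def bpt : (Dc.pt : Dc N → N) ⁻¹' {x₀} := ⟨⟨x₀, 1⟩, rfl⟩

/-- the orientation character -/
noncomputable def och : FundamentalGroup N x₀ →* ℤˣ where
  toFun γ := (pt_isQuotientCoveringMap.fundamentalGroupToMulOpposite (bpt x₀) γ).unop
  map_one' := congrArg MulOpposite.unop (map_one (pt_isQuotientCoveringMap.fundamentalGroupToMulOpposite (bpt x₀)))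
  map_mul' a b := by
    rw [map_mul, MulOpposite.unop_mul, mul_comm]

theorem och_one_iff (γ : FundamentalGroup N x₀) : och x₀ γ = 1 ↔ pt_cover.monodromy γ (bpt x₀) = bpt x₀ := by
  rw [← pt_isQuotientCoveringMap.fundamentalGroupToMulOpposite_eq_one_iff]
  exact MulOpposite.unop_eq_one_iff _

theorem mono_eq (h : och x₀ = 1) {x : N} (γ γ' : Path.Homotopic.Quotient x₀ x) :
    pt_cover.monodromy γ (bpt x₀) = pt_cover.monodromy γ' (bpt x₀) := by
  have h1 : pt_cover.monodromy (γ.trans γ'.symm) (bpt x₀) = bpt x₀ := by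
    rw [← och_one_iff x₀ (FundamentalGroup.fromPath (γ.trans γ'.symm)), h]
    rfl
  have h2 : pt_cover.monodromy (γ'.trans γ'.symm) (bpt x₀) = bpt x₀ := by
    rw [← och_one_iff x₀ (FundamentalGroup.fromPath (γ'.trans γ'.symm)), h]
    rfl
  rw [pt_cover.monodromy_trans_apply] at h1 h2
  exact (pt_cover.monodromy_bijective γ'.symm).1 (h1.trans h2.symm)

variable [PathConnectedSpace N]

/-- the orientation at the point `x` -/
noncomputable def opt (x : N) : ℤˣ :=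
  (pt_cover.monodromy (Path.Homotopic.Quotient.mk (PathConnectedSpace.somePath x₀ x)) (bpt x₀)).1.sg

theorem mono_opt (h : och x₀ = 1) {x : N} (γ : Path.Homotopic.Quotient x₀ x) :
    pt_cover.monodromy γ (bpt x₀) = ⟨⟨x, opt x₀ x⟩, rfl⟩ := by
  rw [mono_eq x₀ h γ (Path.Homotopic.Quotient.mk (PathConnectedSpace.somePath x₀ x))]
  refine Subtype.ext ?_
  refine Dc.ext ?_ rfl
  exact (pt_cover.monodromy (Path.Homotopic.Quotient.mk (PathConnectedSpace.somePath x₀ x)) (bpt x₀)).2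

theorem opt_step (h : och x₀ = 1) {Φ : E → N} (q : C(unitInterval, E)) (hq : ∀ t, Ldn Φ (q t)) :
    opt x₀ (Φ (q 1)) * rl Φ (q 1) = opt x₀ (Φ (q 0)) * rl Φ (q 0) := by
  have hc : Continuous fun t => Φ (q t) := by
    rw [continuous_iff_continuousAt]
    intro t
    exact (CSG.ld_continuousAt (hq t)).comp q.continuous.continuousAt
  set c : Path (Φ (q 0)) (Φ (q 1)) := ⟨⟨fun t => Φ (q t), hc⟩, rfl, rfl⟩ with hcc
  have h1 := mono_sec q hq c (fun t => rfl) (opt x₀ (Φ (q 0)))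
  have h2 := mono_opt x₀ h (Path.Homotopic.Quotient.mk (PathConnectedSpace.somePath x₀ (Φ (q 0))))
  have h3 := mono_opt x₀ h ((Path.Homotopic.Quotient.mk (PathConnectedSpace.somePath x₀ (Φ (q 0)))).trans
    (Path.Homotopic.Quotient.mk c))
  rw [pt_cover.monodromy_trans_apply, h2, h1] at h3
  have h4 := congrArg (fun p => p.1.sg) h3
  have h5 : opt x₀ (Φ (q 0)) * rl Φ (q 0) * rl Φ (q 1) = opt x₀ (Φ (q 1)) := h4
  rw [← h5, mul_assoc _ (rl Φ (q 1)) (rl Φ (q 1)), u_sq, mul_one]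

/-- the orientation -/
theorem orn_of (h : och x₀ = 1) : Orn (N := N) fun Φ q => rs (opt x₀ (Φ q) * rl Φ q) where
  val Φ q _ := rs_or _
  cst Φ q hΦ := by
    obtain ⟨r, hr, hb⟩ := Metric.eventually_nhds_iff_ball.mp (CSG.ld_eventually hΦ)
    filter_upwards [Metric.ball_mem_nhds q hr] with q' hq'
    have hcv := convex_ball q r
    have hin : ∀ t : unitInterval, q + (t : ℝ) • (q' - q) ∈ Metric.ball q r := fun t =>
      hcv.add_smul_sub_mem (Metric.mem_ball_self hr) hq' ⟨t.2.1, t.2.2⟩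
    have h1 := opt_step x₀ h (Φ := Φ) ⟨fun t : unitInterval => q + (t : ℝ) • (q' - q), by fun_prop⟩
      (fun t => hb _ (hin t))
    simp only [ContinuousMap.coe_mk, Set.Icc.coe_zero, Set.Icc.coe_one, zero_smul, one_smul, add_zero,
      add_sub_cancel] at h1
    rw [h1]
  cmp Φ Ψ g q hΦ hg he := by
    have hd := dd_ne hg
    obtain ⟨s, hs, hs'⟩ := dd_sign hd
    obtain ⟨u, rfl⟩ := exists_rs hs
    have h1 : Rl Ψ q Φ (g q) (rs u) := ⟨g, rfl, hg, he, hs'⟩
    have hΨ : Ldn Ψ q := CSG.ld_congr (IsLocalDiffeomorphAt.comp (hf := hg) (g := Φ) (hg := hΦ) ..) he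
    have e0 : Ψ q = Φ (g q) := he.self_of_nhds
    have h2 := rl_of hΨ hΦ e0 h1
    rw [h2, e0, ← rs_mul]
    have h3 : opt x₀ (Φ (g q)) * (u * rl Φ (g q)) * (opt x₀ (Φ (g q)) * rl Φ (g q)) = u := by
      have e1 : opt x₀ (Φ (g q)) * (u * rl Φ (g q)) * (opt x₀ (Φ (g q)) * rl Φ (g q)) =
          (opt x₀ (Φ (g q)) * opt x₀ (Φ (g q))) * (rl Φ (g q) * rl Φ (g q)) * u := by
        simp only [mul_comm, mul_left_comm, mul_assoc]
      rw [e1, u_sq, u_sq, one_mul, one_mul]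
    rw [h3]
    exact hs'

end

/-- orientability from the hypothesis on the homomorphisms to `ℤˣ` -/
theorem exists_orn [PathConnectedSpace N] {κ : ℝ × ℂ → N} (hκ : Thick κ)
    (h : ∀ f : FundamentalGroup N (κ (0, 0)) →* ℤˣ,
      f (FundamentalGroup.fromPath (Path.Homotopic.Quotient.mk (coreLoop hκ))) = 1 → f = 1) :
    ∃ o : (E → N) → E → ℝ, Orn o := by
  refine ⟨_, orn_of (κ (0, 0)) (h (och (κ (0, 0))) ?_)⟩
  rw [och_one_iff]
  exact mono_core hκ 1

end

end Pool.Agent.NHB
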