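import Pool.Agent.NHB.Par
import Pool.Agent.NHB.Cen

/-!
# NHB/Ori: an orientation of `N` gives an orientation of `N × Circle`

`J Φ q = o n 0 * s`, where `n` is the chosen parametrisation at the point `(Φ q).1` and `s` is the relative orientation of `Φ` at `q` and of
`Pm n τ` at `0`.  `Ori_val`: the same value for every parametrisation of `N`.
-/

open scoped Manifold ContDiff Topology
open Set Filter
open Pool.Agent.RSG (E3)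
open Pool.Agent.RBN (IN circ prd pb circ_add circ_zero circ_int circ_eq circ_per circ_ld circ_smooth circ_surj)
open Pool.Agent.NHP (E)

namespace Pool.Agent.NHB

/-- product parametrisation -/
noncomputable def Pm {N : Type*} (β : E → N) (τ : ℝ) (q : ℝ × ℂ × ℝ) : N × Circle :=
  (β (q.2.1, q.1), circ (τ + q.2.2))

noncomputable def Ori_p (τ : ℝ) : (ℝ × ℂ × ℝ) ≃ (ℂ × ℝ × ℝ) where
  toFun q := (q.2.1, q.1, τ + q.2.2)
  invFun q := (q.2.1, q.1, -τ + q.2.2)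
  left_inv q := by
    obtain ⟨l, v, t⟩ := q
    simp
  right_inv q := by
    obtain ⟨l, v, t⟩ := q
    simp

noncomputable def Ori_L : (ℝ × ℂ × ℝ) ≃ₗ[ℝ] ((ℂ × ℝ) × ℝ) where
  toFun q := ((q.2.1, q.1), q.2.2)
  invFun q := (q.1.2, q.1.1, q.2)
  map_add' x y := rfl
  map_smul' x y := rfl
  left_inv q := rfl
  right_inv q := rfl

theorem Ori_dd {g : ℂ × ℝ → ℂ × ℝ} {x : ℂ × ℝ} (hg : DifferentiableAt ℝ g x) (t d : ℝ) :
    dd (fun q : ℝ × ℂ × ℝ => (((g (q.2.1, q.1)).2, (g (q.2.1, q.1)).1, q.2.2 + d) : ℝ × ℂ × ℝ)) (x.2, x.1, t) =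
      dd g x := by
  set G : ℝ × ℂ × ℝ → ℝ × ℂ × ℝ := fun q => ((g (q.2.1, q.1)).2, (g (q.2.1, q.1)).1, q.2.2 + d) with hG
  have h1 : HasFDerivAt (fun q : ℝ × ℂ × ℝ => ((q.2.1, q.1) : ℂ × ℝ))
      (((ContinuousLinearMap.fst ℝ ℂ ℝ).comp (ContinuousLinearMap.snd ℝ ℝ (ℂ × ℝ))).prod
        (ContinuousLinearMap.fst ℝ ℝ (ℂ × ℝ))) (x.2, x.1, t) :=
    (hasFDerivAt_fst.comp _ hasFDerivAt_snd).prodMk hasFDerivAt_fst
  have h2 : HasFDerivAt (fun q : ℝ × ℂ × ℝ => g (q.2.1, q.1)) ((fderiv ℝ g x).comp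
      (((ContinuousLinearMap.fst ℝ ℂ ℝ).comp (ContinuousLinearMap.snd ℝ ℝ (ℂ × ℝ))).prod
        (ContinuousLinearMap.fst ℝ ℝ (ℂ × ℝ)))) (x.2, x.1, t) :=
    HasFDerivAt.comp (x.2, x.1, t) (g := g) (f := fun q : ℝ × ℂ × ℝ => ((q.2.1, q.1) : ℂ × ℝ)) hg.hasFDerivAt h1
  have h3 : HasFDerivAt (fun q : ℝ × ℂ × ℝ => q.2.2 + d)
      ((ContinuousLinearMap.snd ℝ ℂ ℝ).comp (ContinuousLinearMap.snd ℝ ℝ (ℂ × ℝ))) (x.2, x.1, t) :=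
    (hasFDerivAt_snd.comp _ hasFDerivAt_snd).add_const d
  have h4 : HasFDerivAt G _ (x.2, x.1, t) :=
    ((hasFDerivAt_snd.comp _ h2).prodMk ((hasFDerivAt_fst.comp _ h2).prodMk h3))
  unfold dd
  rw [h4.fderiv]
  have h5 : LinearMap.det ((fderiv ℝ g x : (ℂ × ℝ) →L[ℝ] (ℂ × ℝ)) : (ℂ × ℝ) →ₗ[ℝ] (ℂ × ℝ)) =
      LinearMap.det (LinearMap.prodMap ((fderiv ℝ g x : (ℂ × ℝ) →L[ℝ] (ℂ × ℝ)) : (ℂ × ℝ) →ₗ[ℝ] (ℂ × ℝ))
        (LinearMap.id : ℝ →ₗ[ℝ] ℝ)) := by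
    rw [LinearMap.det_prodMap, LinearMap.det_id, mul_one]
  rw [h5, ← LinearMap.det_conj _ Ori_L.symm]
  rfl

section
variable {N : Type*} [TopologicalSpace N] [ChartedSpace E3 N]

theorem Pm_ld {β : E → N} {x : E} (h : IsLocalDiffeomorphAt 𝓘(ℝ, ℂ × ℝ) (𝓡 3) ∞ β x) (τ t : ℝ) :
    IsLocalDiffeomorphAt 𝓘(ℝ, ℝ × ℂ × ℝ) IN ∞ (Pm β τ) (x.2, x.1, t) := by
  have h1 : IsLocalDiffeomorphAt 𝓘(ℝ, ℝ × ℂ × ℝ) 𝓘(ℝ, ℂ × ℝ × ℝ) ∞ (Ori_p τ) (x.2, x.1, t) := by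
    refine CSG.ld_of_perm ?_ ?_ _
    · show ContDiff ℝ ∞ fun q : ℝ × ℂ × ℝ => ((q.2.1, q.1, τ + q.2.2) : ℂ × ℝ × ℝ)
      fun_prop
    · show ContDiff ℝ ∞ fun q : ℂ × ℝ × ℝ => ((q.2.1, q.1, -τ + q.2.2) : ℝ × ℂ × ℝ)
      fun_prop
  exact IsLocalDiffeomorphAt.comp (hf := h1) (g := pb β) (hg := RBN.pb_ld h _) ..

theorem Rl_lift {β β' : E → N} {x x' : E} {s : ℝ} (h : Rl β x β' x' s) {τ τ' t t' : ℝ}
    (ht : circ (τ + t) = circ (τ' + t')) : Rl (Pm β τ) (x.2, x.1, t) (Pm β' τ') (x'.2, x'.1, t') s := by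
  obtain ⟨g, h1, h2, h3, h4⟩ := h
  subst h1
  have hgL : IsLocalDiffeomorphAt 𝓘(ℝ, ℝ × ℂ × ℝ) 𝓘(ℝ, ℝ × ℂ × ℝ) ∞
      (fun q : ℝ × ℂ × ℝ => (((g (q.2.1, q.1)).2, (g (q.2.1, q.1)).1, q.2.2 + (t' - t)) : ℝ × ℂ × ℝ)) (x.2, x.1, t) := by
    have e1 : IsLocalDiffeomorphAt 𝓘(ℝ, ℝ × ℂ × ℝ) 𝓘(ℝ, (ℂ × ℝ) × ℝ) ∞ (fun q : ℝ × ℂ × ℝ => (((q.2.1, q.1), q.2.2) : (ℂ × ℝ) × ℝ))
        (x.2, x.1, t) := by
      refine CSG.ld_of_perm (f := Ori_L.toEquiv) ?_ ?_ _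
      · show ContDiff ℝ ∞ fun q : ℝ × ℂ × ℝ => (((q.2.1, q.1), q.2.2) : (ℂ × ℝ) × ℝ)
        fun_prop
      · show ContDiff ℝ ∞ fun q : (ℂ × ℝ) × ℝ => ((q.1.2, q.1.1, q.2) : ℝ × ℂ × ℝ)
        fun_prop
    have e2 : IsLocalDiffeomorphAt 𝓘(ℝ, (ℂ × ℝ) × ℝ) 𝓘(ℝ, (ℂ × ℝ) × ℝ) ∞
        (Prod.map g (fun u : ℝ => u + (t' - t))) (x, t) := by
      have e3 : IsLocalDiffeomorphAt 𝓘(ℝ, ℝ) 𝓘(ℝ, ℝ) ∞ (fun u : ℝ => u + (t' - t)) t := by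
        refine CSG.ld_of_perm (f := Equiv.addRight (t' - t)) ?_ ?_ _
        · show ContDiff ℝ ∞ fun u : ℝ => u + (t' - t)
          fun_prop
        · show ContDiff ℝ ∞ fun u : ℝ => u + -(t' - t)
          fun_prop
      have e4 := RSG.ld_prodMap h2 e3
      rw [← modelWithCornersSelf_prod, chartedSpaceSelf_prod] at e4
      exact e4
    have e5 : IsLocalDiffeomorphAt 𝓘(ℝ, (ℂ × ℝ) × ℝ) 𝓘(ℝ, ℝ × ℂ × ℝ) ∞ (fun q : (ℂ × ℝ) × ℝ => ((q.1.2, q.1.1, q.2) : ℝ × ℂ × ℝ))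
        (g x, t + (t' - t)) := by
      refine CSG.ld_of_perm (f := Ori_L.symm.toEquiv) ?_ ?_ _
      · show ContDiff ℝ ∞ fun q : (ℂ × ℝ) × ℝ => ((q.1.2, q.1.1, q.2) : ℝ × ℂ × ℝ)
        fun_prop
      · show ContDiff ℝ ∞ fun q : ℝ × ℂ × ℝ => (((q.2.1, q.1), q.2.2) : (ℂ × ℝ) × ℝ)
        fun_prop
    have e6 := IsLocalDiffeomorphAt.comp (hf := e1) (g := Prod.map g (fun u : ℝ => u + (t' - t))) (hg := e2) ..
    exact IsLocalDiffeomorphAt.comp (hf := e6) (g := fun q : (ℂ × ℝ) × ℝ => ((q.1.2, q.1.1, q.2) : ℝ × ℂ × ℝ)) (hg := e5) ..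
  refine ⟨_, ?_, hgL, ?_, ?_⟩
  · show (((g (x.1, x.2)).2, (g (x.1, x.2)).1, t + (t' - t)) : ℝ × ℂ × ℝ) = ((g x).2, (g x).1, t')
    rw [add_sub_cancel]
  · have hc : ContinuousAt (fun q : ℝ × ℂ × ℝ => ((q.2.1, q.1) : ℂ × ℝ)) (x.2, x.1, t) := by fun_prop
    filter_upwards [hc.eventually h3] with q hq
    show ((β (q.2.1, q.1), circ (τ + q.2.2)) : N × Circle) =
      (β' (g (q.2.1, q.1)), circ (τ' + (q.2.2 + (t' - t))))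
    have h5 : τ' + (q.2.2 + (t' - t)) = (τ' + t') + (q.2.2 - t) := by ring
    have h6 : τ + q.2.2 = (τ + t) + (q.2.2 - t) := by ring
    rw [h5, h6, circ_add (τ' + t'), circ_add (τ + t), ht]
    exact Prod.ext hq rfl
  · rw [Ori_dd (Rel_diff h2)]
    exact h4

variable [IsManifold (𝓡 3) ∞ N]

/-- the chosen parametrisation -/
noncomputable def par (x : N) : E → N := (exists_par x).choose

theorem par_zero (x : N) : par x 0 = x := (exists_par x).choose_spec.1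

theorem par_ld (x : N) : IsLocalDiffeomorphAt 𝓘(ℝ, ℂ × ℝ) (𝓡 3) ∞ (par x) 0 := (exists_par x).choose_spec.2

noncomputable def tpt (z : Circle) : ℝ := (circ_surj z).choose

theorem circ_tpt (z : Circle) : circ (tpt z) = z := (circ_surj z).choose_spec

theorem Pm_par (p : N × Circle) : Pm (par p.1) (tpt p.2) 0 = p := by
  show (par p.1 (0, 0), circ (tpt p.2 + 0)) = p
  rw [add_zero, circ_tpt]
  exact Prod.ext (par_zero p.1) rfl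

theorem Pm_par_ld (p : N × Circle) : IsLocalDiffeomorphAt 𝓘(ℝ, ℝ × ℂ × ℝ) IN ∞ (Pm (par p.1) (tpt p.2)) 0 :=
  Pm_ld (x := 0) (par_ld p.1) (tpt p.2) 0

open Classical in
/-- the orientation of the product -/
noncomputable def JJ (o : (E → N) → E → ℝ) (Φ : ℝ × ℂ × ℝ → N × Circle) (q : ℝ × ℂ × ℝ) : ℝ :=
  if h : ∃ s : ℝ, (s = 1 ∨ s = -1) ∧ Rl Φ q (Pm (par (Φ q).1) (tpt (Φ q).2)) 0 s then o (par (Φ q).1) 0 * h.choose
  else 1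

theorem JJ_of (o : (E → N) → E → ℝ) {Φ : ℝ × ℂ × ℝ → N × Circle} {q : ℝ × ℂ × ℝ} {s : ℝ}
    (hs : s = 1 ∨ s = -1) (h : Rl Φ q (Pm (par (Φ q).1) (tpt (Φ q).2)) 0 s) :
    JJ o Φ q = o (par (Φ q).1) 0 * s := by
  have hex : ∃ s : ℝ, (s = 1 ∨ s = -1) ∧ Rl Φ q (Pm (par (Φ q).1) (tpt (Φ q).2)) 0 s := ⟨s, hs, h⟩
  unfold JJ
  rw [dif_pos hex]
  rw [Rl_unique (Pm_par_ld (Φ q)) hex.choose_spec.1 hs hex.choose_spec.2 h]

theorem JJ_val {o : (E → N) → E → ℝ} (ho : Orn o) {Φ : ℝ × ℂ × ℝ → N × Circle} {q : ℝ × ℂ × ℝ} {β : E → N} {x : E}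
    {τ t s : ℝ} (hβ : IsLocalDiffeomorphAt 𝓘(ℝ, ℂ × ℝ) (𝓡 3) ∞ β x) (he : Φ q = (β x, circ (τ + t)))
    (hs : s = 1 ∨ s = -1) (h : Rl Φ q (Pm β τ) (x.2, x.1, t) s) : JJ o Φ q = o β x * s := by
  obtain ⟨s₀, hs₀, hR⟩ := Rl_exists hβ (par_ld (Φ q).1) (by rw [par_zero, he])
  have h1 := Rl_lift hR (τ := τ) (t := t) (τ' := tpt (Φ q).2) (t' := 0) (by rw [add_zero, circ_tpt, he])
  have h2 := h.comp h1
  have h3 := JJ_of o (sign_mul hs hs₀) (q := q) h2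
  obtain ⟨g, g1, g2, g3, g4⟩ := hR
  have h4 := ho.cmp (par (Φ q).1) β g x (by rw [g1]; exact par_ld _) g2 g3
  rw [g1] at h4
  have h5 : 0 < (o β x * o (par (Φ q).1) 0) * dd g x := h4
  have h6 : o β x * o (par (Φ q).1) 0 = s₀ :=
    sign_unique (sign_mul (ho.val _ _ hβ) (ho.val _ _ (par_ld _))) hs₀ h5 g4
  rw [h3, ← h6]
  have h7 := sign_sq (ho.val _ _ (par_ld (Φ q).1))
  calc o (par (Φ q).1) 0 * (s * (o β x * o (par (Φ q).1) 0))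
      = (o (par (Φ q).1) 0 * o (par (Φ q).1) 0) * (o β x * s) := by ring
    _ = o β x * s := by rw [h7, one_mul]

/-- **The product of an oriented 3-manifold with the circle is oriented.** -/
theorem orP_of_orn {o : (E → N) → E → ℝ} (ho : Orn o) : OrP IN (JJ o) where
  val := by
    intro Φ q h
    obtain ⟨s, hs, hR⟩ := Rl_exists h (Pm_par_ld (Φ q)) (Pm_par (Φ q)).symm
    rw [JJ_of o hs hR]
    exact sign_mul (ho.val _ _ (par_ld _)) hs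
  cst := by
    intro Φ q h
    obtain ⟨s, hs, hR⟩ := Rl_exists h (Pm_par_ld (Φ q)) (Pm_par (Φ q)).symm
    rw [JJ_of o hs hR]
    set β := par (Φ q).1 with hβ
    set τ := tpt (Φ q).2 with hτ
    obtain ⟨g, g1, g2, g3, g4⟩ := hR
    have hc := CSG.ld_continuousAt g2
    have hgs : ContDiffAt ℝ ∞ g q := contMDiffAt_iff_contDiffAt.1 g2.contMDiffAt
    have hdet : ContinuousAt (dd g) q := by
      have e1 : ContinuousAt (fderiv ℝ g) q := (hgs.fderiv_right (m := 0) (by simp)).continuousAt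
      exact ContinuousAt.comp (g := fun L : (ℝ × ℂ × ℝ) →L[ℝ] (ℝ × ℂ × ℝ) => L.det) (f := fderiv ℝ g)
        ContinuousLinearMap.continuous_det.continuousAt e1
    have k1 : ContinuousAt (fun q' : ℝ × ℂ × ℝ => (((g q').2.1, (g q').1) : ℂ × ℝ)) q := by
      have e1 : ContinuousAt (fun q' : ℝ × ℂ × ℝ => ((q'.2.1, q'.1) : ℂ × ℝ)) (g q) := by fun_prop
      exact ContinuousAt.comp (g := fun q' : ℝ × ℂ × ℝ => ((q'.2.1, q'.1) : ℂ × ℝ)) (f := g) e1 hc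
    have k0 : (((g q).2.1, (g q).1) : ℂ × ℝ) = 0 := by
      rw [g1]
      rfl
    have a1 : ∀ᶠ q' in 𝓝 q, IsLocalDiffeomorphAt 𝓘(ℝ, ℂ × ℝ) (𝓡 3) ∞ β ((g q').2.1, (g q').1) := by
      apply k1.eventually
      show ∀ᶠ y in 𝓝 (((g q).2.1, (g q).1) : ℂ × ℝ), IsLocalDiffeomorphAt 𝓘(ℝ, ℂ × ℝ) (𝓡 3) ∞ β y
      rw [k0]
      exact CSG.ld_eventually (par_ld _)
    have a2 : ∀ᶠ q' in 𝓝 q, o β ((g q').2.1, (g q').1) = o β 0 := by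
      apply k1.eventually (p := fun y => o β y = o β 0)
      show ∀ᶠ y in 𝓝 (((g q).2.1, (g q).1) : ℂ × ℝ), o β y = o β 0
      rw [k0]
      exact ho.cst _ _ (par_ld _)
    have a3 : ∀ᶠ q' in 𝓝 q, IsLocalDiffeomorphAt 𝓘(ℝ, ℝ × ℂ × ℝ) 𝓘(ℝ, ℝ × ℂ × ℝ) ∞ g q' := CSG.ld_eventually g2
    have a4 : ∀ᶠ q' in 𝓝 q, 0 < s * dd g q' := by
      have e1 : ContinuousAt (fun q' => s * dd g q') q := continuousAt_const.mul hdet
      exact e1.eventually (lt_mem_nhds g4)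
    filter_upwards [a1, a2, a3, a4, eventually_eventually_nhds.2 g3] with q' b1 b2 b3 b4 b5
    have e : Φ q' = (β ((g q').2.1, (g q').1), circ (τ + (g q').2.2)) := b5.self_of_nhds
    have hR' : Rl Φ q' (Pm β τ) ((((g q').2.1, (g q').1) : ℂ × ℝ).2, (((g q').2.1, (g q').1) : ℂ × ℝ).1, (g q').2.2) s :=
      ⟨g, rfl, b3, b5, b4⟩
    rw [JJ_val ho b1 e hs hR', b2]
  cmp := by
    intro Φ Ψ g q hΦ hg he
    obtain ⟨s, hs, hR⟩ := Rl_exists hΦ (Pm_par_ld (Φ (g q))) (Pm_par (Φ (g q))).symm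
    obtain ⟨ε, hε, hε'⟩ := dd_sign (dd_ne hg)
    have h1 : Rl Ψ q Φ (g q) ε := ⟨g, rfl, hg, he, hε'⟩
    have h2 := h1.comp hR
    have h3 : Ψ q = Φ (g q) := he.self_of_nhds
    rw [← h3] at h2
    rw [JJ_of o (sign_mul hε hs) h2]
    rw [JJ_of o hs hR, h3]
    show 0 < _ * dd g q
    have h4 := sign_sq (ho.val _ _ (par_ld (Φ (g q)).1))
    have h5 := sign_sq hs
    have h6 : o (par (Φ (g q)).1) 0 * (ε * s) * (o (par (Φ (g q)).1) 0 * s) * dd g q =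
        (o (par (Φ (g q)).1) 0 * o (par (Φ (g q)).1) 0) * (s * s) * (ε * dd g q) := by ring
    rw [h6, h4, h5, one_mul, one_mul]
    exact hε'

end

end Pool.Agent.NHB
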