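import Pool.Agent.NHB.Rel
import Pool.Agent.RSG.LDc

/-!
# NHB/Par: a local parametrisation at every point of a 3-manifold
-/

open scoped Manifold ContDiff Topology
open Set Filter
open Pool.Agent.RSG (E3)
open Pool.Agent.NHP (E)

namespace Pool.Agent.NHB

/-- `ℂ × ℝ ≃ ℝ³` -/
noncomputable def Par_L : (ℂ × ℝ) ≃L[ℝ] E3 := ContinuousLinearEquiv.ofFinrankEq (by simp)

/-- the affine map -/
noncomputable def Par_A (w : E3) : (ℂ × ℝ) ≃ E3 := Par_L.toLinearEquiv.toEquiv.trans (Equiv.addLeft w)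

theorem Par_A_ld (w : E3) (q : ℂ × ℝ) : IsLocalDiffeomorphAt 𝓘(ℝ, ℂ × ℝ) (𝓡 3) ∞ (Par_A w) q := by
  refine CSG.ld_of_perm ?_ ?_ q
  · show ContDiff ℝ ∞ fun q : ℂ × ℝ => w + Par_L q
    exact contDiff_const.add Par_L.contDiff
  · show ContDiff ℝ ∞ fun q : E3 => Par_L.symm (-w + q)
    exact Par_L.symm.contDiff.comp (contDiff_const.add contDiff_id)

theorem exists_par {N : Type*} [TopologicalSpace N] [ChartedSpace E3 N] [IsManifold (𝓡 3) ∞ N] (x : N) :
    ∃ n : E → N, n 0 = x ∧ IsLocalDiffeomorphAt 𝓘(ℝ, ℂ × ℝ) (𝓡 3) ∞ n 0 := by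
  set e := chartAt E3 x with he
  have hx : x ∈ e.source := mem_chart_source E3 x
  have hex : e x ∈ e.target := e.map_source hx
  have h1 : IsLocalDiffeomorphAt (𝓡 3) (𝓡 3) ∞ e.symm (e x) := by
    refine RSG.ld_two (g := e) ?_ ?_ ?_ ?_
    · filter_upwards [e.open_target.mem_nhds hex] with y hy
      exact (contMDiffOn_chart_symm (I := 𝓡 3) (n := ∞) y hy).contMDiffAt (e.open_target.mem_nhds hy)
    · rw [e.left_inv hx]
      filter_upwards [e.open_source.mem_nhds hx] with y hy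
      exact (contMDiffOn_chart (I := 𝓡 3) (n := ∞) y hy).contMDiffAt (e.open_source.mem_nhds hy)
    · filter_upwards [e.open_target.mem_nhds hex] with y hy
      exact e.right_inv hy
    · rw [e.left_inv hx]
      filter_upwards [e.open_source.mem_nhds hx] with y hy
      exact e.left_inv hy
  have h2 : Par_A (e x) 0 = e x := by
    show e x + Par_L 0 = e x
    rw [map_zero, add_zero]
  refine ⟨fun q => e.symm (Par_A (e x) q), ?_, ?_⟩
  · show e.symm (Par_A (e x) 0) = x
    rw [h2, e.left_inv hx]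
  · exact IsLocalDiffeomorphAt.comp (hf := Par_A_ld (e x) 0) (g := e.symm) (hg := by rw [h2]; exact h1) ..

end Pool.Agent.NHB
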