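import Pool.Agent.NHB.Defs
import Pool.Agent.KNH.StrM

/-!
# NHB/Rel: relative orientation of two local parametrisations

`Rl A a B b s`: near `a`, `A = B ∘ g` with a local diffeomorphism `g`, `g a = b`, and `s` has the sign of the determinant of the derivative of
`g` at `a`.
-/

open scoped Manifold ContDiff Topology
open Set Filter

namespace Pool.Agent.NHB

section
variable {V : Type*} [NormedAddCommGroup V] [NormedSpace ℝ V] {EP : Type*} [NormedAddCommGroup EP] [NormedSpace ℝ EP]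
  {HP : Type*} [TopologicalSpace HP] {IP : ModelWithCorners ℝ EP HP} {P : Type*} [TopologicalSpace P]

/-- the determinant of the derivative -/
noncomputable def dd (g : V → V) (a : V) : ℝ := LinearMap.det ((fderiv ℝ g a : V →L[ℝ] V) : V →ₗ[ℝ] V)

/-- relative orientation -/
def Rl (A : V → P) (a : V) (B : V → P) (b : V) (s : ℝ) : Prop :=
  ∃ g : V → V, g a = b ∧ IsLocalDiffeomorphAt 𝓘(ℝ, V) 𝓘(ℝ, V) ∞ g a ∧ A =ᶠ[𝓝 a] B ∘ g ∧ 0 < s * dd g a

theorem dd_congr {g g' : V → V} {a : V} (h : g =ᶠ[𝓝 a] g') : dd g a = dd g' a := by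
  unfold dd
  rw [h.fderiv_eq]

theorem dd_comp {g g' : V → V} {a : V} (h : DifferentiableAt ℝ g a) (h' : DifferentiableAt ℝ g' (g a)) :
    dd (g' ∘ g) a = dd g' (g a) * dd g a := by
  unfold dd
  rw [fderiv_comp a h' h]
  exact LinearMap.det_comp _ _

theorem Rel_diff {g : V → V} {a : V} (h : IsLocalDiffeomorphAt 𝓘(ℝ, V) 𝓘(ℝ, V) ∞ g a) : DifferentiableAt ℝ g a :=
  (contMDiffAt_iff_contDiffAt.1 h.contMDiffAt).differentiableAt (by simp)

theorem dd_ne {g : V → V} {a : V} (h : IsLocalDiffeomorphAt 𝓘(ℝ, V) 𝓘(ℝ, V) ∞ g a) : dd g a ≠ 0 := by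
  have h1 := h.localInverse_isLocalDiffeomorphAt
  have h2 : h.localInverse ∘ g =ᶠ[𝓝 a] id := h.localInverse_eventuallyEq_left
  have h3 := dd_comp (Rel_diff h) (Rel_diff h1)
  rw [dd_congr h2] at h3
  have h4 : dd (id : V → V) a = 1 := by
    unfold dd
    rw [fderiv_id]
    exact LinearMap.det_id
  rw [h4] at h3
  intro h5
  rw [h5, mul_zero] at h3
  exact one_ne_zero h3

theorem dd_sign {x : ℝ} (hx : x ≠ 0) : ∃ s : ℝ, (s = 1 ∨ s = -1) ∧ 0 < s * x := by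
  rcases lt_or_gt_of_ne hx with h | h
  · exact ⟨-1, Or.inr rfl, by linarith⟩
  · exact ⟨1, Or.inl rfl, by linarith⟩

theorem sign_unique {s s' x : ℝ} (hs : s = 1 ∨ s = -1) (hs' : s' = 1 ∨ s' = -1) (h : 0 < s * x)
    (h' : 0 < s' * x) : s = s' := by
  rcases hs with rfl | rfl <;> rcases hs' with rfl | rfl
  · rfl
  · linarith
  · linarith
  · rfl

theorem sign_mul {s s' : ℝ} (hs : s = 1 ∨ s = -1) (hs' : s' = 1 ∨ s' = -1) : s * s' = 1 ∨ s * s' = -1 := by
  rcases hs with rfl | rfl <;> rcases hs' with rfl | rfl <;> norm_num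

theorem sign_sq {s : ℝ} (hs : s = 1 ∨ s = -1) : s * s = 1 := by
  rcases hs with rfl | rfl <;> norm_num

theorem Rl.comp {A B C : V → P} {a b c : V} {s s' : ℝ} (h : Rl A a B b s) (h' : Rl B b C c s')
    : Rl A a C c (s * s') := by
  obtain ⟨g, h1, h2, h3, h4⟩ := h
  obtain ⟨g', k1, k2, k3, k4⟩ := h'
  subst h1
  refine ⟨g' ∘ g, k1, IsLocalDiffeomorphAt.comp (hf := h2) (hg := k2) .., ?_, ?_⟩
  · have h5 := (CSG.ld_continuousAt h2).eventually k3
    filter_upwards [h3, h5] with y hy1 hy2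
    rw [hy1]
    exact hy2
  · rw [dd_comp (Rel_diff h2) (Rel_diff k2)]
    have := mul_pos h4 k4
    linarith

variable [ChartedSpace HP P]

theorem Rl_exists {A B : V → P} {a b : V} (hA : IsLocalDiffeomorphAt 𝓘(ℝ, V) IP ∞ A a)
    (hB : IsLocalDiffeomorphAt 𝓘(ℝ, V) IP ∞ B b) (h : A a = B b) :
    ∃ s : ℝ, (s = 1 ∨ s = -1) ∧ Rl A a B b s := by
  have h0 : hB.localInverse (B b) = b := hB.localInverse_left_inv hB.localInverse_mem_target
  have h1 : IsLocalDiffeomorphAt 𝓘(ℝ, V) 𝓘(ℝ, V) ∞ (hB.localInverse ∘ A) a := by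
    refine IsLocalDiffeomorphAt.comp (hf := hA) (hg := ?_) ..
    rw [h]
    exact hB.localInverse_isLocalDiffeomorphAt
  obtain ⟨s, hs, hs'⟩ := dd_sign (dd_ne h1)
  refine ⟨s, hs, hB.localInverse ∘ A, ?_, h1, ?_, hs'⟩
  · show hB.localInverse (A a) = b
    rw [h, h0]
  · have h2 : ∀ᶠ y in 𝓝 (A a), B (hB.localInverse y) = y := by
      rw [h]
      exact hB.localInverse_eventuallyEq_right
    filter_upwards [(CSG.ld_continuousAt hA).eventually h2] with y hy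
    exact hy.symm

theorem Rl_unique {A B : V → P} {a b : V} {s s' : ℝ} (hB : IsLocalDiffeomorphAt 𝓘(ℝ, V) IP ∞ B b)
    (hs : s = 1 ∨ s = -1) (hs' : s' = 1 ∨ s' = -1) (h : Rl A a B b s) (h' : Rl A a B b s') : s = s' := by
  obtain ⟨g, h1, h2, h3, h4⟩ := h
  obtain ⟨g', k1, k2, k3, k4⟩ := h'
  obtain ⟨U, hU, hi⟩ := CSG.ld_injOn hB
  have h5 : ∀ᶠ y in 𝓝 a, g y ∈ U := (CSG.ld_continuousAt h2).eventually (by rw [h1]; exact hU)
  have h6 : ∀ᶠ y in 𝓝 a, g' y ∈ U := (CSG.ld_continuousAt k2).eventually (by rw [k1]; exact hU)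
  have h7 : g =ᶠ[𝓝 a] g' := by
    filter_upwards [h3, k3, h5, h6] with y e1 e2 e3 e4
    exact hi e3 e4 (e1.symm.trans e2)
  rw [dd_congr h7] at h4
  exact sign_unique hs hs' h4 k4

end

end Pool.Agent.NHB
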