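import Pool.Agent.NHB.HomN
import Pool.Agent.RBN.Rib

/-!
# NHB/RibN: the ribbon homotopy; `IsC` is invariant under `LEqN` (assembly)
-/

open scoped Manifold ContDiff Topology
open Set Filter
open Complex (I)
open Pool.Agent.CSG (stp)
open Pool.Agent.RSG (E3 E4 S4 ex cj Thick OnKnot IsRollGluck)
open Pool.Agent.RBM (ThickT TwinP OnT Box Bundle frc)
open Pool.Agent.COR (Equi EquiB TwoStrands half)
open Pool.Agent.KNT (Dom Str Str2)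
open Pool.Agent.KNH (Rr hr Ss Ss2 Rem)
open Pool.Agent.RBN (IN circ prd pb circ_add circ_zero circ_int circ_eq circ_per circ_ld circ_smooth TubeHom ThinOK Mov)
open Pool.Agent.NHP (E Cht Push TubesN LEqN core)

namespace Pool.Agent.NHB

universe v

section
variable {N : Type*} [TopologicalSpace N] [ChartedSpace E3 N] [T2Space N]

theorem emb_cont {β : E → N} (hβ : Emb β) : Continuous β := by
  rw [continuous_iff_continuousAt]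
  intro q
  exact (hβ.loc q).contMDiffAt.continuousAt

theorem rib_stepN {J : (ℝ × ℂ × ℝ → N × Circle) → ℝ × ℂ × ℝ → ℝ} (hJ : OrP IN J)
    {κ₀ : ℝ × ℂ × ℝ → N × Circle} {β : ℝ → E → N}
    {Y : Set N} (h : Fam β Y) {w₀ δ : ℝ} (hw : ThinOK (bb β 1) w₀ δ)
    (hX : IsC.{v} κ₀ (Y ∪ (fun q => β 0 (thn w₀ q)) '' Ss)) :
    IsC.{v} κ₀ (Y ∪ (fun q => β 1 (thn w₀ q)) '' Ss) := by
  obtain ⟨c, hc, κ₁, hT₀, heq₀, hcore₀, hD₀⟩ := hX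
  have i0 : (0 : ℝ) ∈ Icc (0 : ℝ) 1 := ⟨le_rfl, zero_le_one⟩
  have i1 : (1 : ℝ) ∈ Icc (0 : ℝ) 1 := ⟨zero_le_one, le_rfl⟩
  have hB₀ : Emb (fun q => β 0 (thn w₀ q)) := thn_emb (fam_emb0 h) hw.w_pos hw.w_le
  have hB₁ : Emb (fun q => β 1 (thn w₀ q)) := thn_emb (fam_emb1 h) hw.w_pos hw.w_le
  have hS : ∀ q, (∃ l, c l = β 0 (thn w₀ q)) ↔ q ∈ Ss := by
    intro q
    constructor
    · rintro ⟨l, hl⟩
      have h1 : c l ∈ Y ∪ (fun q => β 0 (thn w₀ q)) '' Ss := hc ▸ mem_range_self l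
      rw [hl] at h1
      rcases h1 with hy | ⟨q', hq', hq2⟩
      · exact absurd hy (h.dis 0 i0 _)
      · have h3 : q' = q := hB₀.inj hq2
        rwa [h3] at hq'
    · intro hq
      have h1 : β 0 (thn w₀ q) ∈ Y ∪ (fun q => β 0 (thn w₀ q)) '' Ss := Or.inr ⟨q, hq, rfl⟩
      rw [← hc] at h1
      exact h1
  obtain ⟨f₁, f₂, ε₁, ε₂, hts, hs1, hs2, hoff⟩ := exists_strands hT₀ hcore₀ hB₀ hS
  have hoff' : ∀ l, (f₁ (1 / 2) ≤ l ∧ l ≤ f₂ (-(1 / 2))) ∨ (f₂ (1 / 2) ≤ l ∧ l ≤ f₁ (-(1 / 2)) + 1) →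
      ∀ q, c l = β 0 (thn w₀ q) → 1 / 2 ≤ |q.2| :=
    fun l hl q hq => hoff (1 / 2) (by norm_num) l hl q.1 q.2 hq
  -- points of the knot
  have hpt : ∀ l, c l ∈ Y ∨ ∃ q ∈ Ss, β 0 (thn w₀ q) = c l := by
    intro l
    have h1 : c l ∈ Y ∪ (fun q => β 0 (thn w₀ q)) '' Ss := hc ▸ mem_range_self l
    exact h1
  let Fc : Set (N × Circle) :=
    {p | p.1 ∈ Mvp β ∪ (fun q => β 1 (thn w₀ q)) '' {q | ‖q.1‖ ≤ 5 ∧ |q.2| ≤ 1 / 4}}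
  have hQc : IsCompact {q : ℂ × ℝ | ‖q.1‖ ≤ 5 ∧ |q.2| ≤ 1 / 4} := by
    have h1 : {q : ℂ × ℝ | ‖q.1‖ ≤ 5 ∧ |q.2| ≤ 1 / 4} = Metric.closedBall (0 : ℂ) 5 ×ˢ Icc (-(1 / 4)) (1 / 4) := by
      ext q
      simp only [mem_ofPred_eq, mem_prod, Metric.mem_closedBall, dist_zero_right, mem_Icc, abs_le]
    rw [h1]
    exact (isCompact_closedBall _ _).prod isCompact_Icc
  have hFc : IsClosed Fc := by
    have h1 : IsCompact (Mvp β ∪ (fun q => β 1 (thn w₀ q)) '' {q | ‖q.1‖ ≤ 5 ∧ |q.2| ≤ 1 / 4}) :=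
      (mvp_compact h).union (hQc.image (emb_cont hB₁))
    exact h1.isClosed.preimage continuous_fst
  have hF : ∀ l, (f₁ (1 / 2) ≤ l ∧ l ≤ f₂ (-(1 / 2))) ∨ (f₂ (1 / 2) ≤ l ∧ l ≤ f₁ (-(1 / 2)) + 1) →
      ∀ t, rot t (c l, 1) ∉ Fc := by
    intro l hl t ht
    have hx : c l ∈ Mvp β ∪ (fun q => β 1 (thn w₀ q)) '' {q | ‖q.1‖ ≤ 5 ∧ |q.2| ≤ 1 / 4} := ht
    rcases hpt l with h1 | ⟨q', hq2, h1⟩
    · rcases hx with hx | ⟨q, -, hq'⟩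
      · exact mvp_dis h h1 hx
      · rw [← hq'] at h1
        exact h.dis 1 i1 _ h1
    · have h2 := hoff' l hl q' h1.symm
      rcases hx with hx | ⟨q, ⟨-, hq⟩, hq'⟩
      · rw [← h1] at hx
        exact mvp_out h (q := thn w₀ q') (by show 1 / 4 ≤ |q'.2|; linarith) hx
      · have h3 : β 1 (thn w₀ q') = β 0 (thn w₀ q') :=
          h.ends 1 i1 (thn w₀ q') (by show 1 / 8 ≤ |q'.2|; linarith)
        have h4 : q = q' := hB₁.inj (by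
          show β 1 (thn w₀ q) = β 1 (thn w₀ q')
          rw [h3, h1]
          exact hq')
        rw [h4] at hq
        linarith
  obtain ⟨κ, φ, σ, hσ, heq, hbun, hφs, hφ1, hφ', hcore, -, -, hrest, hTw⟩ :=
    exists_bundleS.{v} hJ rot_act hT₀ heq₀ hcore₀ (pb_box hB₀ 5) (pb_equiv _) hts hFc hF
  have hwσ := thin_conj hw hσ
  obtain ⟨G, hG1, hG2, hG3⟩ := RBN.exists_hole (tube_bb h hσ) hwσ
  have hRH := rib_homN h hσ hwσ hbun (fun l v t hv hl => hrest l v t hv hl) hG1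
    (fun p hp => hG2 p fun hm => hp (mov_mvp hσ hm)) (by
      intro z s t hz hs ht
      rw [half_thn, half_thn]
      exact hG3 z s t hz hs ht)
  obtain ⟨heq', c', hc', hcore'⟩ := core_swapN h hw.w_pos hw.w_le hσ hbun heq hφs.continuous hφ1 hcore hc
  refine ⟨c', hc', _, hRH.bun'.thick, heq', hcore', (hD₀.trans hTw).trans ?_⟩
  intro X _ _ _ n j
  exact ⟨RBH.rbh hRH n j, RBH.rbh (RBN.ribHom_symm hRH) n j⟩

theorem isC_rib {J : (ℝ × ℂ × ℝ → N × Circle) → ℝ × ℂ × ℝ → ℝ} (hJ : OrP IN J)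
    {κ₀ : ℝ × ℂ × ℝ → N × Circle} {β : ℝ → E → N} {Y : Set N} (hf : Fam β Y)
    (h : IsC.{v} κ₀ (Y ∪ β 0 '' Ss)) : IsC.{v} κ₀ (Y ∪ β 1 '' Ss) := by
  have i0 : (0 : ℝ) ∈ Icc (0 : ℝ) 1 := ⟨le_rfl, zero_le_one⟩
  have i1 : (1 : ℝ) ∈ Icc (0 : ℝ) 1 := ⟨zero_le_one, le_rfl⟩
  obtain ⟨w₀, δ, hw⟩ := RBN.exists_thin (tube_bb hf (σ := 1) (Or.inl rfl))
  have h1 := (isC_thin (fam_emb0 hf) (hf.dis 0 i0) hw.w_pos hw.w_le).1 h
  have h2 := rib_stepN hJ hf hw h1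
  exact (isC_thin (fam_emb1 hf) (hf.dis 1 i1) hw.w_pos hw.w_le).2 h2

theorem isC_rib_iff {J : (ℝ × ℂ × ℝ → N × Circle) → ℝ × ℂ × ℝ → ℝ} (hJ : OrP IN J)
    {κ₀ : ℝ × ℂ × ℝ → N × Circle} {b : ℝ → E → N} (hb : TubesN b) {Z : Set N}
    (hZ : ∀ l ∈ Icc (0 : ℝ) 1, Disjoint Z (b l '' Dom)) :
    IsC.{v} κ₀ (Z ∪ b 0 '' Str) ↔ IsC.{v} κ₀ (Z ∪ b 1 '' Str) := by
  have hf := fam_bx hb hZ
  rw [str_eq, str_eq, rem_eq hb]
  refine ⟨isC_rib hJ hf, fun h => ?_⟩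
  have h1 := isC_rib hJ (fam_rev hf) (κ₀ := κ₀)
  simp only [sub_zero, sub_self] at h1
  exact h1 h

/-- **`IsC` is invariant under the relation `LEqN`.** -/
theorem isC_LEqN {J : (ℝ × ℂ × ℝ → N × Circle) → ℝ × ℂ × ℝ → ℝ} (hJ : OrP IN J)
    {κ₀ : ℝ × ℂ × ℝ → N × Circle} {K K' : Set N} (h : LEqN K K') : IsC.{v} κ₀ K ↔ IsC.{v} κ₀ K' := by
  induction h with
  | refl K => exact Iff.rfl
  | symm _ ih => exact ih.symm
  | trans _ _ ih1 ih2 => exact ih1.trans ih2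
  | diff K hF => exact isC_push hF 1
  | four hb hZ => exact isC_four hJ hb hZ
  | rib hb hZ => exact isC_rib_iff hJ hb hZ

end

end Pool.Agent.NHB
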