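import Pool.Agent.NHB.Ori

/-!
# NHB/Rls: the sign of a local parametrisation relative to the chosen parametrisation `par`

`rl Φ q` is the sign of `Φ` at `q` relative to `par (Φ q)` at `0`.
-/

open scoped Manifold ContDiff Topology
open Set Filter
open Pool.Agent.RSG (E3)
open Pool.Agent.NHP (E)

namespace Pool.Agent.NHB

/-- the real sign -/
def rs (u : ℤˣ) : ℝ := ((u : ℤ) : ℝ)

theorem rs_or (u : ℤˣ) : rs u = 1 ∨ rs u = -1 := by
  rcases Int.units_eq_one_or u with rfl | rfl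
  · left; simp [rs]
  · right; simp [rs]

theorem rs_mul (u v : ℤˣ) : rs (u * v) = rs u * rs v := by
  simp [rs]

theorem rs_one : rs 1 = 1 := by simp [rs]

theorem rs_inj {u v : ℤˣ} (h : rs u = rs v) : u = v := by
  unfold rs at h
  exact Units.ext (by exact_mod_cast h)

theorem exists_rs {s : ℝ} (h : s = 1 ∨ s = -1) : ∃ u : ℤˣ, rs u = s := by
  rcases h with rfl | rfl
  · exact ⟨1, by simp [rs]⟩
  · exact ⟨-1, by simp [rs]⟩

theorem u_sq (u : ℤˣ) : u * u = 1 := by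
  rcases Int.units_eq_one_or u with rfl | rfl <;> simp

section
variable {V : Type*} [NormedAddCommGroup V] [NormedSpace ℝ V] {P : Type*}

theorem Rl_refl (A : V → P) (a : V) : Rl A a A a 1 := by
  refine ⟨id, rfl, CSG.ld_id a, Filter.EventuallyEq.rfl, ?_⟩
  have : dd (id : V → V) a = 1 := by
    unfold dd
    rw [fderiv_id]
    simp
  rw [this]; norm_num

/-- the relative sign is locally constant -/
theorem Rl_near {A B : V → P} {a b : V} {s : ℝ} [FiniteDimensional ℝ V] (h : Rl A a B b s) {U : Set V} (hU : U ∈ 𝓝 b) :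
    ∀ᶠ a' in 𝓝 a, ∃ b' ∈ U, A a' = B b' ∧ Rl A a' B b' s := by
  obtain ⟨g, h1, h2, h3, h4⟩ := h
  have h5 : ∀ᶠ y in 𝓝 a, g y ∈ U := (CSG.ld_continuousAt h2).eventually (by rw [h1]; exact hU)
  have h6 := CSG.ld_eventually h2
  have h7 := eventually_eventually_nhds.mpr h3
  have h8 : ContDiffAt ℝ ∞ g a := h2.contMDiffAt.contDiffAt
  have h9 : ContinuousAt (fun y => s * dd g y) a := by
    refine continuousAt_const.mul ?_
    have e1 : ContinuousAt (fderiv ℝ g) a := (h8.fderiv_right (m := 0) (by norm_num)).continuousAt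
    exact (ContinuousLinearMap.continuous_det.continuousAt (x := fderiv ℝ g a)).comp e1
  have h10 : ∀ᶠ y in 𝓝 a, 0 < s * dd g y := h9.eventually (lt_mem_nhds h4)
  filter_upwards [h5, h6, h7, h10] with y y1 y2 y3 y4
  exact ⟨g y, y1, y3.self_of_nhds, g, rfl, y2, y3, y4⟩

end

section
variable {N : Type*} [TopologicalSpace N] [ChartedSpace E3 N]

/-- local diffeomorphism `E → N` -/
abbrev Ldn (Φ : E → N) (q : E) : Prop := IsLocalDiffeomorphAt 𝓘(ℝ, ℂ × ℝ) (𝓡 3) ∞ Φ q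

theorem Rl_exists_u {A B : E → N} {a b : E} (hA : Ldn A a) (hB : Ldn B b) (h : A a = B b) :
    ∃ u : ℤˣ, Rl A a B b (rs u) := by
  obtain ⟨s, hs, h1⟩ := Rl_exists hA hB h
  obtain ⟨u, rfl⟩ := exists_rs hs
  exact ⟨u, h1⟩

theorem Rl_unique_u {A B : E → N} {a b : E} {u v : ℤˣ} (hB : Ldn B b) (h : Rl A a B b (rs u)) (h' : Rl A a B b (rs v)) :
    u = v := rs_inj (Rl_unique hB (rs_or u) (rs_or v) h h')

theorem Rl_symm_u {A B : E → N} {a b : E} {u : ℤˣ} (hA : Ldn A a) (hB : Ldn B b) (he : A a = B b)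
    (h : Rl A a B b (rs u)) : Rl B b A a (rs u) := by
  obtain ⟨v, hv⟩ := Rl_exists_u hB hA he.symm
  have h1 := h.comp hv
  rw [← rs_mul] at h1
  have h2 : u * v = 1 := Rl_unique_u hA h1 (by rw [rs_one]; exact Rl_refl A a)
  have h3 : v = u := by
    calc v = u * u * v := by rw [u_sq, one_mul]
      _ = u := by rw [mul_assoc, h2, mul_one]
  rw [← h3]; rw [h3] at hv ⊢; exact hv

variable [IsManifold (𝓡 3) ∞ N]

open Classical in
/-- the sign relative to the chosen parametrisation -/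
noncomputable def rl (Φ : E → N) (q : E) : ℤˣ :=
  if h : ∃ u : ℤˣ, Rl Φ q (par (Φ q)) 0 (rs u) then h.choose else 1

theorem rl_spec {Φ : E → N} {q : E} (h : Ldn Φ q) : Rl Φ q (par (Φ q)) 0 (rs (rl Φ q)) := by
  have h1 : ∃ u : ℤˣ, Rl Φ q (par (Φ q)) 0 (rs u) := Rl_exists_u h (par_ld _) (par_zero _).symm
  unfold rl
  rw [dif_pos h1]
  exact h1.choose_spec

/-- the relative sign of two parametrisations -/
theorem rl_rel {Φ Ψ : E → N} {q q' : E} (h : Ldn Φ q) (h' : Ldn Ψ q') (he : Φ q = Ψ q') :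
    Rl Φ q Ψ q' (rs (rl Φ q * rl Ψ q')) := by
  rw [rs_mul]
  refine (rl_spec h).comp ?_
  have h1 := Rl_symm_u h' (par_ld _) (par_zero _).symm (rl_spec h')
  rwa [← he] at h1

theorem rl_of {Φ Ψ : E → N} {q q' : E} {u : ℤˣ} (h : Ldn Φ q) (h' : Ldn Ψ q') (he : Φ q = Ψ q')
    (hR : Rl Φ q Ψ q' (rs u)) : rl Φ q = u * rl Ψ q' := by
  have h1 := Rl_unique_u h' hR (rl_rel h h' he)
  rw [h1, mul_assoc, u_sq, mul_one]

theorem rl_congr {Φ Ψ : E → N} {q : E} (h : Ldn Φ q) (he : Φ =ᶠ[𝓝 q] Ψ) : rl Φ q = rl Ψ q := by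
  have h' : Ldn Ψ q := CSG.ld_congr h he.symm
  have h1 : Rl Φ q Ψ q (rs 1) := by
    rw [rs_one]
    refine ⟨id, rfl, CSG.ld_id q, he, ?_⟩
    have : dd (id : E → E) q = 1 := by
      unfold dd
      rw [fderiv_id]
      simp
    rw [this]; norm_num
  rw [rl_of h h' he.self_of_nhds h1, one_mul]

/-- near `a`, the signs of `A` and `B` change in the same way -/
theorem rl_near {A B : E → N} {a b : E} (hA : Ldn A a) (hB : Ldn B b) (he : A a = B b) {U : Set E} (hU : U ∈ 𝓝 b) :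
    ∀ᶠ a' in 𝓝 a, ∃ b' ∈ U, A a' = B b' ∧ rl A a' = rl A a * rl B b * rl B b' := by
  have h1 := Rl_near (rl_rel hA hB he) (inter_mem hU (CSG.ld_eventually hB))
  filter_upwards [h1, CSG.ld_eventually hA] with a' ha' hA'
  obtain ⟨b', hb', e1, e2⟩ := ha'
  exact ⟨b', hb'.1, e1, rl_of hA' hb'.2 e1 e2⟩

end

end Pool.Agent.NHB
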