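import Pool.Agent.NHB.Cen
import Pool.Agent.KNH.StrM

/-!
# NHB/StrN: the two strands of a knot of `N` in a chart

The proof of KNH/StrM with `N` instead of the 3-sphere.
-/

open scoped Manifold ContDiff Topology
open Set Filter
open Complex (I)
open Pool.Agent.CSG (stp)
open Pool.Agent.RSG (E3 E4 S4 ex cj Thick OnKnot IsRollGluck)
open Pool.Agent.RBM (ThickT TwinP OnT Box Bundle frc)
open Pool.Agent.COR (Equi EquiB TwoStrands half)
open Pool.Agent.KNT (Dom Str Str2)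
open Pool.Agent.KNH (Rr hr Ss Ss2 StrM_inv)
open Pool.Agent.RBN (IN circ prd pb circ_add circ_zero circ_int circ_eq circ_per circ_ld circ_smooth)
open Pool.Agent.NHP (E Cht Push TubesN LEqN core)

namespace Pool.Agent.NHB

section
variable {N : Type*} [TopologicalSpace N] [ChartedSpace E3 N] [T2Space N]

theorem StrN_lift {c γ : ℝ → N} (hc : Continuous c) (hγ : Continuous γ)
    (hper : ∀ l, c (l + 1) = c l) (hinj : ∀ l l', c l = c l' → ∃ m : ℤ, l' = l + m)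
    (h : ∀ u, ∃ l, c l = γ u) : ∃ f : ℝ → ℝ, Continuous f ∧ ∀ u, c (f u) = γ u := by
  have hp : Function.Periodic c 1 := hper
  let cb : AddCircle (1 : ℝ) → N := hp.lift
  have hcb : ∀ l : ℝ, cb (l : AddCircle (1 : ℝ)) = c l := fun l => hp.lift_coe l
  have hcont : Continuous cb := continuous_coinduced_dom.2 hc
  have hi : Function.Injective cb := by
    intro x y hxy
    obtain ⟨l, rfl⟩ := QuotientAddGroup.mk_surjective x
    obtain ⟨l', rfl⟩ := QuotientAddGroup.mk_surjective y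
    obtain ⟨m, hm⟩ := hinj l l' hxy
    rw [hm]
    refine (QuotientAddGroup.eq).2 ?_
    rw [AddSubgroup.mem_zmultiples_iff]
    exact ⟨m, by simp⟩
  have hemb := (hcont.isClosedEmbedding hi).isEmbedding
  have hr : ∀ u, ∃ a, cb a = γ u := fun u => by
    obtain ⟨l, hl⟩ := h u
    exact ⟨(l : AddCircle (1 : ℝ)), by rw [hcb, hl]⟩
  choose G hG using hr
  have hGc : Continuous G := by
    rw [hemb.continuous_iff]
    have : cb ∘ G = γ := funext hG
    rw [this]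
    exact hγ
  obtain ⟨l0, hl0⟩ := QuotientAddGroup.mk_surjective (G 0)
  obtain ⟨F, ⟨-, hF⟩, -⟩ := (AddCircle.isCoveringMap_coe (1 : ℝ)).existsUnique_continuousMap_lifts
    ⟨G, hGc⟩ 0 l0 hl0
  refine ⟨F, F.continuous, fun u => ?_⟩
  have h1 : ((F u : ℝ) : AddCircle (1 : ℝ)) = G u := congrFun hF u
  rw [← hcb, h1, hG]

theorem StrN_csmooth {κ : ℝ × ℂ × ℝ → N × Circle} (hκ : ThickT IN κ) {c : ℝ → N}
    (hc : ∀ l, κ (l, 0, 0) = (c l, 1)) : ContMDiff 𝓘(ℝ, ℝ) (𝓡 3) ∞ c := by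
  intro l
  have h1 : ContMDiffAt 𝓘(ℝ, ℝ × ℂ × ℝ) IN ∞ κ (l, 0, 0) :=
    (hκ.loc l 0 0 (by simp)).contMDiffAt
  have h2 : ContDiff ℝ ∞ fun l : ℝ => ((l, 0, 0) : ℝ × ℂ × ℝ) :=
    contDiff_id.prodMk contDiff_const
  have h3 : ContMDiffAt 𝓘(ℝ, ℝ) IN ∞ (fun l : ℝ => κ (l, 0, 0)) l :=
    ContMDiffAt.comp (g := κ) (f := fun l : ℝ => ((l, 0, 0) : ℝ × ℂ × ℝ)) l h1
      h2.contDiffAt.contMDiffAt
  have h4 : ContMDiffAt 𝓘(ℝ, ℝ) (𝓡 3) ∞ (fun l : ℝ => (κ (l, 0, 0)).1) l :=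
    ContMDiffAt.comp (g := fun p : N × Circle => p.1) (f := fun l : ℝ => κ (l, 0, 0)) l
      contMDiffAt_fst h3
  refine h4.congr_of_eventuallyEq (Eventually.of_forall fun l => ?_)
  show c l = (κ (l, 0, 0)).1
  rw [hc]

theorem StrN_smooth {κ : ℝ × ℂ × ℝ → N × Circle} (hκ : ThickT IN κ) {c : ℝ → N}
    (hc : ∀ l, κ (l, 0, 0) = (c l, 1)) {β : E → N} (hβ : Emb β) {z : ℂ} {f : ℝ → ℝ}
    (hf : Continuous f) (h : ∀ u, c (f u) = (β (z, u))) :
    ContDiff ℝ ∞ f ∧ ∀ u, deriv f u ≠ 0 := by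
  have hio : ∀ u, ContMDiffAt 𝓘(ℝ, ℝ) (𝓡 3) ∞ (fun u : ℝ => β (z, u)) u := by
    intro u
    have h2 : ContDiff ℝ ∞ fun u : ℝ => ((z, u) : E) := contDiff_const.prodMk contDiff_id
    exact ContMDiffAt.comp (g := β) (f := fun u : ℝ => ((z, u) : E)) u (hβ.loc _).contMDiffAt
      h2.contDiffAt.contMDiffAt
  have hs : ContDiff ℝ ∞ f := by
    rw [contDiff_iff_contDiffAt]
    intro u₀
    obtain ⟨g, hg1, hg2⟩ := StrM_inv (hκ.loc (f u₀) 0 0 (by simp))
    have e1 : ContMDiffAt 𝓘(ℝ, ℝ) IN ∞ (fun u : ℝ => (((β (z, u)), 1) : N × Circle)) u₀ :=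
      (hio u₀).prodMk contMDiffAt_const
    have e0 : κ (f u₀, 0, 0) = (((β (z, u₀)), 1) : N × Circle) := by rw [hc, h]
    rw [e0] at hg1
    have e2 : ContMDiffAt 𝓘(ℝ, ℝ) 𝓘(ℝ, ℝ × ℂ × ℝ) ∞ (fun u : ℝ => g (((β (z, u)), 1) : N × Circle)) u₀ :=
      ContMDiffAt.comp (g := g) (f := fun u : ℝ => (((β (z, u)), 1) : N × Circle)) u₀ hg1 e1
    have e3 : ContDiffAt ℝ ∞ (fun u : ℝ => (g (((β (z, u)), 1) : N × Circle)).1) u₀ :=
      (contMDiffAt_iff_contDiffAt.1 e2).fst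
    refine e3.congr_of_eventuallyEq ?_
    have e4 : Continuous fun u : ℝ => ((f u, 0, 0) : ℝ × ℂ × ℝ) :=
      hf.prodMk continuous_const
    filter_upwards [e4.continuousAt.eventually hg2] with u hu
    rw [← h, ← hc, hu]
  refine ⟨hs, fun u₀ hd => ?_⟩
  obtain ⟨g, hg1, hg2⟩ := StrM_inv (hβ.loc (z, u₀))
  have e1 : ContMDiffAt 𝓘(ℝ, ℝ) 𝓘(ℝ, ℂ × ℝ) ∞ (fun l : ℝ => g (c l)) (f u₀) := by
    refine ContMDiffAt.comp (g := g) (f := c) (f u₀) ?_ (StrN_csmooth hκ hc _)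
    rw [h]
    exact hg1
  have e3 : ContDiffAt ℝ ∞ (fun l : ℝ => (g (c l)).2) (f u₀) :=
    (contMDiffAt_iff_contDiffAt.1 e1).snd
  have e4 : HasDerivAt (fun l : ℝ => (g (c l)).2)
      (deriv (fun l : ℝ => (g (c l)).2) (f u₀)) (f u₀) :=
    (e3.differentiableAt (by simp)).hasDerivAt
  have e5 : HasDerivAt f (deriv f u₀) u₀ := (hs.differentiable (by simp) u₀).hasDerivAt
  have e6 := e4.comp u₀ e5
  rw [hd, mul_zero] at e6
  have c1 : Continuous fun u : ℝ => ((z, u) : ℂ × ℝ) := continuous_const.prodMk continuous_id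
  have e7 : ∀ᶠ u in 𝓝 u₀, ((fun l : ℝ => (g (c l)).2) ∘ f) u = u := by
    filter_upwards [c1.continuousAt.eventually hg2] with u h1
    show (g (c (f u))).2 = u
    rw [h, h1]
  have e8 : HasDerivAt (fun u : ℝ => u) 0 u₀ :=
    e6.congr_of_eventuallyEq (by filter_upwards [e7] with u hu using hu.symm)
  exact one_ne_zero ((hasDerivAt_id' u₀).unique e8)

/-- one strand, increasing -/
theorem StrN_one {κ : ℝ × ℂ × ℝ → N × Circle} (hκ : ThickT IN κ) {c : ℝ → N}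
    (hc : ∀ l, κ (l, 0, 0) = (c l, 1)) (hper : ∀ l, c (l + 1) = c l)
    (hinj : ∀ l l', c l = c l' → ∃ m : ℤ, l' = l + m) {β : E → N} (hβ : Emb β) {z : ℂ}
    (hS : ∀ u, ∃ l, c l = (β (z, u))) :
    ∃ (f : ℝ → ℝ) (ε : ℝ), (ε = 1 ∨ ε = -1) ∧ ContDiff ℝ ∞ f ∧ (∀ u, 0 < deriv f u) ∧
      ∀ u, c (f u) = (β (z, ε * u)) := by
  have hcc : Continuous c := (StrN_csmooth hκ hc).continuous
  have hγ : Continuous fun u : ℝ => β (z, u) := by
    rw [continuous_iff_continuousAt]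
    intro u
    exact ContinuousAt.comp (g := β) (f := fun u : ℝ => ((z, u) : E))
      (hβ.loc _).contMDiffAt.continuousAt (by fun_prop)
  obtain ⟨f, hf, hfe⟩ := StrN_lift hcc hγ hper hinj hS
  obtain ⟨hs, hd⟩ := StrN_smooth hκ hc hβ hf hfe
  have hi : Function.Injective f := by
    intro u u' huu
    have h1 : (β (z, u)) = (β (z, u')) := by rw [← hfe, ← hfe, huu]
    have h2 := hβ.inj h1
    exact (Prod.ext_iff.1 h2).2
  rcases hf.strictMono_of_inj hi with hm | hm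
  · refine ⟨f, 1, Or.inl rfl, hs, fun u => ?_, fun u => ?_⟩
    · exact lt_of_le_of_ne (hm.monotone.deriv_nonneg) (hd u).symm
    · rw [one_mul, hfe]
  · refine ⟨fun u => f (-u), -1, Or.inr rfl, hs.comp contDiff_neg, fun u => ?_, fun u => ?_⟩
    · have h1 : HasDerivAt f (deriv f (-u)) (-u) := (hs.differentiable (by simp) _).hasDerivAt
      have h2 : HasDerivAt (fun u : ℝ => f (-u)) (deriv f (-u) * -1) u :=
        HasDerivAt.comp (h := fun u : ℝ => -u) u h1 (hasDerivAt_neg u)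
      have hm' : StrictMono fun u : ℝ => f (-u) := fun x y hxy => hm (neg_lt_neg hxy)
      refine lt_of_le_of_ne (hm'.monotone.deriv_nonneg) ?_
      rw [h2.deriv]
      intro h3
      exact hd (-u) (by linarith)
    · rw [hfe, neg_one_mul]

theorem exists_strands {κ : ℝ × ℂ × ℝ → N × Circle} (hκ : ThickT IN κ) {c : ℝ → N}
    (hc : ∀ l, κ (l, 0, 0) = (c l, 1)) {β : E → N} (hβ : Emb β)
    (hS : ∀ q, (∃ l, c l = (β q)) ↔ q ∈ Ss) :
    ∃ (f₁ f₂ : ℝ → ℝ) (ε₁ ε₂ : ℝ), TwoStrands (pb β) (fun l => (c l, 1)) f₁ f₂ ε₁ ε₂ ∧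
      (∀ u, c (f₁ u) = (β (1, ε₁ * u))) ∧ (∀ u, c (f₂ u) = (β (-1, ε₂ * u))) ∧
      ∀ s, 0 < s → ∀ l, (f₁ s ≤ l ∧ l ≤ f₂ (-s)) ∨ (f₂ s ≤ l ∧ l ≤ f₁ (-s) + 1) →
        ∀ z u, c l = (β (z, u)) → s ≤ |u| := by
  have hper : ∀ l, c (l + 1) = c l := by
    intro l
    have h1 := hκ.perl l 0 0
    rw [hc, hc] at h1
    exact (Prod.ext_iff.1 h1).1
  have hinj : ∀ l l', c l = c l' → ∃ m : ℤ, l' = l + m := by
    intro l l' h
    have h1 : κ (l, 0, 0) = κ (l', 0, 0) := by rw [hc, hc, h]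
    exact (hκ.inj l 0 0 l' 0 0 (by simp) (by simp) h1).2.1
  have hperz : ∀ (m : ℤ) l, c (l + m) = c l := by
    intro m l
    have hp : Function.Periodic c 1 := hper
    have := hp.int_mul m l
    rwa [mul_one] at this
  obtain ⟨f₁, ε₁, hε₁, hs₁, hd₁, he₁⟩ := StrN_one (z := 1) hκ hc hper hinj hβ
    (fun u => (hS _).2 (Or.inl rfl))
  obtain ⟨f, ε₂, hε₂, hs, hd, he⟩ := StrN_one (z := -1) hκ hc hper hinj hβ
    (fun u => (hS _).2 (Or.inr rfl))
  -- never an integer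
  have hne : ∀ u u' (m : ℤ), f u' - f₁ u ≠ m := by
    intro u u' m h
    have h1 : c (f u') = c (f₁ u) := by
      rw [← hperz m (f₁ u)]
      congr 1
      linarith
    rw [he, he₁] at h1
    have h2 := (Prod.ext_iff.1 (hβ.inj h1)).1
    simp only at h2
    have h3 := congrArg Complex.re h2
    simp at h3
    linarith
  set m₀ : ℤ := ⌊f 0 - f₁ 0⌋ with hm₀
  set f₂ : ℝ → ℝ := fun u => f u - m₀ with hf₂
  have hs₂ : ContDiff ℝ ∞ f₂ := hs.sub contDiff_const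
  have hd₂ : ∀ u, 0 < deriv f₂ u := by
    intro u
    have : HasDerivAt f₂ (deriv f u) u := ((hs.differentiable (by simp) u).hasDerivAt).sub_const _
    rw [this.deriv]
    exact hd u
  have he₂ : ∀ u, c (f₂ u) = (β (-1, ε₂ * u)) := by
    intro u
    rw [← he, ← hperz (-m₀) (f u)]
    congr 1
    simp [hf₂, sub_eq_add_neg]
  have hne₂ : ∀ u u' (m : ℤ), f₂ u' - f₁ u ≠ m := by
    intro u u' m h
    refine hne u u' (m + m₀) ?_
    push_cast
    simp only [hf₂] at h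
    linarith
  have h0 : 0 ≤ f₂ 0 - f₁ 0 := by
    have := Int.floor_le (f 0 - f₁ 0)
    simp only [hf₂]
    linarith
  have h1 : f₂ 0 - f₁ 0 ≤ 1 := by
    have := (Int.lt_floor_add_one (f 0 - f₁ 0)).le
    simp only [hf₂]
    linarith
  have hcF : Continuous fun p : ℝ × ℝ => f₂ p.2 - f₁ p.1 :=
    (hs₂.continuous.comp continuous_snd).sub (hs₁.continuous.comp continuous_fst)
  have hlow : ∀ u u', 0 < f₂ u' - f₁ u := by
    intro u u'
    by_contra hcon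
    obtain ⟨p, hp⟩ := mem_range_of_exists_le_of_exists_ge hcF ⟨(u, u'), not_lt.1 hcon⟩
      ⟨((0, 0) : ℝ × ℝ), h0⟩
    exact hne₂ p.1 p.2 0 (by rw [Int.cast_zero]; exact hp)
  have hupp : ∀ u u', f₂ u' - f₁ u < 1 := by
    intro u u'
    by_contra hcon
    obtain ⟨p, hp⟩ := mem_range_of_exists_le_of_exists_ge hcF ⟨((0, 0) : ℝ × ℝ), h1⟩
      ⟨(u, u'), not_lt.1 hcon⟩
    exact hne₂ p.1 p.2 1 (by rw [Int.cast_one]; exact hp)
  have hm₁ : StrictMono f₁ := strictMono_of_deriv_pos hd₁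
  have hm₂ : StrictMono f₂ := strictMono_of_deriv_pos hd₂
  have hsq₁ : ε₁ * ε₁ = 1 := by rcases hε₁ with h | h <;> rw [h] <;> norm_num
  have hsq₂ : ε₂ * ε₂ = 1 := by rcases hε₂ with h | h <;> rw [h] <;> norm_num
  have habs₁ : ∀ u, |ε₁ * u| = |u| := by
    intro u
    rcases hε₁ with h | h <;> rw [h] <;> simp
  have habs₂ : ∀ u, |ε₂ * u| = |u| := by
    intro u
    rcases hε₂ with h | h <;> rw [h] <;> simp
  have hoff : ∀ s, 0 < s → ∀ l, (f₁ s ≤ l ∧ l ≤ f₂ (-s)) ∨ (f₂ s ≤ l ∧ l ≤ f₁ (-s) + 1) →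
        ∀ z u, c l = (β (z, u)) → s ≤ |u| := by
    intro s hs0 l hl z u hlu
    by_contra hcon
    rw [not_le] at hcon
    have a1 := hlow (-s) (-s)
    have a2 := hupp (-s) (-s)
    have a3 := hlow s s
    have a4 := hupp s s
    have a5 := hlow s (-s)
    have a6 := hupp (-s) s
    rcases (hS (z, u)).1 ⟨l, hlu⟩ with hz | hz
    · have hz : z = 1 := hz
      subst hz
      have h2 : c (f₁ (ε₁ * u)) = c l := by
        rw [he₁, ← mul_assoc, hsq₁, one_mul, hlu]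
      obtain ⟨m, hm⟩ := hinj _ _ h2
      have h3 := abs_lt.1 ((habs₁ u).trans_lt hcon)
      have h4 := hm₁ h3.1
      have h5 := hm₁ h3.2
      have h6 : (0 : ℝ) < m ∧ (m : ℝ) < 1 := by
        rcases hl with ⟨hl1, hl2⟩ | ⟨hl1, hl2⟩
        · constructor <;> linarith
        · constructor <;> linarith
      have h7 : (0 : ℤ) < m := by exact_mod_cast h6.1
      have h8 : m < (1 : ℤ) := by exact_mod_cast h6.2
      omega
    · have hz : z = -1 := hz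
      subst hz
      have h2 : c (f₂ (ε₂ * u)) = c l := by
        rw [he₂, ← mul_assoc, hsq₂, one_mul, hlu]
      obtain ⟨m, hm⟩ := hinj _ _ h2
      have h3 := abs_lt.1 ((habs₂ u).trans_lt hcon)
      have h4 := hm₂ h3.1
      have h5 := hm₂ h3.2
      rcases hl with ⟨hl1, hl2⟩ | ⟨hl1, hl2⟩
      · have h6 : (-1 : ℝ) < m ∧ (m : ℝ) < 0 := by constructor <;> linarith
        have h7 : (-1 : ℤ) < m := by exact_mod_cast h6.1
        have h8 : m < (0 : ℤ) := by exact_mod_cast h6.2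
        omega
      · have h6 : (0 : ℝ) < m ∧ (m : ℝ) < 1 := by constructor <;> linarith
        have h7 : (0 : ℤ) < m := by exact_mod_cast h6.1
        have h8 : m < (1 : ℤ) := by exact_mod_cast h6.2
        omega
  refine ⟨f₁, f₂, ε₁, ε₂, ?_, he₁, he₂, hoff⟩
  refine ⟨hs₁, hs₂, hd₁, hd₂, hε₁, hε₂, ?_, ?_, ?_, ?_, ?_⟩
  · linarith [hlow 1 (-1)]
  · linarith [hupp (-1) 1]
  · intro u _
    show ((c (f₁ u), 1) : N × Circle) = ((β (1, ε₁ * u)), circ 0)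
    rw [he₁, circ_zero]
  · intro u _
    show ((c (f₂ u), 1) : N × Circle) = ((β (-1, ε₂ * u)), circ 0)
    rw [he₂, circ_zero]
  · intro l hl z s t _ hs' h
    have h1 : c l = (β (z, s)) := (Prod.ext_iff.1 h).1
    have := hoff 1 one_pos l hl z s h1
    linarith

end

end Pool.Agent.NHB
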