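import Pool.Agent.NHB.FouN
import Pool.Agent.KNH.ThnQ
import Pool.Agent.KNH.PbM
import Pool.Agent.RBN.Hol
import Pool.Agent.RBN.Thin

/-!
# NHB/ThnN: thinning

`thn w₀` is `KNH.thn w₀` (the same function).  `thn_move` is in KNH/ThnQ.  `bb β σ` is a `RBN.TubeHom`; thin ribbons by `RBN.exists_thin`.
-/

open scoped Manifold ContDiff Topology
open Set Filter
open Complex (I)
open Pool.Agent.CSG (stp)
open Pool.Agent.RSG (E3 E4 S4 ex cj Thick OnKnot IsRollGluck)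
open Pool.Agent.RBM (ThickT TwinP OnT Box Bundle frc)
open Pool.Agent.COR (Equi EquiB TwoStrands half)
open Pool.Agent.KNT (Dom Str Str2)
open Pool.Agent.KNH (Rr hr Ss Ss2 Rem)
open Pool.Agent.RBN (IN circ prd pb circ_add circ_zero circ_int circ_eq circ_per circ_ld circ_smooth TubeHom ThinOK Mov)
open Pool.Agent.NHP (E Cht Push TubesN LEqN core)

namespace Pool.Agent.NHB

universe v

theorem wf_two (w₀ u : ℝ) : RBN.wf w₀ (2 * u) = KNH.wf w₀ u := by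
  unfold RBN.wf KNH.wf
  congr 2
  unfold stp
  congr 1
  have h : (2 * u) ^ 2 - 1 / 16 = 4 * (u ^ 2 - 1 / 64) := by ring
  rw [h]
  ring

theorem thn_eq (w₀ : ℝ) : thn w₀ = KNH.thn w₀ := by
  funext q
  unfold thn KNH.thn
  rw [wf_two]

theorem thn_snd (w₀ : ℝ) (q : E) : (thn w₀ q).2 = q.2 := rfl

theorem thn_ld {w₀ : ℝ} (h0 : 0 < w₀) (h1 : w₀ ≤ 1) (q : E) :
    IsLocalDiffeomorphAt 𝓘(ℝ, ℂ × ℝ) 𝓘(ℝ, ℂ × ℝ) ∞ (thn w₀) q := by
  rw [thn_eq]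
  have h2 : KNH.Emb (id : E → E) := by
    refine ⟨contDiff_id, Function.injective_id, fun q => ?_⟩
    rw [fderiv_id]
    exact Function.injective_id
  exact KNH.emb_ld (KNH.thn_emb h2 h0 h1) q

theorem thn_inj {w₀ : ℝ} (h0 : 0 < w₀) (h1 : w₀ ≤ 1) : Function.Injective (thn w₀) := by
  rw [thn_eq]
  exact KNH.thn_inj h0 h1

theorem thn_norm {w₀ : ℝ} (h0 : 0 < w₀) (h1 : w₀ ≤ 1) (q : E) : ‖(thn w₀ q).1‖ ≤ ‖q.1‖ := by
  rw [thn_eq]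
  show ‖((KNH.wf w₀ q.2 : ℝ) : ℂ) * q.1‖ ≤ ‖q.1‖
  rw [norm_mul, Complex.norm_real, Real.norm_of_nonneg (KNH.wf_pos h0 h1 _).le]
  have h2 := KNH.wf_le h1 q.2
  nlinarith [norm_nonneg q.1]

section
variable {N : Type*} [TopologicalSpace N] [ChartedSpace E3 N]

theorem thn_emb {β : E → N} (hβ : Emb β) {w₀ : ℝ} (h0 : 0 < w₀) (h1 : w₀ ≤ 1) : Emb fun q => β (thn w₀ q) :=
  ⟨fun q => IsLocalDiffeomorphAt.comp (hf := thn_ld h0 h1 q) (g := β) (hg := hβ.loc _) .., hβ.inj.comp (thn_inj h0 h1)⟩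

theorem isC_thin [T2Space N] {κ₀ : ℝ × ℂ × ℝ → N × Circle} {β : E → N} (hβ : Emb β)
    {Y : Set N} (hY : ∀ q, β q ∉ Y) {w₀ : ℝ} (h0 : 0 < w₀) (h1 : w₀ ≤ 1) :
    IsC.{v} κ₀ (Y ∪ β '' Ss) ↔ IsC.{v} κ₀ (Y ∪ (fun q => β (thn w₀ q)) '' Ss) := by
  obtain ⟨Ψ, hΨ, hΨS⟩ := KNH.ThnM_move h0 h1
  obtain ⟨F, hF, hFβ, hFx⟩ := exists_ext hβ hΨ
  have e : F '' (Y ∪ β '' Ss) = Y ∪ (fun q => β (thn w₀ q)) '' Ss := by
    rw [image_union]
    congr 1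
    · have : EqOn F id Y := by
        intro y hy
        apply hFx
        rintro ⟨q, rfl⟩
        exact hY q hy
      rw [this.image_eq, image_id]
    · rw [image_image]
      apply image_congr
      intro q hq
      rw [hFβ, hΨS q hq, thn_eq]
  rw [← e]
  exact isC_map_iff hF

/-- the coordinates of `bb` -/
noncomputable def ThnN_L (σ : ℝ) (hσ : σ = 1 ∨ σ = -1) : E ≃ E where
  toFun q := (cj σ q.1, q.2 / 2)
  invFun q := (cj σ q.1, 2 * q.2)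
  left_inv q := by
    refine Prod.ext (RSG.cj_cj hσ q.1) ?_
    show 2 * (q.2 / 2) = q.2
    ring
  right_inv q := by
    refine Prod.ext (RSG.cj_cj hσ q.1) ?_
    show 2 * q.2 / 2 = q.2
    ring

theorem ThnN_smooth (σ : ℝ) : ContDiff ℝ ∞ fun q : E => ((cj σ q.1, q.2 / 2) : E) :=
  ((RSG.cj_smooth σ).comp contDiff_fst).prodMk (contDiff_snd.div_const 2)

theorem ThnN_ld {σ : ℝ} (hσ : σ = 1 ∨ σ = -1) (q : E) :
    IsLocalDiffeomorphAt 𝓘(ℝ, ℂ × ℝ) 𝓘(ℝ, ℂ × ℝ) ∞ (fun q : E => ((cj σ q.1, q.2 / 2) : E)) q := by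
  refine CSG.ld_of_perm (f := ThnN_L σ hσ) (ThnN_smooth σ) ?_ q
  exact ((RSG.cj_smooth σ).comp contDiff_fst).prodMk (contDiff_const.mul contDiff_snd)

theorem ThnN_abs (s : ℝ) : |s / 2| = |s| / 2 := by
  rw [abs_div, abs_two]

theorem tube_bb {β : ℝ → E → N} {Y : Set N} (h : Fam β Y) {σ : ℝ} (hσ : σ = 1 ∨ σ = -1) : TubeHom (bb β σ) := by
  have hinj : ∀ x, Function.Injective (β x) → ∀ (z : ℂ) (s : ℝ) (z' : ℂ) (s' : ℝ),
      bb β σ x (z, s) = bb β σ x (z', s') → z = z' ∧ s = s' := by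
    intro x hx z s z' s' he
    have h1 := (ThnN_L σ hσ).injective (a₁ := (z, s)) (a₂ := (z', s')) (hx he)
    rw [Prod.mk.injEq] at h1
    exact h1
  refine ⟨?_, ?_, ?_, fun z s z' s' _ _ _ _ => hinj 0 h.inj0 z s z' s', fun z s z' s' _ _ _ _ => hinj 1 h.inj1 z s z' s', ?_⟩
  · intro x hx z s _ _
    have h1 : ContDiff ℝ ∞ (fun p : ℝ × (ℂ × ℝ) => ((p.1, (cj σ p.2.1, p.2.2 / 2)) : ℝ × (ℂ × ℝ))) :=
      contDiff_fst.prodMk ((ThnN_smooth σ).comp contDiff_snd)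
    exact ContMDiffAt.comp (g := fun p : ℝ × (ℂ × ℝ) => β p.1 p.2)
      (f := fun p : ℝ × (ℂ × ℝ) => ((p.1, (cj σ p.2.1, p.2.2 / 2)) : ℝ × (ℂ × ℝ))) (x, (z, s))
      (h.smooth x hx _) h1.contDiffAt.contMDiffAt
  · intro x hx z s _ _
    exact IsLocalDiffeomorphAt.comp (hf := ThnN_ld hσ (z, s)) (g := β x) (hg := h.loc x hx _) ..
  · intro x hx z s _ _ hs
    refine h.ends x hx _ ?_
    show 1 / 8 ≤ |s / 2|
    rw [ThnN_abs]
    linarith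
  · intro x hx z s z' s' _ hs _ hs' _
    refine h.sep x hx _ _ ?_ ?_
    · show |s / 2| ≤ 1 / 8
      rw [ThnN_abs]
      linarith
    · show 1 / 4 ≤ |s' / 2|
      rw [ThnN_abs]
      linarith

omit [TopologicalSpace N] [ChartedSpace E3 N] in
/-- the thin boxes -/
theorem half_thn (β : ℝ → E → N) (w₀ σ x : ℝ) :
    half σ (pb fun q => β x (thn w₀ q)) = pb fun q => bb β σ x (RBN.thn w₀ q) := by
  funext q
  show (β x ((RBN.wf w₀ (2 * (q.2.1 / 2)) : ℂ) * cj σ q.1, q.2.1 / 2), circ q.2.2) =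
    (β x (cj σ ((RBN.wf w₀ q.2.1 : ℂ) * q.1), q.2.1 / 2), circ q.2.2)
  have h1 : 2 * (q.2.1 / 2) = q.2.1 := by ring
  have h2 : cj σ ((RBN.wf w₀ q.2.1 : ℂ) * q.1) = (RBN.wf w₀ q.2.1 : ℂ) * cj σ q.1 := by
    apply Complex.ext
    · simp [cj]
    · simp [cj]
      ring
  rw [h1, h2]

omit [TopologicalSpace N] [ChartedSpace E3 N] in
theorem thin_conj {β : ℝ → E → N} {w₀ δ : ℝ} (h : ThinOK (bb β 1) w₀ δ) {σ : ℝ} (hσ : σ = 1 ∨ σ = -1) :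
    ThinOK (bb β σ) w₀ δ := by
  refine ⟨h.w_pos, h.w_le, h.d_pos, h.d_le, ?_⟩
  intro x hx q q' hq hq' hs hs' hd he
  have key : ∀ q : E, bb β σ x (RBN.thn w₀ q) = bb β 1 x (RBN.thn w₀ (cj σ q.1, q.2)) := by
    intro q
    show β x (cj σ ((RBN.wf w₀ q.2 : ℂ) * q.1), q.2 / 2) =
      β x (cj 1 ((RBN.wf w₀ q.2 : ℂ) * cj σ q.1), q.2 / 2)
    have h2 : cj σ ((RBN.wf w₀ q.2 : ℂ) * q.1) = cj 1 ((RBN.wf w₀ q.2 : ℂ) * cj σ q.1) := by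
      apply Complex.ext
      · simp [cj]
      · simp [cj]
        ring
    rw [h2]
  rw [key, key] at he
  have h3 := h.inj x hx (cj σ q.1, q.2) (cj σ q'.1, q'.2) (by rw [RSG.cj_norm hσ]; exact hq)
    (by rw [RSG.cj_norm hσ]; exact hq') hs hs' hd he
  rw [Prod.mk.injEq] at h3
  refine Prod.ext ?_ h3.2
  rw [← RSG.cj_cj hσ q.1, h3.1, RSG.cj_cj hσ]

omit [TopologicalSpace N] [ChartedSpace E3 N] in
theorem mov_mvp {β : ℝ → E → N} {σ : ℝ} (hσ : σ = 1 ∨ σ = -1) {p : N} (hp : p ∈ Mov (bb β σ)) : p ∈ Mvp β := by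
  obtain ⟨x, hx, z, s, hz, hs, rfl⟩ := hp
  refine ⟨x, hx, (cj σ z, s / 2), ?_, ?_, rfl⟩
  · show ‖cj σ z‖ ≤ 4
    rw [RSG.cj_norm hσ]
    exact hz.le
  · show |s / 2| ≤ 3 / 16
    rw [ThnN_abs]
    linarith

theorem mvp_compact {β : ℝ → E → N} {Y : Set N} (h : Fam β Y) : IsCompact (Mvp β) := by
  have h1 : Mvp β = (fun p : ℝ × (ℂ × ℝ) => β p.1 p.2) ''
      (Icc (0 : ℝ) 1 ×ˢ (Metric.closedBall (0 : ℂ) 4 ×ˢ Icc (-(3 / 16)) (3 / 16))) := by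
    ext p
    constructor
    · rintro ⟨x, hx, q, h1, h2, rfl⟩
      exact ⟨(x, q), ⟨hx, by rw [mem_closedBall_zero_iff]; exact h1, abs_le.1 h2⟩, rfl⟩
    · rintro ⟨⟨x, q⟩, ⟨hx, h1, h2⟩, rfl⟩
      exact ⟨x, hx, q, by rwa [mem_closedBall_zero_iff] at h1, abs_le.2 h2, rfl⟩
  rw [h1]
  refine (isCompact_Icc.prod ((isCompact_closedBall _ _).prod isCompact_Icc)).image_of_continuousOn ?_
  intro p hp
  exact (h.smooth p.1 hp.1 p.2).continuousAt.continuousWithinAt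

theorem mvp_out {β : ℝ → E → N} {Y : Set N} (h : Fam β Y) {q : E} (hq : 1 / 4 ≤ |q.2|) : β 0 q ∉ Mvp β := by
  rintro ⟨x, hx, q', h1, h2, he⟩
  rcases le_total |q'.2| (1 / 8) with h3 | h3
  · exact h.sep x hx q' q h3 hq he.symm
  · rw [h.ends x hx q' h3] at he
    rw [h.inj0 he] at hq
    linarith

theorem mvp_dis {β : ℝ → E → N} {Y : Set N} (h : Fam β Y) {y : N} (hy : y ∈ Y) : y ∉ Mvp β := by
  rintro ⟨x, hx, q', h1, h2, rfl⟩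
  exact h.dis x hx q' hy

end

end Pool.Agent.NHB
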