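import Pool.Agent.NHB.Cen
import Pool.Agent.COR.Kmv
import Pool.Agent.KNH.StrM

/-!
# NHB/ToN: an equivariant thick torus of `N × Circle` comes from a thick knot of `N`

`κ (l, v, t) = (k (l, v), u (l, v) circ t)`: `k` is a thick knot, `u (l, 0) = 1`; near the core `u = circ û` with `û = arg u / 2π`, and a shear
in the direction of the circle, supported near the core, changes `κ` to `prd k` near the core.
-/

open scoped Manifold ContDiff Topology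
open Set Filter
open Complex (I)
open Pool.Agent.CSG (stp)
open Pool.Agent.RSG (E3 E4 S4 ex cj Thick OnKnot IsRollGluck)
open Pool.Agent.RBM (ThickT TwinP OnT Box Bundle frc)
open Pool.Agent.COR (Equi EquiB)
open Pool.Agent.RBN (IN circ prd pb circ_add circ_zero circ_int circ_eq circ_per circ_ld circ_smooth circ_surj Cir_arg)
open Pool.Agent.NHP (E core)

namespace Pool.Agent.NHB

universe v

section
variable {N : Type*} [TopologicalSpace N] [ChartedSpace E3 N]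

/-- the knot -/
def kk {N : Type*} (κ : ℝ × ℂ × ℝ → N × Circle) (q : ℝ × ℂ) : N := (κ (q.1, q.2, 0)).1

/-- the phase -/
def uu {N : Type*} (κ : ℝ × ℂ × ℝ → N × Circle) (q : ℝ × ℂ) : Circle := (κ (q.1, q.2, 0)).2

theorem ToN_eq {N : Type*} {κ : ℝ × ℂ × ℝ → N × Circle} (he : Equi rot κ) (l : ℝ) (v : ℂ) (t : ℝ) :
    κ (l, v, t) = (kk κ (l, v), uu κ (l, v) * circ t) := he l v t

theorem ToN_incl : ContDiff ℝ ∞ fun q : ℝ × ℂ => ((q.1, q.2, 0) : ℝ × ℂ × ℝ) := by fun_prop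

theorem ToN_ksmooth {κ : ℝ × ℂ × ℝ → N × Circle} (hκ : ThickT IN κ) {q : ℝ × ℂ} (hq : ‖q.2‖ < 1) :
    ContMDiffAt 𝓘(ℝ, ℝ × ℂ) (𝓡 3) ∞ (kk κ) q ∧ ContMDiffAt 𝓘(ℝ, ℝ × ℂ) (𝓡 1) ∞ (uu κ) q := by
  have h1 : ContMDiffAt 𝓘(ℝ, ℝ × ℂ) IN ∞ (fun q : ℝ × ℂ => κ (q.1, q.2, 0)) q :=
    ContMDiffAt.comp (g := κ) (f := fun q : ℝ × ℂ => ((q.1, q.2, 0) : ℝ × ℂ × ℝ)) q
      (hκ.loc q.1 q.2 0 hq).contMDiffAt ToN_incl.contDiffAt.contMDiffAt
  exact ⟨ContMDiffAt.comp (g := fun p : N × Circle => p.1) (f := fun q : ℝ × ℂ => κ (q.1, q.2, 0)) q contMDiffAt_fst h1,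
    ContMDiffAt.comp (g := fun p : N × Circle => p.2) (f := fun q : ℝ × ℂ => κ (q.1, q.2, 0)) q contMDiffAt_snd h1⟩

theorem ToN_inj {κ : ℝ × ℂ × ℝ → N × Circle} (hκ : ThickT IN κ) (he : Equi rot κ) {l l' : ℝ} {v v' : ℂ}
    (hv : ‖v‖ < 1) (hv' : ‖v'‖ < 1) (h : kk κ (l, v) = kk κ (l', v')) : v = v' ∧ ∃ m : ℤ, l' = l + m := by
  obtain ⟨t, ht⟩ := circ_surj ((uu κ (l', v'))⁻¹ * uu κ (l, v))
  have h1 : κ (l, v, 0) = κ (l', v', t) := by
    rw [ToN_eq he, ToN_eq he, ht, h, circ_zero, mul_one, mul_inv_cancel_left]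
  obtain ⟨h2, h3, -⟩ := hκ.inj _ _ _ _ _ _ hv hv' h1
  exact ⟨h2, h3⟩

theorem ToN_thick {κ : ℝ × ℂ × ℝ → N × Circle} (hκ : ThickT IN κ) (he : Equi rot κ) : Thick (kk κ) where
  per l v := by
    show (κ (l + 1, v, 0)).1 = (κ (l, v, 0)).1
    rw [hκ.perl]
  loc := by
    intro l v hv
    set G := (hκ.loc l v 0 hv).localInverse with hG
    have hG1 := (hκ.loc l v 0 hv).localInverse_isLocalDiffeomorphAt
    have hG2 : ∀ᶠ p in 𝓝 (κ (l, v, 0)), κ (G p) = p := (hκ.loc l v 0 hv).localInverse_eventuallyEq_right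
    have hG3 : G (κ (l, v, 0)) = (l, v, 0) :=
      (hκ.loc l v 0 hv).localInverse_left_inv (hκ.loc l v 0 hv).localInverse_mem_target
    rw [← hG] at hG1
    have hp : κ (l, v, 0) = (kk κ (l, v), uu κ (l, v)) := rfl
    rw [hp] at hG1 hG2 hG3
    -- the inclusion of `N`
    have hi : ∀ x : N, ContMDiffAt (𝓡 3) IN ∞ (fun x : N => ((x, uu κ (l, v)) : N × Circle)) x :=
      fun x => contMDiffAt_id.prodMk contMDiffAt_const
    have hic : ContinuousAt (fun x : N => ((x, uu κ (l, v)) : N × Circle)) (kk κ (l, v)) := (hi _).continuousAt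
    have hpr : ContDiff ℝ ∞ fun q : ℝ × ℂ × ℝ => ((q.1, q.2.1) : ℝ × ℂ) := by fun_prop
    have hs : ∀ᶠ x in 𝓝 (kk κ (l, v)), ContMDiffAt (𝓡 3) 𝓘(ℝ, ℝ × ℂ × ℝ) ∞ (fun x : N => G (x, uu κ (l, v))) x := by
      filter_upwards [hic.eventually (CSG.ld_eventually hG1)] with x hx
      exact ContMDiffAt.comp (g := G) (f := fun x : N => ((x, uu κ (l, v)) : N × Circle)) x hx.contMDiffAt (hi x)
    have hc : ContinuousAt (fun x : N => G (x, uu κ (l, v))) (kk κ (l, v)) := hs.self_of_nhds.continuousAt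
    have hnb : ∀ᶠ x in 𝓝 (kk κ (l, v)), |(G (x, uu κ (l, v))).1 - l| < 1 / 2 ∧ ‖(G (x, uu κ (l, v))).2.1‖ < 1 := by
      have h1 : ∀ᶠ q : ℝ × ℂ × ℝ in 𝓝 (l, v, 0), |q.1 - l| < 1 / 2 ∧ ‖q.2.1‖ < 1 := by
        have e1 : ContinuousAt (fun q : ℝ × ℂ × ℝ => |q.1 - l|) (l, v, 0) := by fun_prop
        have e2 : ContinuousAt (fun q : ℝ × ℂ × ℝ => ‖q.2.1‖) (l, v, 0) := by fun_prop
        exact (e1.eventually (gt_mem_nhds (by simp))).and (e2.eventually (gt_mem_nhds hv))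
      rw [← hG3] at h1
      exact hc.eventually h1
    refine RSG.ld_two (g := fun x : N => ((G (x, uu κ (l, v))).1, (G (x, uu κ (l, v))).2.1)) ?_ ?_ ?_ ?_
    · have e2 : ContinuousAt (fun q : ℝ × ℂ => ‖q.2‖) (l, v) := by fun_prop
      filter_upwards [e2.eventually (gt_mem_nhds hv)] with q hq
      exact (ToN_ksmooth hκ hq).1
    · filter_upwards [hs] with x hx
      exact ContMDiffAt.comp (g := fun q : ℝ × ℂ × ℝ => ((q.1, q.2.1) : ℝ × ℂ)) (f := fun x : N => G (x, uu κ (l, v))) x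
        hpr.contDiffAt.contMDiffAt hx
    · have hk : ContinuousAt (kk κ) (l, v) := (ToN_ksmooth (q := (l, v)) hκ hv).1.continuousAt
      have e1 : ContinuousAt (fun q : ℝ × ℂ => |q.1 - l|) (l, v) := by fun_prop
      have e2 : ContinuousAt (fun q : ℝ × ℂ => ‖q.2‖) (l, v) := by fun_prop
      have e1' : ∀ᶠ q : ℝ × ℂ in 𝓝 (l, v), |q.1 - l| < 1 / 2 := e1.eventually (gt_mem_nhds (by simp))
      filter_upwards [hk.eventually (hnb.and (hic.eventually hG2)), e1',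
        e2.eventually (gt_mem_nhds hv)] with q hq1 hq2 hq3
      obtain ⟨⟨a1, a2⟩, a3⟩ := hq1
      set w := G (kk κ q, uu κ (l, v)) with hw
      have b1 : kk κ (w.1, w.2.1) = kk κ (q.1, q.2) := by
        have := congrArg Prod.fst a3
        have h5 : κ w = (kk κ (w.1, w.2.1), uu κ (w.1, w.2.1) * circ w.2.2) := ToN_eq he w.1 w.2.1 w.2.2
        rw [h5] at this
        exact this
      obtain ⟨b2, m, b3⟩ := ToN_inj hκ he a2 hq3 b1
      have b4 : m = 0 := by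
        rw [b3] at hq2
        have c1 := abs_lt.1 a1
        have c2 := abs_lt.1 hq2
        have c3 : (m : ℝ) < 1 := by linarith
        have c4 : (-1 : ℝ) < m := by linarith
        have c5 : m < 1 := by exact_mod_cast c3
        have c6 : -1 < m := by exact_mod_cast c4
        omega
      rw [b4, Int.cast_zero, add_zero] at b3
      exact Prod.ext b3.symm b2
    · filter_upwards [hic.eventually hG2] with x hx
      have := congrArg Prod.fst hx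
      have h5 : κ (G (x, uu κ (l, v))) = (kk κ ((G (x, uu κ (l, v))).1, (G (x, uu κ (l, v))).2.1), _) :=
        ToN_eq he _ _ _
      rw [h5] at this
      exact this
  inj l v l' v' hv hv' h := ToN_inj hκ he hv hv' h

/-- near the core the phase is near `1` -/
theorem ToN_eta {κ : ℝ × ℂ × ℝ → N × Circle} (hκ : ThickT IN κ) (hu : ∀ l, uu κ (l, 0) = 1) :
    ∃ η : ℝ, 0 < η ∧ η < 1 ∧ ∀ l v, ‖v‖ < η → 0 < ((uu κ (l, v) : Circle) : ℂ).re := by
  have hper : ∀ (l : ℝ) (v : ℂ) (m : ℤ), uu κ (l + m, v) = uu κ (l, v) := by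
    intro l v m
    have h := COR.Kmv_kap hκ (l, v, 0) m 0
    have h2 : ((l, v, 0) : ℝ × ℂ × ℝ) + ((m : ℝ), 0, ((0 : ℤ) : ℝ)) = (l + m, v, 0) := by
      simp
    rw [h2] at h
    show (κ (l + m, v, 0)).2 = (κ (l, v, 0)).2
    rw [h]
  have hre : ContinuousOn (fun q : ℝ × ℂ => ((uu κ q : Circle) : ℂ).re) {q : ℝ × ℂ | ‖q.2‖ < 1} := by
    intro q hq
    have h1 := (ToN_ksmooth hκ hq).2.continuousAt
    have h2 : ContinuousAt (fun q : ℝ × ℂ => ((uu κ q : Circle) : ℂ)) q :=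
      ContinuousAt.comp (g := fun z : Circle => (z : ℂ)) (f := uu κ) (by fun_prop) h1
    exact (Complex.continuous_re.continuousAt.comp h2).continuousWithinAt
  have hopen : IsOpen {q : ℝ × ℂ | ‖q.2‖ < 1 ∧ 0 < ((uu κ q : Circle) : ℂ).re} := by
    have h1 : IsOpen {q : ℝ × ℂ | ‖q.2‖ < 1} := isOpen_lt (by fun_prop) continuous_const
    exact hre.isOpen_inter_preimage h1 isOpen_Ioi
  have hsub : Icc (0 : ℝ) 1 ×ˢ ({0} : Set ℂ) ⊆ {q : ℝ × ℂ | ‖q.2‖ < 1 ∧ 0 < ((uu κ q : Circle) : ℂ).re} := by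
    rintro ⟨l, v⟩ ⟨-, hv⟩
    have hv : v = 0 := hv
    subst hv
    refine ⟨by simp, ?_⟩
    show 0 < ((uu κ (l, 0) : Circle) : ℂ).re
    rw [hu]
    simp
  obtain ⟨U, V, hU, hV, hU1, hV1, hUV⟩ := generalized_tube_lemma isCompact_Icc isCompact_singleton hopen hsub
  obtain ⟨η, hη, hb⟩ := Metric.isOpen_iff.1 hV 0 (hV1 rfl)
  refine ⟨min η (1 / 2), by positivity, by
    have := min_le_right η (1 / 2)
    linarith, ?_⟩
  intro l v hv
  have h1 : uu κ (l, v) = uu κ (Int.fract l, v) := by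
    rw [← hper (Int.fract l) v ⌊l⌋, Int.fract_add_floor]
  rw [h1]
  have h2 : (Int.fract l, v) ∈ U ×ˢ V :=
    ⟨hU1 ⟨Int.fract_nonneg l, (Int.fract_lt_one l).le⟩, hb (by
      rw [Metric.mem_ball, dist_zero_right]
      exact lt_of_lt_of_le hv (min_le_left _ _))⟩
  exact (hUV h2).2

/-- the lifted phase, cut off -/
noncomputable def ToN_W {N : Type*} (κ : ℝ × ℂ × ℝ → N × Circle) (η : ℝ) (q : ℝ × ℂ) : ℝ :=
  (1 - stp (η ^ 2 / 16) (η ^ 2 / 4) (‖q.2‖ ^ 2)) * (Complex.log ((uu κ q : Circle) : ℂ)).im / (2 * Real.pi)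

theorem ToN_W_smooth {κ : ℝ × ℂ × ℝ → N × Circle} (hκ : ThickT IN κ) {η : ℝ} (h0 : 0 < η) (h1 : η < 1)
    (hη : ∀ l v, ‖v‖ < η → 0 < ((uu κ (l, v) : Circle) : ℂ).re) : ContDiff ℝ ∞ (ToN_W κ η) := by
  rw [contDiff_iff_contDiffAt]
  intro q
  have hcut : ContDiff ℝ ∞ fun q : ℝ × ℂ => 1 - stp (η ^ 2 / 16) (η ^ 2 / 4) (‖q.2‖ ^ 2) :=
    contDiff_const.sub ((CSG.stp_smooth _ _).comp ((contDiff_norm_sq ℝ).comp contDiff_snd))
  rcases lt_or_ge ‖q.2‖ η with hq | hq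
  · have e1 : ContMDiffAt 𝓘(ℝ, ℝ × ℂ) 𝓘(ℝ, ℂ) ∞ (fun q : ℝ × ℂ => ((uu κ q : Circle) : ℂ)) q :=
      ContMDiffAt.comp (g := fun z : Circle => (z : ℂ)) (f := uu κ) q (RBN.Cir_coe_smooth _) (ToN_ksmooth hκ (by linarith)).2
    have e2 : ContDiffAt ℝ ∞ (fun q : ℝ × ℂ => ((uu κ q : Circle) : ℂ)) q := contMDiffAt_iff_contDiffAt.1 e1
    have e3 : ContDiffAt ℝ ∞ Complex.log ((uu κ q : Circle) : ℂ) :=
      (Complex.contDiffAt_log (Or.inl (hη q.1 q.2 hq))).restrict_scalars ℝ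
    have e4 : ContDiffAt ℝ ∞ (fun q : ℝ × ℂ => (Complex.log ((uu κ q : Circle) : ℂ)).im) q :=
      Complex.imCLM.contDiff.contDiffAt.comp q (ContDiffAt.comp (g := Complex.log)
        (f := fun q : ℝ × ℂ => ((uu κ q : Circle) : ℂ)) q e3 e2)
    exact (hcut.contDiffAt.mul e4).div_const _
  · have hev : ToN_W κ η =ᶠ[𝓝 q] fun _ => (0 : ℝ) := by
      have e1 : ContinuousAt (fun q : ℝ × ℂ => ‖q.2‖) q := by fun_prop
      filter_upwards [e1.eventually (lt_mem_nhds (b := ‖q.2‖) (a := η / 2) (by linarith))] with p hp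
      show (1 - stp (η ^ 2 / 16) (η ^ 2 / 4) (‖p.2‖ ^ 2)) * _ / _ = 0
      rw [CSG.stp_one (by nlinarith) (by nlinarith)]
      simp
    exact contDiffAt_const.congr_of_eventuallyEq hev

theorem ToN_W_out {N : Type*} (κ : ℝ × ℂ × ℝ → N × Circle) {η : ℝ} (h0 : 0 < η) {l : ℝ} {v : ℂ} (hv : η / 2 ≤ ‖v‖) :
    ToN_W κ η (l, v) = 0 := by
  show (1 - stp (η ^ 2 / 16) (η ^ 2 / 4) (‖v‖ ^ 2)) * _ / _ = 0
  rw [CSG.stp_one (by nlinarith) (by nlinarith)]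
  simp

theorem ToN_W_in {N : Type*} (κ : ℝ × ℂ × ℝ → N × Circle) {η : ℝ} (h0 : 0 < η) {l : ℝ} {v : ℂ} (hv : ‖v‖ < η / 4) :
    circ (ToN_W κ η (l, v)) = uu κ (l, v) := by
  have h1 : ToN_W κ η (l, v) = Complex.arg ((uu κ (l, v) : Circle) : ℂ) / (2 * Real.pi) := by
    show (1 - stp (η ^ 2 / 16) (η ^ 2 / 4) (‖v‖ ^ 2)) * (Complex.log ((uu κ (l, v) : Circle) : ℂ)).im / (2 * Real.pi) = _
    rw [CSG.stp_zero (by nlinarith) (by nlinarith [norm_nonneg v]), Complex.log_im]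
    ring
  rw [h1]
  exact Cir_arg _

/-- **An equivariant thick torus with core `(c, 1)` is, up to the equivalence `Same`, the product of a thick knot with core `c`.** -/
theorem exists_knot [T2Space N] {κ : ℝ × ℂ × ℝ → N × Circle} (hκ : ThickT IN κ) (he : Equi rot κ) {c : ℝ → N}
    (hc : ∀ l, κ (l, 0, 0) = (c l, 1)) :
    Thick (kk κ) ∧ (∀ l, kk κ (l, 0) = c l) ∧ Same.{v} IN κ (prd (kk κ)) := by
  have hk := ToN_thick hκ he
  have hkc : ∀ l, kk κ (l, 0) = c l := by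
    intro l
    show (κ (l, 0, 0)).1 = c l
    rw [hc]
  have hu : ∀ l, uu κ (l, 0) = 1 := by
    intro l
    show (κ (l, 0, 0)).2 = 1
    rw [hc]
  refine ⟨hk, hkc, ?_⟩
  obtain ⟨η, h0, h1, hη⟩ := ToN_eta hκ hu
  have hW := ToN_W_smooth hκ h0 h1 hη
  have hperu : ∀ l v, uu κ (l + 1, v) = uu κ (l, v) := by
    intro l v
    show (κ (l + 1, v, 0)).2 = (κ (l, v, 0)).2
    rw [hκ.perl]
  have hWper : ∀ l v, ToN_W κ η (l + 1, v) = ToN_W κ η (l, v) := by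
    intro l v
    unfold ToN_W
    rw [hperu]
  let H : Equiv.Perm (ℝ × ℂ × ℝ) :=
    { toFun := fun q => (q.1, q.2.1, q.2.2 - ToN_W κ η (q.1, q.2.1))
      invFun := fun q => (q.1, q.2.1, q.2.2 + ToN_W κ η (q.1, q.2.1))
      left_inv := fun q => by simp
      right_inv := fun q => by simp }
  have hp : ContDiff ℝ ∞ fun q : ℝ × ℂ × ℝ => ((q.1, q.2.1) : ℝ × ℂ) := by fun_prop
  have hWp : ContDiff ℝ ∞ fun q : ℝ × ℂ × ℝ => ToN_W κ η (q.1, q.2.1) := hW.comp hp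
  have hH : ContDiff ℝ ∞ H :=
    contDiff_fst.prodMk ((contDiff_fst.comp contDiff_snd).prodMk ((contDiff_snd.comp contDiff_snd).sub hWp))
  have hH' : ContDiff ℝ ∞ H.symm :=
    contDiff_fst.prodMk ((contDiff_fst.comp contDiff_snd).prodMk ((contDiff_snd.comp contDiff_snd).add hWp))
  obtain ⟨F, hF1, hF2, -, -⟩ := COR.kap_move hκ hH hH' (R := η / 2) (fun l v t => by
      show ((l + 1, v, t - ToN_W κ η (l + 1, v)) : ℝ × ℂ × ℝ) = (l, v, t - ToN_W κ η (l, v)) + (1, 0, 0)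
      rw [hWper]
      simp) (fun l v t u => by
      show ((l, v, t + u - ToN_W κ η (l, v)) : ℝ × ℂ × ℝ) = (l, v, t - ToN_W κ η (l, v)) + (0, 0, u)
      simp
      ring) (by linarith) (fun l v t hv => by
      show ((l, v, t - ToN_W κ η (l, v)) : ℝ × ℂ × ℝ) = (l, v, t)
      rw [ToN_W_out κ h0 hv, sub_zero])
  refine (same_diffeo F hF1).trans (same_germ (η := η / 4) (by positivity) (COR.ThickT_diffeo F hF1 hκ)
    (RBN.prd_thick hk) ?_)
  intro l v t hv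
  show prd (kk κ) (l, v, t) = F (κ (l, v, t))
  rw [hF2 l v t (by linarith)]
  show ((kk κ (l, v), circ t) : N × Circle) = κ (l, v, t - ToN_W κ η (l, v))
  rw [ToN_eq he]
  refine Prod.ext rfl ?_
  show circ t = uu κ (l, v) * circ (t - ToN_W κ η (l, v))
  rw [← ToN_W_in κ h0 hv, ← circ_add]
  congr 1
  ring

end

end Pool.Agent.NHB
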