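import Pool.Agent.NHB.RibN
import Pool.Agent.NHB.Ori
import Pool.Agent.NHB.ToN

/-!
# NHB/Top: the bridge

`bridge`: if the core of the thick knot `κ` is related by `LEqN` to `K'` then `K'` is the core of a thick knot with the same roll-Gluck
manifolds, for all `n`, `j`.
-/

open scoped Manifold ContDiff Topology
open Set Filter
open Pool.Agent.RSG (E3 E4 Thick IsRollGluck)
open Pool.Agent.RBM (ThickT TwinP)
open Pool.Agent.RBN (IN prd dic)
open Pool.Agent.NHP (E LEqN core)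

namespace Pool.Agent.NHB

universe v

section
variable {N : Type*} [TopologicalSpace N] [ChartedSpace E3 N]

/-- thick knots with the same product -/
theorem same_iff {κ κ' : ℝ × ℂ → N} (h : Same.{v} IN (prd κ) (prd κ')) (X : Type v) [TopologicalSpace X]
    [ChartedSpace E4 X] [T2Space X] (n j : ℤ) : IsRollGluck κ n j X ↔ IsRollGluck κ' n j X :=
  dic.symm.trans ((h X n j).trans dic)

theorem isC_core {κ : ℝ × ℂ → N} (hκ : Thick κ) : IsC.{v} (prd κ) (core κ) :=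
  ⟨fun l => κ (l, 0), rfl, prd κ, RBN.prd_thick hκ, prd_equi κ, fun l => prd_core l, Same.rfl' _⟩

/-- the bridge, with the product thick tori -/
theorem bridgeS [T2Space N] [IsManifold (𝓡 3) ∞ N] (hO : ∃ o : (E → N) → E → ℝ, Orn o) {κ : ℝ × ℂ → N}
    (hκ : Thick κ) {K' : Set N} (h : LEqN (core κ) K') :
    ∃ κ' : ℝ × ℂ → N, Thick κ' ∧ core κ' = K' ∧ Same.{v} IN (prd κ) (prd κ') := by
  obtain ⟨o, ho⟩ := hO
  obtain ⟨c, hr, κ₂, hT, he, hc, hS⟩ := (isC_LEqN (orP_of_orn ho) h).1 (isC_core.{v} hκ)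
  obtain ⟨h1, h2, h3⟩ := exists_knot.{v} hT he hc
  refine ⟨kk κ₂, h1, ?_, hS.trans h3⟩
  rw [← hr]
  show range (fun l => kk κ₂ (l, 0)) = range c
  rw [funext h2]

/-- **The bridge.** -/
theorem bridge [T2Space N] [IsManifold (𝓡 3) ∞ N] (hO : ∃ o : (E → N) → E → ℝ, Orn o) {κ : ℝ × ℂ → N}
    (hκ : Thick κ) {K' : Set N} (h : LEqN (core κ) K') :
    ∃ κ' : ℝ × ℂ → N, Thick κ' ∧ core κ' = K' ∧
      ∀ (X : Type v) [TopologicalSpace X] [ChartedSpace E4 X] [T2Space X] (n j : ℤ),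
        IsRollGluck κ n j X ↔ IsRollGluck κ' n j X := by
  obtain ⟨κ', h1, h2, h3⟩ := bridgeS.{v} hO hκ h
  exact ⟨κ', h1, h2, fun X _ _ _ n j => same_iff h3 X n j⟩

end

end Pool.Agent.NHB
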